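import Pool.Agent.H17.T4.Piv

/-!
# Several targets: the class end

`V0tEx`: labels of the targets on a part of an event, and a closed combination of the gradients of
the targets on a further part. `v0t_clsEnd`: a class whose large events have it is empty.
-/

set_option autoImplicit false

namespace Pool.T4E

open Finset Real MvPolynomial
open Pool.Agent.H49.Ent Pool.Agent.H32.Dense Pool.STK Pool.KA Pool.KSAT Pool.K2S Pool.PB Pool.S6C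
open Pool.GEN Pool.CHT Pool.CHX Pool.ISO Pool.D2R
open Pool.PB.Trl (rt)
open Pool.LBT (ThrOf)

variable {m : ℕ}

/-- **The conclusion of the class theorem**: on a part `A₁` of the event closed labels `GN` of the
targets `c k, …, c (k + f)` near the charts of the window `kw`, bounded gradients; on a part `A'` a
closed combination of the gradients of `c k, …, c (k + v)`. -/
def V0tEx {J : ℕ} (F : Fam m J) (c : ℕ → Fin m) (k f D' kb kw kn : ℕ) (o : ℕ → ℝ)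
    (φ ι x m₁ m₀ : ℝ) (zt s₁ : ℕ → ℝ) (A : F.Ω → Prop) (g : ℕ → ℕ)
    (G : ℕ → PtT F → ℕ → MvPolynomial (Option (Fin m)) ℝ) : Prop :=
  ∃ (A₁ : F.Ω → Prop) (GN : PtT F → ℕ → MvPolynomial (Option (Fin m)) ℝ)
    (HN : LnT F → ℕ → MvPolynomial (Option (Fin m)) ℝ) (κN : ℕ → F.Ω → ℝ),
    Sub A₁ A ∧ m₁ * Pe F.p A ≤ Pe F.p A₁ ∧
    (∀ l, k ≤ l → l ≤ k + f → (∀ y, (GN y l).totalDegree ≤ D') ∧
      ∀ s, (HN s l).totalDegree ≤ D') ∧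
    (∀ l, k ≤ l → l ≤ k + f → (∀ y, DepC c l (GN y l)) ∧ ∀ s, DepC c l (HN s l)) ∧
    (∀ l, k ≤ l → l ≤ k + f → ∀ ω, A₁ ω → GN (ptr F J ω) l = HN (slam F ⌊o kw * J⌋₊ ω) l) ∧
    (∀ l, k ≤ l → l ≤ k + f → ∀ ω, A₁ ω → ∀ b,
      NBx c (G kw (ptr F J ω)) g ⌊o kw * J⌋₊ (F.t ω) l b →
      |eval b (GN (ptr F J ω) l) + κN l ω - eval b (G kw (ptr F J ω) l)| ≤
        2 ^ (φ * J) / 2 ^ g l) ∧
    (∀ ω, A₁ ω → ∀ l, k ≤ l → l ≤ k + f → ∀ i < l,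
      |gnh F c l g (folN G (fun y => GN y l) kb kn k l) (G kn) ω i| ≤ 2 ^ (ι * J)) ∧
    (∀ ω ν, A₁ ω → A₁ ν → ptr F J ω = ptr F J ν → ∀ l, k ≤ l → l ≤ k + f → ∀ i < k,
      |gnh F c l g (folN G (fun y => GN y l) kb kn k l) (G kn) ω i -
        gnh F c l g (folN G (fun y => GN y l) kb kn k l) (G kn) ν i| ≤ 2 ^ (-(x * J))) ∧
    ∃ (v W : ℕ) (A' : F.Ω → Prop) (la : LnT F → ℕ → ℝ) (laP : PtT F → ℕ → ℝ)
      (mu : LnT F → ℕ → Polynomial ℝ), v ≤ f ∧ ⌊o kw * J⌋₊ ≤ W ∧ (W : ℝ) ≤ (o kw + 2 * φ) * J ∧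
      Sub A' A₁ ∧ m₀ * Pe F.p A₁ ≤ Pe F.p A' ∧
      (∀ ω, A' ω → ∀ l < v, |la (slam F W ω) l| ≤ 2 ^ (zt v * J)) ∧
      (∀ s i, (mu s i).natDegree ≤ D' + 1) ∧
      ∀ ω, A' ω → (∀ l < v, la (slam F W ω) l = laP (ptr F J ω) l) ∧ ∀ i < k,
        |gnh F c (k + v) g (folN G (fun y => GN y (k + v)) kb kn k (k + v)) (G kn) ω i +
          ∑ l ∈ range v, la (slam F W ω) l *
            gnh F c (k + l) g (folN G (fun y => GN y (k + l)) kb kn k (k + l)) (G kn) ω i -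
          (mu (slam F W ω) i).eval (rt F W ω)| ≤ 2 ^ (-(s₁ v * J))

theorem bas_evT {S : PCl m} {Φ : Stat m} (h : Bas S Φ) {κ : ℝ} (hκ : 0 < κ) :
    Bas S (fun J F A => ∀ B : F.Ω → Prop, Sub B A → κ * Pe F.p A ≤ Pe F.p B → Φ J F B) := by
  obtain ⟨τ, hτ, J₁, h⟩ := h
  obtain ⟨J₂, hJ₂⟩ := exists_nat_ge (-Real.log κ / (τ / 2))
  refine ⟨τ / 2, by positivity, max J₁ J₂, fun J hJ F A hA B hB hP => ?_⟩
  refine h J ((le_max_left _ _).trans hJ) F B ?_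
  have h1 := S.res (τ := τ / 2) (τ' := τ / 2) (by positivity) hA hB (by
    refine le_trans (mul_le_mul_of_nonneg_right ?_ (Pe_nonneg F.isLaw A)) hP
    have hJ' : (J₂ : ℝ) ≤ J := by exact_mod_cast (le_max_right _ _).trans hJ
    have h2 : -Real.log κ / (τ / 2) ≤ J := hJ₂.trans hJ'
    rw [div_le_iff₀ (by positivity)] at h2
    have h3 : -(τ / 2 * (J : ℝ)) ≤ Real.log κ := by linarith
    exact (Real.exp_le_exp.2 h3).trans (Real.exp_log hκ).le)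
  rwa [add_halves] at h1

/-- **The class end** for several targets. -/
theorem v0t_clsEnd (m D D' k f : ℕ) (hD : 1 ≤ D) (hDD : D ≤ D') : ∃ C : ℕ, 1 ≤ C ∧
    ∀ {S : PCl m}
    {P : List (Fin m) × Fin m → ℝ → ℝ → ℝ} {θ : ℝ} {c : ℕ → Fin m}
    {C₀ a' Eb ηm ζ₀ : ℝ} {o η σ r₀ : ℕ → ℝ} {lv bb : ℕ → ℕ → ℝ} {Dr N M nb kn : ℕ}
    {fb : ℕ → ℕ} {w : ℚ} {a : ℕ → ℚ} {q₁ s₁ h h₂ e ζ zt : ℕ → ℝ} {nv jq jT : ℕ → ℕ}
    {φ ι x K₁ m₁ m₀ : ℝ} (zz : ℕ → ℕ → ℕ → ℕ), S.Ne → ThrOf (chsys m θ) S P → TmH S → Set.InjOn c (Set.Iio (k + f + 1)) → D ≤ Dr →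
    -- the windows
    (∀ t ≤ nb, fb t ≤ N) → kn ≤ N → (∀ t < nb, o (fb t) ≤ o (fb (t + 1))) → 0 < ζ₀ →
    C * (C₀ * ηm) ≤ ζ₀ →
    (∀ t ≤ nb, ∀ l < k, C * |lv (fb t) l - o (fb t) - (lv (fb nb) l - o (fb nb))| ≤ ζ₀) →
    (∀ t, t = fb nb ∨ t = kn → o t + C * ζ₀ ≤ 1 ∧ ∀ l ≤ k + f, C * ζ₀ ≤ lv t l ∧
      Eb + lv t l + C * ζ₀ ≤ 1) →
    -- the numbers of the end
    o (fb nb) + 2 * φ ≤ w → w ≤ o (fb nb) + ζ₀ → 0 ≤ w → w < 1 → 0 ≤ φ → φ < ζ₀ → 0 ≤ ι →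
    0 < K₁ → 0 < m₁ → 0 < m₀ →
    (∀ v ≤ f, nv v ≤ N ∧ jq v ≤ M ∧ jT v ≤ M ∧ 0 ≤ zt v ∧ C * (ι + zt v + ζ₀) ≤ ζ v ∧
      s₁ v ≤ x ∧ PivN P θ c k v C Eb o lv (fb nb) (nv v) w (a v) (q₁ v) (s₁ v) (h v) (h₂ v)
        (e v) (ζ v) ∧
      ∀ l ≤ v, o kn - lv kn (k + l) + lv (fb nb) (k + l) + lv (nv v) (k + v) -
        lv (fb nb) (k + v) ≤ o (nv v) + ζ₀) →
    -- the radii
    (∃ J₁ : ℕ, ∀ J ≥ J₁, (∀ t ≤ N, ∀ i ≤ M, r₀ t * J ≤ zz J t i ∧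
        zz J t i ≤ ⌊a' * J⌋₊ - ⌊o t * J⌋₊) ∧
      (∀ t < nb, ∃ j ≤ M, zz J (fb t) j = ⌊o (fb (t + 1)) * J⌋₊ - ⌊o (fb t) * J⌋₊) ∧
      ∀ v ≤ f, (zz J (fb nb) (jq v) : ℝ) ≤ q₁ v * J ∧
        2 * φ * J + 1 ≤ zz J (fb nb) (jq v) ∧
        ⌊o (fb nb) * J⌋₊ + zz J (fb nb) (jT v) ≤ ⌊(a v : ℝ) * J⌋₊ ∧
        (a v : ℝ) * J ≤ ⌊o (fb nb) * J⌋₊ + zz J (fb nb) (jT v) + ζ₀ * J + 2) →
    -- the windows in the class
    (∀ κ : ℝ, 0 < κ → Bas S (fun J F A => ∀ z : ℕ → ℕ → ℕ,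
      (∀ t ≤ N, ∀ i ≤ M, r₀ t * J ≤ z t i ∧ z t i ≤ ⌊a' * J⌋₊ - ⌊o t * J⌋₊) →
      ∃ (B : F.Ω → Prop) (g₀ : ℕ → ℕ → ℕ) (G : ℕ → PtT F → ℕ → MvPolynomial (Option (Fin m)) ℝ)
        (H : ℕ → LnT F → ℕ → MvPolynomial (Option (Fin m)) ℝ), Sub B A ∧
        Pe F.p A ≤ K₁ * Pe F.p B ∧
        WinB F c (k + f) D Dr N M C₀ a' Eb ηm o η σ lv bb κ z B g₀ G H)) →
    -- the class theorem
    Bas S (fun J F A => ∀ {κ : ℝ} {g₀ : ℕ → ℕ → ℕ}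
      {Gc : ℕ → PtT F → ℕ → MvPolynomial (Option (Fin m)) ℝ}
      {H : ℕ → LnT F → ℕ → MvPolynomial (Option (Fin m)) ℝ},
      WinB F c (k + f) D Dr N M C₀ a' Eb ηm o η σ lv bb κ (zz J) A g₀ Gc H →
      V0tEx F c k f D' (fb 0) (fb nb) kn o φ ι x m₁ m₀ zt s₁ A (g₀ (fb nb)) Gc) →
    False := by
  have hpiv := fun u : ℕ => fun huf : u ≤ f => piv_end m D D' k f u hD hDD huf
  choose! Cp hCp hpiv using hpiv
  obtain ⟨Cr, hCr, hro⟩ := winb_rout m D (k + f) hD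
  obtain ⟨Cn, hCn, hnear⟩ := v0_near D k
  obtain ⟨C, hC⟩ : ∃ C : ℕ, C = (∑ u ∈ range (f + 1), Cp u) + Cr + 4 * Cn := ⟨_, rfl⟩
  have hCpC : ∀ u ≤ f, Cp u ≤ C := by
    intro u hu
    have h1 : Cp u ≤ ∑ u ∈ range (f + 1), Cp u :=
      Finset.single_le_sum (f := Cp) (fun _ _ => Nat.zero_le _) (mem_range.2 (by omega))
    omega
  have hCr1 : (1 : ℝ) ≤ Cr := by exact_mod_cast hCr
  have hCn1 : (1 : ℝ) ≤ Cn := by exact_mod_cast hCn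
  have hCrC : (Cr : ℝ) ≤ C := by
    have : Cr ≤ C := by omega
    exact_mod_cast this
  have hCnC : 4 * (Cn : ℝ) ≤ C := by
    have : 4 * Cn ≤ C := by omega
    exact_mod_cast this
  have hC1 : (1 : ℝ) ≤ C := by linarith
  refine ⟨C, by omega, ?_⟩
  intro S P θ c C₀ a' Eb ηm ζ₀ o η σ r₀ lv bb Dr N M nb kn fb w a q₁ s₁ h h₂ e ζ zt nv jq jT
    φ ι x K₁ m₁ m₀ zz hne hP hT hc hDr hfb hkn hmo hζ₀ hCη hsl hroom
    hφw w2 w3 w6 hφ0 hφζ hι hK₁ hm₁ hm₀ hpn hzz hwin hV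
  have hfbn : fb nb ≤ N := hfb nb le_rfl
  have hfb0 : fb 0 ≤ N := hfb 0 (Nat.zero_le _)
  have hCζ : ζ₀ ≤ C * ζ₀ := le_mul_of_one_le_left hζ₀.le hC1
  -- the exponent of the constants
  have hCη' : ∀ x : ℝ, 1 ≤ x → x ≤ C → x * (C₀ * ηm) ≤ ζ₀ := by
    intro x h1 h2
    rcases le_or_gt (C₀ * ηm) 0 with h4 | h4
    · have : x * (C₀ * ηm) ≤ 0 := mul_nonpos_of_nonneg_of_nonpos (by linarith) h4
      linarith
    · exact (mul_le_mul_of_nonneg_right h2 h4.le).trans hCη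
  have hCη1 : C₀ * ηm ≤ ζ₀ := by
    have := hCη' 1 le_rfl hC1
    rwa [one_mul] at this
  -- the numbers with the constants of the pivots
  have hζ : ∀ v ≤ f, 0 < ζ v ∧ ζ₀ ≤ ζ v := by
    intro v hv
    obtain ⟨-, -, -, h1, h2, -⟩ := hpn v hv
    have h3 : ζ₀ ≤ C * (ι + zt v + ζ₀) := by nlinarith
    exact ⟨by linarith, by linarith⟩
  have hpvN : ∀ v ≤ f, PivN P θ c k v (Cp v) Eb o lv (fb nb) (nv v) w (a v) (q₁ v) (s₁ v) (h v)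
      (h₂ v) (e v) (ζ v) := by
    intro v hv
    obtain ⟨-, -, -, -, -, -, p1, -⟩ := hpn v hv
    have h1 : (Cp v : ℝ) * ζ v ≤ C * ζ v := by
      refine mul_le_mul_of_nonneg_right ?_ (hζ v hv).1.le
      exact_mod_cast hCpC v hv
    exact { p1 with
      hE := by linarith [p1.hE]
      g1 := by linarith [p1.g1]
      g2 := by linarith [p1.g2]
      g3 := by linarith [p1.g3]
      g4 := by linarith [p1.g4]
      g5 := fun l hl => by linarith [p1.g5 l hl]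
      g6 := fun l hl => by linarith [p1.g6 l hl] }
  -- the ends
  have hends : ∀ v, ∃ δ : ℝ, 0 < δ ∧ (v ≤ f → Bas S (fun J F A => ∀ (z : ℕ → ℕ → ℕ) (κ : ℝ)
      (b : ℕ → ℕ → ℝ)
      (B : F.Ω → Prop) (g₀ : ℕ → ℕ → ℕ)
      (G : ℕ → PtT F → ℕ → MvPolynomial (Option (Fin m)) ℝ)
      (H : ℕ → LnT F → ℕ → MvPolynomial (Option (Fin m)) ℝ) (jq jT W : ℕ),
      WinB F c (k + f) D Dr N M C₀ a' Eb ηm o η σ lv b κ z B g₀ G H →
      Sub B A → jq ≤ M → jT ≤ M → (z (fb nb) jq : ℝ) ≤ q₁ v * J →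
      ⌊o (fb nb) * J⌋₊ + z (fb nb) jT ≤ ⌊(a v : ℝ) * J⌋₊ →
      (a v : ℝ) * J ≤ ⌊o (fb nb) * J⌋₊ + z (fb nb) jT + ζ₀ * J + 2 → ⌊o (fb 0) * J⌋₊ ≤ W →
      ⌊o (fb nb) * J⌋₊ ≤ W → W ≤ ⌊(w : ℝ) * J⌋₊ → W ≤ ⌊o (fb nb) * J⌋₊ + z (fb nb) jq →
      ∀ (A' : F.Ω → Prop) (GN : PtT F → ℕ → MvPolynomial (Option (Fin m)) ℝ)
        (HN : LnT F → ℕ → MvPolynomial (Option (Fin m)) ℝ) (κQ : F.Ω → ℕ → ℝ)
        (la : LnT F → ℕ → ℝ) (laP : PtT F → ℕ → ℝ) (mu : LnT F → ℕ → Polynomial ℝ), Sub A' B →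
      ROutB F c (k + f) ⌊o (fb nb) * J⌋₊ ⌊ζ₀ * J⌋₊ (g₀ (fb nb)) A' (G (fb nb)) (H (fb nb)) →
      ROutB F c (k + f) ⌊o kn * J⌋₊ ⌊ζ₀ * J⌋₊ (g₀ kn) A' (G kn) (H kn) →
      (∀ l, k ≤ l → l ≤ k + f → (∀ y, (GN y l).totalDegree ≤ D') ∧
        ∀ s, (HN s l).totalDegree ≤ D') →
      (∀ l, k ≤ l → l ≤ k + f → (∀ y, DepC c l (GN y l)) ∧ ∀ s, DepC c l (HN s l)) →
      (∀ l, k ≤ l → l ≤ k + f → ∀ ω, A' ω →
        GN (ptr F J ω) l = HN (slam F ⌊o (fb nb) * J⌋₊ ω) l) →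
      (∀ ω, A' ω → ∀ l ≤ k + v, ∀ b,
        NBx c (G (fb nb) (ptr F J ω)) (g₀ (fb nb)) ⌊o (fb nb) * J⌋₊ (F.t ω) l b →
        |eval b (frQ G GN (fb 0) k f (ptr F J ω) l) + κQ ω l -
          eval b (G (fb nb) (ptr F J ω) l)| ≤ 2 ^ ⌊ζ v * J⌋₊ / 2 ^ g₀ (fb nb) l) →
      (∀ ω, A' ω → ∀ t ≤ v, ∀ i < k + t,
        |gnq F c (g₀ (fb nb)) G (frQ G GN (fb 0) k f) (fb 0) kn k (k + t) ω i| ≤ 2 ^ (ι * J)) →
      (∀ ω ν, A' ω → A' ν → ptr F J ω = ptr F J ν → ∀ t ≤ v, ∀ i < k,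
        |gnq F c (g₀ (fb nb)) G (frQ G GN (fb 0) k f) (fb 0) kn k (k + t) ω i -
          gnq F c (g₀ (fb nb)) G (frQ G GN (fb 0) k f) (fb 0) kn k (k + t) ν i| ≤
            2 ^ (-(x * J))) →
      (∀ ω, A' ω → ∀ l < v, |la (slam F W ω) l| ≤ 2 ^ (zt v * J)) →
      (∀ ω, A' ω → ∀ l < v, la (slam F W ω) l = laP (ptr F J ω) l) →
      (∀ s i, (mu s i).natDegree ≤ D' + 1) →
      (∀ ω, A' ω → ∀ i < k,
        |gnq F c (g₀ (fb nb)) G (frQ G GN (fb 0) k f) (fb 0) kn k (k + v) ω i +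
          ∑ l ∈ range v, la (slam F W ω) l *
            gnq F c (g₀ (fb nb)) G (frQ G GN (fb 0) k f) (fb 0) kn k (k + l) ω i -
          (mu (slam F W ω) i).eval (rt F W ω)| ≤ 2 ^ (-(s₁ v * J))) →
      Pe F.p A' ≤ Real.exp (-(δ * J)) * Pe F.p A)) := by
    intro v
    by_cases hv : v ≤ f
    · obtain ⟨p1, p2, p3, p4, p5, p6, p7, p8⟩ := hpn v hv
      obtain ⟨δ, hδ, h1⟩ := hpiv v hv (S := S) (P := P) (θ := θ) (c := c) (C₀ := C₀) (a' := a')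
        (Eb := Eb) (ηm := ηm) (ζ₀ := ζ₀) (ζ := ζ v) (ι := ι) (zt := zt v) (x := x) (o := o)
        (η := η) (σ := σ) (lv := lv) (Dr := Dr) (N := N) (M := M) (kb := fb 0) (kw := fb nb)
        (kn := kn) (nv := nv v) (w := w) (a := a v) (q₁ := q₁ v) (s₁ := s₁ v) (h := h v)
        (h₂ := h₂ v) (e := e v) hP hT hc hfb0 hfbn hkn p1 (by linarith) w2 w3 w6 hζ₀ hCη1 hι p4
        (by
          refine le_trans (mul_le_mul_of_nonneg_right ?_ (by linarith)) p5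
          exact_mod_cast hCpC v hv) (hpvN v hv) p6 p8
      exact ⟨δ, hδ, fun _ => h1⟩
    · exact ⟨1, one_pos, fun h => absurd h hv⟩
  choose δ hδ hends using hends
  -- the smallest exponent
  obtain ⟨δ₀, hδ₀, hδm⟩ : ∃ δ₀ : ℝ, 0 < δ₀ ∧ ∀ v ≤ f, δ₀ ≤ δ v := by
    refine ⟨(range (f + 1)).inf' ⟨0, mem_range.2 (by omega)⟩ δ, ?_, fun v hv => ?_⟩
    · rw [Finset.lt_inf'_iff]
      exact fun v _ => hδ v
    · exact Finset.inf'_le _ (mem_range.2 (by omega))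
  have hall := Bas.all (f + 1) fun v (hv : v < f + 1) => hends v (by omega)
  -- the outputs of the balls
  obtain ⟨ζr, hζr⟩ : ∃ ζr : ℝ, ζr = ζ₀ / Cr := ⟨_, rfl⟩
  have hζr0 : 0 < ζr := by rw [hζr]; positivity
  have hζrC : Cr * ζr = ζ₀ := by rw [hζr]; field_simp
  obtain ⟨κ', hκ', hro⟩ := hro (S := S) (c := c) (C₀ := C₀) (a := a') (Eb := Eb) (ηm := ηm)
    (ζ := ζr) (κ₀ := m₁ * m₀ / K₁) (o := o) (η := η) (σ := σ) (lv := lv) (Dr := Dr) (N := N)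
    (M := M) [fb nb, kn] hT hc hDr hζr0 (by positivity) (by
      rw [hζr, le_div_iff₀ (by positivity), mul_comm]
      exact hCη' _ hCr1 hCrC) (fun t ht => by
      have ht' : t = fb nb ∨ t = kn := by
        simpa using ht
      obtain ⟨a1, a2⟩ := hroom t ht'
      refine ⟨by rcases ht' with rfl | rfl <;> assumption, by rw [hζrC]; linarith,
        fun l hl => ⟨?_, ?_⟩⟩
      · rw [hζrC]
        linarith [(a2 l hl).1]
      · rw [hζrC]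
        linarith [(a2 l hl).2])
  have hV' := bas_evT hV (κ := 1 / K₁) (by positivity)
  obtain ⟨J₁, hzz⟩ := hzz
  obtain ⟨J₂, hJ₂⟩ := exists_nat_gt (max (((nb : ℝ) + 4) / (ζ₀ / (2 * Cn)))
    (max (1 / (ζ₀ - φ)) (Real.log (32 ^ 2 * (K₁ / (m₁ * m₀)) + 1) / δ₀)))
  refine Pool.LBT.bas_false hne (Φ := fun _ _ _ => False) ?_ ⟨1, one_pos, 0,
    fun _ _ _ _ _ h => h⟩
  refine Bas.mono (max (max J₁ J₂) 1) (((hwin κ' hκ').and hV').and (hro.and (hall.and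
    (show Bas S (fun J F A => 0 < Pe F.p A) from
      ⟨1, one_pos, 0, fun J _ F A h1 => hT.1 1 J F A h1⟩)))) ?_
  rintro J hJ F A ⟨⟨b1, b3⟩, b4, b5, hA⟩
  have hJ1 : J₁ ≤ J := (le_max_left _ _).trans ((le_max_left _ _).trans hJ)
  have hJ2 : J₂ ≤ J := (le_max_right _ _).trans ((le_max_left _ _).trans hJ)
  have hJ3 : 1 ≤ J := (le_max_right _ _).trans hJ
  have hJ0 : (0 : ℝ) < J := by exact_mod_cast hJ3
  have hJ2R : (J₂ : ℝ) ≤ J := by exact_mod_cast hJ2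
  have hp := Pe_nonneg F.isLaw
  have hK0 : 0 < K₁ := hK₁
  obtain ⟨z1, z2, z3⟩ := hzz J hJ1
  have hζφ : 0 < ζ₀ - φ := by linarith
  have j1 : ((nb : ℝ) + 4) ≤ ζ₀ / (2 * Cn) * J := by
    have h1 := ((le_max_left _ _).trans_lt hJ₂).le.trans hJ2R
    rwa [div_le_iff₀ (by positivity), mul_comm] at h1
  have j2 : 1 ≤ (ζ₀ - φ) * J := by
    have h1 := (((le_max_left _ _).trans (le_max_right _ _)).trans_lt hJ₂).le.trans hJ2R
    rwa [div_le_iff₀ hζφ, mul_comm] at h1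
  have j3 : Real.log (32 ^ 2 * (K₁ / (m₁ * m₀)) + 1) < δ₀ * J := by
    have h1 := (((le_max_right _ _).trans (le_max_right _ _)).trans_lt hJ₂).trans_le hJ2R
    rw [div_lt_iff₀ hδ₀] at h1
    linarith
  -- the events
  obtain ⟨B₀, g₀, G, H, hB₀, hPB₀, W⟩ := b1 (zz J) z1
  have hPB₀' : 1 / K₁ * Pe F.p A ≤ Pe F.p B₀ := by
    rw [one_div, inv_mul_le_iff₀ hK0]
    exact hPB₀
  obtain ⟨A₁, GN, HN, κN, n1, n2, n3, n4, n5, n6, n7, n8, v, Wn, A', la, laP, mu, hvf, m1, m2,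
    m3, m4, m5, m6, m7⟩ := b3 B₀ hB₀ hPB₀' W
  have hA'₀ : Sub A' B₀ := fun ω hω => n1 ω (m3 ω hω)
  have hPA' : m₁ * m₀ / K₁ * Pe F.p A ≤ Pe F.p A' := by
    calc m₁ * m₀ / K₁ * Pe F.p A = m₀ * (m₁ * (1 / K₁ * Pe F.p A)) := by ring
      _ ≤ m₀ * (m₁ * Pe F.p B₀) := by
          exact mul_le_mul_of_nonneg_left (mul_le_mul_of_nonneg_left hPB₀' hm₁.le) hm₀.le
      _ ≤ m₀ * Pe F.p A₁ := mul_le_mul_of_nonneg_left n2 hm₀.le
      _ ≤ _ := m4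
  obtain ⟨B₃, hB₃, hPB₃, hout⟩ := b4 (zz J) κ' bb B₀ g₀ G H A' W le_rfl hB₀ hA'₀ hPA'
  have hB₃₁ : Sub B₃ A₁ := fun ω hω => m3 ω (hB₃ ω hω)
  have hB₃₀ : Sub B₃ B₀ := fun ω hω => hA'₀ ω (hB₃ ω hω)
  rw [hζrC] at hout
  obtain ⟨hζv0, hζv⟩ := hζ v hvf
  obtain ⟨p1, p2, p3, p4, p5, p6, p7, p8⟩ := hpn v hvf
  obtain ⟨z4, z5, z6, z7⟩ := z3 v hvf
  -- the windows
  have hfl1 : ⌊o (fb 0) * J⌋₊ ≤ ⌊o (fb nb) * J⌋₊ := by
    refine Nat.floor_le_floor (mul_le_mul_of_nonneg_right ?_ hJ0.le)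
    have h1 : ∀ t ≤ nb, o (fb 0) ≤ o (fb t) := by
      intro t
      induction t with
      | zero => intro _; exact le_rfl
      | succ t ih => intro ht; exact (ih (by omega)).trans (hmo t (by omega))
    exact h1 nb le_rfl
  have hWw : Wn ≤ ⌊(w : ℝ) * J⌋₊ := by
    refine Nat.le_floor (m2.trans (mul_le_mul_of_nonneg_right hφw hJ0.le))
  have hWq : Wn ≤ ⌊o (fb nb) * J⌋₊ + zz J (fb nb) (jq v) := by
    have h1 := (Nat.lt_floor_add_one (o (fb nb) * (J : ℝ))).le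
    have h2 : (Wn : ℝ) ≤ ((⌊o (fb nb) * J⌋₊ + zz J (fb nb) (jq v) : ℕ) : ℝ) := by
      push_cast
      nlinarith
    exact_mod_cast h2
  -- the charts of the slope-one places are near
  obtain ⟨Y, hY⟩ : ∃ Y : ℕ, Y = ⌊ζ₀ / Cn * J⌋₊ := ⟨_, rfl⟩
  have e2 : ζ₀ / Cn * J = 2 * (ζ₀ / (2 * Cn) * J) := by
    field_simp
  have hn0 : (0 : ℝ) ≤ nb := Nat.cast_nonneg nb
  have hYR : ζ₀ / (2 * Cn) * J ≤ Y := by
    have h4 := (Nat.lt_floor_add_one (ζ₀ / Cn * (J : ℝ))).le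
    rw [← hY, e2] at h4
    linarith
  have hYle : Cn * (Y : ℝ) ≤ ζ₀ * J := by
    have h4 : (Y : ℝ) ≤ ζ₀ / Cn * J := by
      rw [hY]
      exact Nat.floor_le (by positivity)
    calc Cn * (Y : ℝ) ≤ Cn * (ζ₀ / Cn * J) := mul_le_mul_of_nonneg_left h4 (by linarith)
      _ = ζ₀ * J := by field_simp
  have hlin : ∀ x : ℝ, 2 * Cn * x ≤ ζ₀ → x * J ≤ Y := fun x hx => by
    refine le_trans (mul_le_mul_of_nonneg_right ?_ hJ0.le) hYR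
    rw [le_div_iff₀ (by positivity)]
    linarith
  choose! jb hjb1 hjb2 using z2
  obtain ⟨κQ, hκQ0, hκQ⟩ := hnear W (fb := fb) (jb := jb) (nb := nb) (Y := Y) hc
    (Nat.le_add_right k f) hfb (fun t ht => ⟨hjb1 t ht, hjb2 t ht, hmo t ht⟩) (by
      have := hlin (C₀ * ηm) (hCη' _ (by linarith) (by linarith))
      rw [mul_assoc] at this
      exact this) (by
      have h4 : (3 : ℝ) ≤ Y := by linarith
      exact_mod_cast h4) (by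
      have h4 : (nb : ℝ) ≤ Y := by linarith
      exact h4.trans (by exact_mod_cast Nat.lt_two_pow_self.le))
    (fun t ht l hl => by
      have h4 := hsl t ht l hl
      have h5 : 2 * Cn * |lv (fb t) l - o (fb t) - (lv (fb nb) l - o (fb nb))| ≤ ζ₀ :=
        (mul_le_mul_of_nonneg_right (by linarith) (abs_nonneg _)).trans h4
      have h6 := hlin _ h5
      have h7 := mul_le_mul_of_nonneg_right
        (le_abs_self (lv (fb t) l - o (fb t) - (lv (fb nb) l - o (fb nb)))) hJ0.le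
      have h8 := mul_le_mul_of_nonneg_right
        (neg_le_abs (lv (fb t) l - o (fb t) - (lv (fb nb) l - o (fb nb)))) hJ0.le
      constructor
      · linarith
      · have h9 : lv (fb nb) l - o (fb nb) - (lv (fb t) l - o (fb t)) =
          -(lv (fb t) l - o (fb t) - (lv (fb nb) l - o (fb nb))) := by ring
        rw [h9]
        linarith)
  have hYf : Cn * Y ≤ ⌊ζ v * J⌋₊ := Nat.le_floor (by
    push_cast
    exact hYle.trans (mul_le_mul_of_nonneg_right hζv hJ0.le))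
  have hφp : (2 : ℝ) ^ (φ * J) ≤ 2 ^ ⌊ζ v * J⌋₊ := by
    rw [← Real.rpow_natCast]
    refine Real.rpow_le_rpow_of_exponent_le one_le_two ?_
    have h4 := (Nat.lt_floor_add_one (ζ v * (J : ℝ))).le
    have h5 := mul_le_mul_of_nonneg_right hζv hJ0.le
    linarith
  have hgq : ∀ l, k ≤ l → l ≤ k + f → ∀ ω i,
      gnq F c (g₀ (fb nb)) G (frQ G GN (fb 0) k f) (fb 0) kn k l ω i =
      gnh F c l (g₀ (fb nb)) (folN G (fun y => GN y l) (fb 0) kn k l) (G kn) ω i := by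
    intro l hl hl' ω i
    unfold gnq
    have e3 : (fun y => frQ G GN (fb 0) k f y l) = fun y => GN y l := by
      funext y
      unfold frQ
      rw [if_neg (by omega), if_pos hl']
    rw [e3]
  -- the contradiction
  have hfin := b5 v (by omega) (zz J) κ' bb B₀ g₀ G H (jq v) (jT v) Wn W hB₀ p2 p3 z4 z6 z7
    (hfl1.trans m1) m1 hWw hWq B₃ GN HN (fun ω l => if l < k then κQ ω l else κN l ω) la laP mu
    hB₃₀ (hout (fb nb) (by simp)) (hout kn (by simp)) n3 n4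
    (fun l hl hl' ω hω => n5 l hl hl' ω (hB₃₁ ω hω))
    (fun ω hω l hl b hb => by
      by_cases hlk : l < k
      · simp only [if_pos hlk]
        have h4 := hκQ ω (hB₃₀ ω hω) l hlk.le b hb
        rw [hyb_lo G hlk] at h4
        have e4 : frQ G GN (fb 0) k f (ptr F J ω) l = G (fb 0) (ptr F J ω) l := if_pos hlk
        rw [e4]
        exact h4.trans (div_le_div_of_nonneg_right
          (pow_le_pow_right₀ (by norm_num) hYf) (by positivity))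
      · simp only [if_neg hlk]
        have h4 := n6 l (by omega) (by omega) ω (hB₃₁ ω hω) b hb
        have e4 : frQ G GN (fb 0) k f (ptr F J ω) l = GN (ptr F J ω) l := by
          unfold frQ
          rw [if_neg hlk, if_pos (by omega)]
        rw [e4]
        exact h4.trans (div_le_div_of_nonneg_right hφp (by positivity)))
    (fun ω hω t ht i hi => by
      rw [hgq (k + t) (by omega) (by omega)]
      exact n7 ω (hB₃₁ ω hω) (k + t) (by omega) (by omega) i hi)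
    (fun ω ν hω hν hpt t ht i hi => by
      rw [hgq (k + t) (by omega) (by omega), hgq (k + t) (by omega) (by omega)]
      exact n8 ω ν (hB₃₁ ω hω) (hB₃₁ ν hν) hpt (k + t) (by omega) (by omega) i hi)
    (fun ω hω l hl => m5 ω (hB₃ ω hω) l hl)
    (fun ω hω l hl => (m7 ω (hB₃ ω hω)).1 l hl) m6
    (fun ω hω i hi => by
      have h4 := (m7 ω (hB₃ ω hω)).2 i hi
      rw [hgq (k + v) (by omega) (by omega)]
      have e4 : ∑ l ∈ range v, la (slam F Wn ω) l *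
            gnq F c (g₀ (fb nb)) G (frQ G GN (fb 0) k f) (fb 0) kn k (k + l) ω i =
          ∑ l ∈ range v, la (slam F Wn ω) l *
            gnh F c (k + l) (g₀ (fb nb)) (folN G (fun y => GN y (k + l)) (fb 0) kn k (k + l))
              (G kn) ω i := by
        refine Finset.sum_congr rfl fun l hl => ?_
        rw [mem_range] at hl
        rw [hgq (k + l) (by omega) (by omega)]
      rw [e4]
      exact h4)
  have hmm : 0 < m₁ * m₀ := mul_pos hm₁ hm₀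
  have hPA : Pe F.p A ≤ 32 ^ 2 * (K₁ / (m₁ * m₀)) * Pe F.p B₃ := by
    have h1 : Pe F.p A ≤ K₁ / (m₁ * m₀) * Pe F.p A' := by
      have h3 := mul_le_mul_of_nonneg_left hPA' (show 0 ≤ K₁ / (m₁ * m₀) by positivity)
      have e5 : K₁ / (m₁ * m₀) * (m₁ * m₀ / K₁ * Pe F.p A) = Pe F.p A := by
        field_simp
      rwa [e5] at h3
    have h2 : Pe F.p A' ≤ 32 ^ 2 * Pe F.p B₃ := by simpa using hPB₃
    calc Pe F.p A ≤ K₁ / (m₁ * m₀) * Pe F.p A' := h1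
      _ ≤ K₁ / (m₁ * m₀) * (32 ^ 2 * Pe F.p B₃) :=
          mul_le_mul_of_nonneg_left h2 (by positivity)
      _ = _ := by ring
  obtain ⟨K, hK⟩ : ∃ K : ℝ, K = 32 ^ 2 * (K₁ / (m₁ * m₀)) := ⟨_, rfl⟩
  have hKp : 0 < K := by rw [hK]; positivity
  rw [← hK] at hPA j3
  have hex : (K + 1) * Real.exp (-(δ₀ * J)) < 1 := by
    rw [Real.exp_neg, ← div_eq_mul_inv, div_lt_one (Real.exp_pos _)]
    rw [← Real.log_lt_iff_lt_exp (by positivity)]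
    exact j3
  have hfin' : Pe F.p B₃ ≤ Real.exp (-(δ₀ * J)) * Pe F.p A := by
    refine hfin.trans (mul_le_mul_of_nonneg_right (Real.exp_le_exp.2 ?_) hA.le)
    have := mul_le_mul_of_nonneg_right (hδm v hvf) hJ0.le
    linarith
  have h1 : Pe F.p A ≤ K * (Real.exp (-(δ₀ * J)) * Pe F.p A) :=
    hPA.trans (mul_le_mul_of_nonneg_left hfin' hKp.le)
  have h2 : K * Real.exp (-(δ₀ * J)) < 1 := by
    have := Real.exp_pos (-(δ₀ * (J : ℝ)))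
    linarith
  have h3 : K * (Real.exp (-(δ₀ * J)) * Pe F.p A) = K * Real.exp (-(δ₀ * J)) * Pe F.p A := by ring
  rw [h3] at h1
  have h4 : K * Real.exp (-(δ₀ * J)) * Pe F.p A < 1 * Pe F.p A :=
    mul_lt_mul_of_pos_right h2 hA
  linarith

end Pool.T4E
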