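import Pool.Agent.H9.GEN.Grw
import Pool.Agent.H23.D2.Bwj

/-!
# Closeness on the box of a second family of charts

`near_conv`: a polynomial which is near the chart `G₁` on the natural box of the charts `G₁` is near it
on the natural box of charts `G₂` close to them. `winb_res`: smaller events.
-/

set_option autoImplicit false

namespace Pool.T4E

open Finset Real MvPolynomial
open Pool.Agent.H49.Ent Pool.Agent.H32.Dense Pool.STK Pool.KA Pool.KSAT Pool.K2S Pool.PB Pool.S6C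
open Pool.GEN Pool.CHT Pool.CHX Pool.ISO Pool.D2R
open Pool.FRN (NBr nbr_grow)

/-- **Closeness on the box of other charts.** -/
theorem near_conv (D r : ℕ) : ∃ C : ℕ, 1 ≤ C ∧ ∀ {m : ℕ} {c : ℕ → Fin m}
    {G₁ G₂ : ℕ → MvPolynomial (Option (Fin m)) ℝ} {Q : MvPolynomial (Option (Fin m)) ℝ}
    {g₁ g₂ : ℕ → ℕ} {a l Y : ℕ} {t κ M : ℝ}, l ≤ r → Set.InjOn c (Set.Iio r) →
    (∀ j, (G₁ j).totalDegree ≤ D) → (∀ j, DepC c j (G₁ j)) → Q.totalDegree ≤ D → DepC c l Q →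
    (∀ j < l, g₁ j ≤ g₂ j + Y) → 0 ≤ M →
    (∀ j < l, ∀ b, NBx c G₂ g₂ a t j b → |eval b (G₁ j) - eval b (G₂ j)| ≤ 2 ^ Y / 2 ^ g₂ j) →
    (∀ b, NBx c G₁ g₁ a t l b → |eval b Q + κ - eval b (G₁ l)| ≤ M) →
    ∀ b, NBx c G₂ g₂ a t l b → |eval b Q + κ - eval b (G₁ l)| ≤ 2 ^ (C * (Y + 1)) * M := by
  obtain ⟨Dt, hDt⟩ : ∃ Dt : ℕ, Dt = ∑ l ∈ range (r + 1), ∑ j ∈ range (r + 1),
      D * dgp (fun _ => D) j l := ⟨_, rfl⟩
  have hdt : ∀ l ≤ r, ∀ j < l, D * dgp (fun _ => D) j l ≤ Dt := by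
    intro l hl j hj
    have h1 : D * dgp (fun _ => D) j l ≤ ∑ j ∈ range (r + 1), D * dgp (fun _ => D) j l :=
      Finset.single_le_sum (f := fun j => D * dgp (fun _ => D) j l) (fun _ _ => Nat.zero_le _)
        (mem_range.2 (by omega))
    have h2 : ∑ j ∈ range (r + 1), D * dgp (fun _ => D) j l ≤ Dt := by
      rw [hDt]
      exact Finset.single_le_sum (f := fun l => ∑ j ∈ range (r + 1), D * dgp (fun _ => D) j l)
        (fun _ _ => Nat.zero_le _) (mem_range.2 (by omega))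
    exact h1.trans h2
  obtain ⟨C₀, hC₀, hgrow⟩ := nbr_grow Dt r
  obtain ⟨n₀, hn₀⟩ := pow_unbounded_of_one_lt C₀ (one_lt_two (α := ℝ))
  refine ⟨n₀ + 2 * (r * Dt) + 1, by omega, ?_⟩
  intro m c G₁ G₂ Q g₁ g₂ a l Y t κ M hl hc hdeg hdep hQd hQp hg hM0 hcl hM b hb
  obtain ⟨R, hR⟩ : ∃ R : MvPolynomial (Option (Fin m)) ℝ, R = Q + C κ - G₁ l := ⟨_, rfl⟩
  have hev : ∀ b, eval b R = eval b Q + κ - eval b (G₁ l) := fun b => by
    rw [hR, map_sub, map_add, eval_C]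
  have hRd : R.totalDegree ≤ D := by
    rw [hR]
    refine (totalDegree_sub _ _).trans (max_le ?_ (hdeg l))
    refine (totalDegree_add _ _).trans (max_le hQd ?_)
    rw [totalDegree_C]
    exact Nat.zero_le _
  have hRp : DepC c l R := fun b b' h1 h2 => by
    rw [hev, hev, hQp b b' h1 h2, hdep l b b' h1 h2]
  have h1 := hgrow (c := c) (i := l) (K := fun _ => D) (G := G₁) (Q := R)
    (σ := fun j => 1 / 2 ^ g₁ j) (n := fun _ => 2 * Y + 1) (α := 1 / 2 ^ a) (D₀ := D) (t := t)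
    (M := M) hl (hc.mono fun y hy => by
      rw [Set.mem_Iio] at hy ⊢
      omega) hdeg hdep hRp hRd (fun j hj => hdt l hl j hj) hM0 (fun b hb => by
      rw [hev]
      exact hM b hb) b ⟨hb.1, fun j hj => by
      have h2 := hb.2 j hj
      have h3 := hcl j hj b ⟨hb.1, fun j' hj' => hb.2 j' (by omega)⟩
      have e1 : b (some (c j)) - eval b (G₁ j) = (b (some (c j)) - eval b (G₂ j)) -
        (eval b (G₁ j) - eval b (G₂ j)) := by ring
      rw [e1]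
      refine (abs_sub _ _).trans ((add_le_add h2 h3).trans ?_)
      have h4 : (2 : ℝ) ^ g₁ j ≤ 2 ^ g₂ j * 2 ^ Y := by
        rw [← pow_add]
        exact pow_le_pow_right₀ (by norm_num) (hg j hj)
      have h5 : (1 : ℝ) ≤ 2 ^ Y := one_le_pow₀ (by norm_num)
      have e2 : (2 : ℝ) ^ (2 * Y + 1) = 2 ^ Y * 2 ^ Y * 2 := by
        rw [pow_succ, two_mul, pow_add]
      show 1 / 2 ^ g₂ j + 2 ^ Y / 2 ^ g₂ j ≤ 2 ^ (2 * Y + 1) * (1 / 2 ^ g₁ j)
      rw [← add_div, mul_one_div, div_le_div_iff₀ (by positivity) (by positivity), e2]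
      calc (1 + 2 ^ Y) * (2 : ℝ) ^ g₁ j ≤ (2 ^ Y + 2 ^ Y) * (2 ^ g₂ j * 2 ^ Y) :=
            mul_le_mul (by linarith) h4 (by positivity) (by positivity)
        _ = 2 ^ Y * 2 ^ Y * 2 * 2 ^ g₂ j := by ring⟩
  rw [hev] at h1
  refine h1.trans (mul_le_mul_of_nonneg_right ?_ hM0)
  have h6 : ∑ j ∈ range l, (2 * Y + 1) * (D * dgp (fun _ => D) j l) ≤ r * ((2 * Y + 1) * Dt) := by
    refine (Finset.sum_le_sum (g := fun _ => (2 * Y + 1) * Dt) fun j hj =>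
      Nat.mul_le_mul_left _ (hdt l hl j (mem_range.1 hj))).trans ?_
    rw [Finset.sum_const, card_range, smul_eq_mul]
    exact Nat.mul_le_mul_right _ hl
  calc C₀ * 2 ^ (∑ j ∈ range l, (2 * Y + 1) * (D * dgp (fun _ => D) j l)) ≤
      2 ^ n₀ * 2 ^ (r * ((2 * Y + 1) * Dt)) := by
        refine mul_le_mul hn₀.le (pow_le_pow_right₀ (by norm_num) h6) (by positivity)
          (by positivity)
    _ = 2 ^ (n₀ + r * ((2 * Y + 1) * Dt)) := by rw [pow_add]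
    _ ≤ _ := by
        refine pow_le_pow_right₀ (by norm_num) ?_
        nlinarith [Nat.zero_le (n₀ * Y), Nat.zero_le (r * Dt), Nat.zero_le (r * Dt * Y)]

/-- Smaller events. -/
theorem winb_res {m J : ℕ} {F : Fam m J} {c : ℕ → Fin m} {r D Dr N M : ℕ}
    {C₀ a Eb ηm : ℝ} {o η σ : ℕ → ℝ} {lv b : ℕ → ℕ → ℝ} {κ : ℝ} {z : ℕ → ℕ → ℕ}
    {B : F.Ω → Prop} {g₀ : ℕ → ℕ → ℕ}
    {G : ℕ → PtT F → ℕ → MvPolynomial (Option (Fin m)) ℝ}
    {H : ℕ → LnT F → ℕ → MvPolynomial (Option (Fin m)) ℝ}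
    (W : WinB F c r D Dr N M C₀ a Eb ηm o η σ lv b κ z B g₀ G H)
    {B' : F.Ω → Prop} {κ₁ κ₂ : ℝ} (hB : Sub B' B) (hP : κ₁ * Pe F.p B ≤ Pe F.p B')
    (h2 : 0 ≤ κ₂) (hκ : κ ≤ κ₂ * κ₁) :
    WinB F c r D Dr N M C₀ a Eb ηm o η σ lv b κ₂ z B' g₀ G H where
  C1 := W.C1
  Eb0 := W.Eb0
  hη := W.hη
  hσ := W.hσ
  ho := W.ho
  hb := W.hb
  sds := W.sds
  ev := fun k hk => (W.ev k hk).sub hB hP h2 hκ
  bal := fun k hk k' hk' q hq h1 h2 ω hω => W.bal k hk k' hk' q hq h1 h2 ω (hB ω hω)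

end Pool.T4E
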