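import Pool.Agent.H17.T4.Piv2
import Pool.Agent.H17.T4.Nrc
import Pool.Agent.H5.V0T.Two

/-!
# Several targets: the class end with a ball family at every pivot

`OutL`: labels of the targets on a part of an event, and a closed combination of the gradients of
the targets on a further part. `v0t_end2`: a class whose large events have it is empty; at the pivot
`k + v` the end is run with a family of balls for the places up to `k + v`.
-/

set_option autoImplicit false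

namespace Pool.T4E

open Finset Real MvPolynomial
open Pool.Agent.H49.Ent Pool.Agent.H32.Dense Pool.STK Pool.KA Pool.KSAT Pool.K2S Pool.PB Pool.S6C
open Pool.GEN Pool.CHT Pool.CHX Pool.ISO Pool.D2R
open Pool.PB.Trl (rt)
open Pool.LBT (ThrOf)

variable {m : ℕ}

/-- **The conclusion of the class theorem**: on a part `A₁` of the event closed labels `GN` of the
targets `c k, …, c (k + f)` near the charts of the window `kw`, bounded gradients; on a part `A'` a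
closed combination of the gradients of `c k, …, c (k + v)`. -/
def OutL {J : ℕ} (F : Fam m J) (c : ℕ → Fin m) (k f D' kb kw kn : ℕ) (o : ℕ → ℝ)
    (φ ι x m₁ m₀ : ℝ) (zt s₁ : ℕ → ℝ) (Al : ℕ → Prop) (A : F.Ω → Prop) (g : ℕ → ℕ)
    (G : ℕ → PtT F → ℕ → MvPolynomial (Option (Fin m)) ℝ) : Prop :=
  ∃ (A₁ : F.Ω → Prop) (GN : PtT F → ℕ → MvPolynomial (Option (Fin m)) ℝ)
    (HN : LnT F → ℕ → MvPolynomial (Option (Fin m)) ℝ) (κN : ℕ → F.Ω → ℝ),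
    Sub A₁ A ∧ m₁ * Pe F.p A ≤ Pe F.p A₁ ∧
    (∀ l, k ≤ l → l ≤ k + f → (∀ y, (GN y l).totalDegree ≤ D') ∧
      ∀ s, (HN s l).totalDegree ≤ D') ∧
    (∀ l, k ≤ l → l ≤ k + f → (∀ y, DepC c l (GN y l)) ∧ ∀ s, DepC c l (HN s l)) ∧
    (∀ l, k ≤ l → l ≤ k + f → ∀ ω, A₁ ω → GN (ptr F J ω) l = HN (slam F ⌊o kw * J⌋₊ ω) l) ∧
    (∀ l, k ≤ l → l ≤ k + f → ∀ ω, A₁ ω → ∀ b,
      NBx c (G kw (ptr F J ω)) g ⌊o kw * J⌋₊ (F.t ω) l b →
      |eval b (GN (ptr F J ω) l) + κN l ω - eval b (G kw (ptr F J ω) l)| ≤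
        2 ^ (φ * J) / 2 ^ g l) ∧
    (∀ ω, A₁ ω → ∀ l, k ≤ l → l ≤ k + f → ∀ i < l,
      |gnh F c l g (folN G (fun y => GN y l) kb kn k l) (G kn) ω i| ≤ 2 ^ (ι * J)) ∧
    (∀ ω ν, A₁ ω → A₁ ν → ptr F J ω = ptr F J ν → ∀ l, k ≤ l → l ≤ k + f → ∀ i < k,
      |gnh F c l g (folN G (fun y => GN y l) kb kn k l) (G kn) ω i -
        gnh F c l g (folN G (fun y => GN y l) kb kn k l) (G kn) ν i| ≤ 2 ^ (-(x * J))) ∧
    ∃ (v W : ℕ) (A' : F.Ω → Prop) (la : LnT F → ℕ → ℝ) (laP : PtT F → ℕ → ℝ)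
      (mu : LnT F → ℕ → Polynomial ℝ), v ≤ f ∧ Al v ∧ ⌊o kw * J⌋₊ ≤ W ∧
      (W : ℝ) ≤ (o kw + 2 * φ) * J ∧ Sub A' A₁ ∧ m₀ * Pe F.p A₁ ≤ Pe F.p A' ∧
      (∀ ω, A' ω → ∀ l < v, |la (slam F W ω) l| ≤ 2 ^ (zt v * J)) ∧
      (∀ s i, (mu s i).natDegree ≤ D' + 1) ∧
      ∀ ω, A' ω → (∀ l < v, la (slam F W ω) l = laP (ptr F J ω) l) ∧ ∀ i < k,
        |gnh F c (k + v) g (folN G (fun y => GN y (k + v)) kb kn k (k + v)) (G kn) ω i +
          ∑ l ∈ range v, la (slam F W ω) l *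
            gnh F c (k + l) g (folN G (fun y => GN y (k + l)) kb kn k (k + l)) (G kn) ω i -
          (mu (slam F W ω) i).eval (rt F W ω)| ≤ 2 ^ (-(s₁ v * J))

theorem bas_evU {S : PCl m} {Φ : Stat m} (h : Bas S Φ) {κ : ℝ} (hκ : 0 < κ) :
    Bas S (fun J F A => ∀ B : F.Ω → Prop, Sub B A → κ * Pe F.p A ≤ Pe F.p B → Φ J F B) := by
  obtain ⟨τ, hτ, J₁, h⟩ := h
  obtain ⟨J₂, hJ₂⟩ := exists_nat_ge (-Real.log κ / (τ / 2))
  refine ⟨τ / 2, by positivity, max J₁ J₂, fun J hJ F A hA B hB hP => ?_⟩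
  refine h J ((le_max_left _ _).trans hJ) F B ?_
  have h1 := S.res (τ := τ / 2) (τ' := τ / 2) (by positivity) hA hB (by
    refine le_trans (mul_le_mul_of_nonneg_right ?_ (Pe_nonneg F.isLaw A)) hP
    have hJ' : (J₂ : ℝ) ≤ J := by exact_mod_cast (le_max_right _ _).trans hJ
    have h2 : -Real.log κ / (τ / 2) ≤ J := hJ₂.trans hJ'
    rw [div_le_iff₀ (by positivity)] at h2
    have h3 : -(τ / 2 * (J : ℝ)) ≤ Real.log κ := by linarith
    exact (Real.exp_le_exp.2 h3).trans (Real.exp_log hκ).le)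
  rwa [add_halves] at h1

/-- **The class end** for several targets. -/
theorem v0t_end2 (m D D' k f : ℕ) (hD : 1 ≤ D) (hDD : D ≤ D') : ∃ C : ℕ, 10 ≤ C ∧
    ∀ {S : PCl m} {P : ℕ → List (Fin m) × Fin m → ℝ → ℝ → ℝ}
    {θ Eb e s₁ h h₂ ζ zt : ℕ → ℝ} {c : ℕ → Fin m}
    {C₀ a' ηm ζ₀ ι x φ K₁ cT κT m₀ : ℝ} {o η σ r₀ : ℕ → ℝ} {lv : ℕ → ℕ → ℝ}
    {bb : ℕ → ℕ → ℕ → ℝ} {Dr N nb n : ℕ} {w a : ℚ} {q₁ : ℝ} {Al : ℕ → Prop}
    (zz : ℕ → ℕ → ℕ → ℕ), S.Ne → TmH S → Set.InjOn c (Set.Iio (k + f + 1)) → D ≤ Dr →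
    nb + n ≤ N → (∀ t < nb, o t ≤ o (t + 1)) → 0 < ζ₀ → C * (C₀ * ηm) ≤ ζ₀ →
    (∀ t ≤ nb, ∀ l < k, C * |lv t l - o t - (lv nb l - o nb)| ≤ ζ₀) →
    (∀ t, t = nb ∨ t = nb + n → o t + C * ζ₀ ≤ 1 ∧ (∀ l ≤ k + f, C * ζ₀ ≤ lv t l) ∧
      ∀ v ≤ f, Al v → ∀ l ≤ k + v, Eb (k + v) + lv t l + C * ζ₀ ≤ 1) →
    o nb + 2 * φ ≤ w → w ≤ o nb + ζ₀ → 0 ≤ w → w < 1 → 0 ≤ φ → φ ≤ ζ₀ → 0 ≤ ι →
    0 < K₁ → 0 < cT → 0 < κT → 0 < m₀ → Al f →
    -- the pivots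
    (∀ v ≤ f, Al v → ThrOf (chsys m (θ v)) S (P v) ∧ 0 ≤ zt v ∧
      C * (ι + zt v + ζ₀) ≤ ζ v ∧ s₁ v ≤ x ∧
      PivN (P v) (θ v) c k v C (Eb (k + v)) o lv nb (nb + n) w a q₁ (s₁ v) (h v) (h₂ v) (e v)
        (ζ v) ∧
      ∀ l ≤ v, lv (nb + n) (k + v) - lv nb (k + v) ≤ lv (nb + n) (k + l) - lv nb (k + l) + ζ₀) →
    -- the radii
    (∃ J₁ : ℕ, ∀ J ≥ J₁, (∀ t ≤ N, ∀ j ≤ 2, r₀ t * J ≤ zz J t j ∧
        zz J t j ≤ ⌊a' * J⌋₊ - ⌊o t * J⌋₊) ∧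
      (∀ t < nb + n, zz J t 0 = ⌊o (t + 1) * J⌋₊ - ⌊o t * J⌋₊) ∧ (zz J nb 1 : ℝ) ≤ q₁ * J ∧
      2 * φ * J + 1 ≤ zz J nb 1 ∧ ⌊o nb * J⌋₊ + zz J nb 2 ≤ ⌊(a : ℝ) * J⌋₊ ∧
      (a : ℝ) * J ≤ ⌊o nb * J⌋₊ + zz J nb 2 + ζ₀ * J + 2) →
    -- the windows
    (∀ v ≤ f, Al v → ∀ κ : ℝ, 0 < κ → Bas S (fun J F A => ∀ z : ℕ → ℕ → ℕ,
      (∀ t ≤ N, ∀ j ≤ 2, r₀ t * J ≤ z t j ∧ z t j ≤ ⌊a' * J⌋₊ - ⌊o t * J⌋₊) →
      ∃ (B : F.Ω → Prop) (g₀ : ℕ → ℕ → ℕ) (G : ℕ → PtT F → ℕ → MvPolynomial (Option (Fin m)) ℝ)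
        (H : ℕ → LnT F → ℕ → MvPolynomial (Option (Fin m)) ℝ), Sub B A ∧
        Pe F.p A ≤ K₁ * Pe F.p B ∧
        WinB F c (k + v) D Dr N 2 C₀ a' (Eb (k + v)) ηm o η σ lv (bb v) κ z B g₀ G H)) →
    -- the class theorem
    Bas S (fun J F A => ∀ {κ : ℝ} {g₀ : ℕ → ℕ → ℕ}
      {Gc : ℕ → PtT F → ℕ → MvPolynomial (Option (Fin m)) ℝ}
      {H : ℕ → LnT F → ℕ → MvPolynomial (Option (Fin m)) ℝ}, κ ≤ κT →
      WinB F c (k + f) D Dr N 2 C₀ a' (Eb (k + f)) ηm o η σ lv (bb f) κ (zz J) A g₀ Gc H →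
      OutL F c k f D' 0 nb (nb + n) o φ ι x cT m₀ zt s₁ Al A (g₀ nb) Gc) →
    False := by
  have hpiv := fun u : ℕ => fun huf : u ≤ f => piv_end2 m D D' k f u hD hDD huf
  choose! Cp hCp hpiv using hpiv
  have hro := fun v : ℕ => winb_rout m D (k + v) hD
  choose Cr hCr hro using hro
  obtain ⟨Cn, hCn, hnear⟩ := v0_near D k
  obtain ⟨Cc, hCc, hconv⟩ := near_conv D' (k + f)
  obtain ⟨C₅, hC₅, htwo⟩ := Pool.V0T.winb_twos (k + f)
  obtain ⟨C, hC⟩ : ∃ C : ℕ, C = (∑ u ∈ range (f + 1), Cp u) + (∑ u ∈ range (f + 1), Cr u) +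
      4 * Cn + 4 * Cc * C₅ + 10 := ⟨_, rfl⟩
  have hCpC : ∀ u ≤ f, Cp u ≤ C := by
    intro u hu
    have h1 : Cp u ≤ ∑ u ∈ range (f + 1), Cp u :=
      Finset.single_le_sum (f := Cp) (fun _ _ => Nat.zero_le _) (mem_range.2 (by omega))
    omega
  have hCrC : ∀ u ≤ f, (Cr u : ℝ) ≤ C := by
    intro u hu
    have h1 : Cr u ≤ ∑ u ∈ range (f + 1), Cr u :=
      Finset.single_le_sum (f := Cr) (fun _ _ => Nat.zero_le _) (mem_range.2 (by omega))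
    have h2 : Cr u ≤ C := by omega
    exact_mod_cast h2
  have hCr1 : ∀ u, (1 : ℝ) ≤ Cr u := fun u => by exact_mod_cast hCr u
  have hCn1 : (1 : ℝ) ≤ Cn := by exact_mod_cast hCn
  have hCc1 : (1 : ℝ) ≤ Cc := by exact_mod_cast hCc
  have hC51 : (1 : ℝ) ≤ C₅ := by exact_mod_cast hC₅
  have hCnC : 4 * (Cn : ℝ) ≤ C := by
    have : 4 * Cn ≤ C := by omega
    exact_mod_cast this
  have hC5C : 4 * (Cc : ℝ) * C₅ ≤ C := by
    have : 4 * Cc * C₅ ≤ C := by omega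
    exact_mod_cast this
  have hC10 : (10 : ℝ) ≤ C := by
    have : 10 ≤ C := by omega
    exact_mod_cast this
  refine ⟨C, by omega, ?_⟩
  intro S P θ Eb e s₁ h h₂ ζ zt c C₀ a' ηm ζ₀ ι x φ K₁ cT κT m₀ o η σ r₀ lv bb Dr N nb n w a q₁ Al zz
    hne hT hc hDr hN hmo hζ₀ hCη hsl hroom hφw w2 w3 w6 hφ0 hφζ hι hK₁ hcT hκT hm₀ hAf hpn hzz hwin hV
  have hCζ : ζ₀ ≤ C * ζ₀ := le_mul_of_one_le_left hζ₀.le (by linarith)
  -- the exponent of the constants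
  have hCη' : ∀ x : ℝ, 1 ≤ x → x ≤ C → x * (C₀ * ηm) ≤ ζ₀ := by
    intro x h1 h2
    rcases le_or_gt (C₀ * ηm) 0 with h4 | h4
    · have : x * (C₀ * ηm) ≤ 0 := mul_nonpos_of_nonneg_of_nonpos (by linarith) h4
      linarith
    · exact (mul_le_mul_of_nonneg_right h2 h4.le).trans hCη
  have hCη1 : C₀ * ηm ≤ ζ₀ := by
    have := hCη' 1 le_rfl (by linarith)
    rwa [one_mul] at this
  -- the numbers with the constants of the pivots
  have hζ : ∀ v ≤ f, Al v → 0 < ζ v ∧ 10 * ζ₀ ≤ ζ v := by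
    intro v hv hav
    obtain ⟨-, h1, h2, -⟩ := hpn v hv hav
    have h3 : 10 * ζ₀ ≤ C * (ι + zt v + ζ₀) := by nlinarith
    exact ⟨by linarith, by linarith⟩
  have hpvN : ∀ v ≤ f, Al v → PivN (P v) (θ v) c k v (Cp v) (Eb (k + v)) o lv nb (nb + n) w a q₁
      (s₁ v) (h v) (h₂ v) (e v) (ζ v) := by
    intro v hv hav
    obtain ⟨-, -, -, -, p1, -⟩ := hpn v hv hav
    have h1 : (Cp v : ℝ) * ζ v ≤ C * ζ v := by
      refine mul_le_mul_of_nonneg_right ?_ (hζ v hv hav).1.le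
      exact_mod_cast hCpC v hv
    exact { p1 with
      hE := by linarith [p1.hE]
      g1 := by linarith [p1.g1]
      g2 := by linarith [p1.g2]
      g3 := by linarith [p1.g3]
      g4 := by linarith [p1.g4]
      g5 := fun l hl => by linarith [p1.g5 l hl]
      g6 := fun l hl => by linarith [p1.g6 l hl] }
  -- the ends
  have hends := fun v : ℕ => fun hv : v ≤ f => fun hav : Al v =>
    hpiv v hv (S := S) (P := P v) (θ := θ v) (c := c) (C₀ := C₀) (a' := a')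
      (Eb := Eb (k + v)) (ηm := ηm) (ζ₀ := ζ₀) (ζ := ζ v) (ι := ι) (zt := zt v) (x := x) (o := o)
      (η := η) (σ := σ) (lv := lv) (Dr := Dr) (N := N) (M := 2) (kb := 0) (kw := nb)
      (kn := nb + n) (nv := nb + n) (w := w) (a := a) (q₁ := q₁) (s₁ := s₁ v) (h := h v)
      (h₂ := h₂ v) (e := e v) (hpn v hv hav).1 hT hc (Nat.zero_le _) (by omega) hN hN
      (by linarith) w2 w3 w6 hζ₀ hCη1 hι (hpn v hv hav).2.1 (by
        refine le_trans (mul_le_mul_of_nonneg_right ?_ ?_) (hpn v hv hav).2.2.1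
        · exact_mod_cast hCpC v hv
        · have := (hpn v hv hav).2.1
          linarith) (hpvN v hv hav) (hpn v hv hav).2.2.2.1 (fun l hl => by
        have := (hpn v hv hav).2.2.2.2.2 l hl
        linarith)
  choose! δ hδ hends using hends
  -- the smallest exponent
  obtain ⟨δ₀, hδ₀, hδm⟩ : ∃ δ₀ : ℝ, 0 < δ₀ ∧ ∀ v ≤ f, Al v → δ₀ ≤ δ v := by
    classical
    refine ⟨(range (f + 1)).inf' ⟨0, mem_range.2 (by omega)⟩ (fun v => if Al v ∧ v ≤ f then δ v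
      else 1), ?_, fun v hv hav => ?_⟩
    · rw [Finset.lt_inf'_iff]
      intro v _
      split_ifs with h1
      · exact hδ v h1.2 h1.1
      · exact one_pos
    · refine (Finset.inf'_le _ (mem_range.2 (by omega : v < f + 1))).trans ?_
      rw [if_pos ⟨hav, hv⟩]
  -- the masses
  obtain ⟨mm, hmm⟩ : ∃ mm : ℝ, mm = cT * m₀ := ⟨_, rfl⟩
  have hmm0 : 0 < mm := by rw [hmm]; positivity
  -- the outputs of the balls
  have hζr : ∀ v, 0 < ζ₀ / Cr v ∧ Cr v * (ζ₀ / Cr v) = ζ₀ := by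
    intro v
    have h1 := hCr1 v
    exact ⟨by positivity, by field_simp⟩
  have hroC : ∀ v ≤ f, C₀ * ηm ≤ ζ₀ / Cr v := by
    intro v hv
    have h1 := hCr1 v
    rw [le_div_iff₀ (by positivity), mul_comm]
    exact hCη' _ h1 (hCrC v hv)
  have hroomr : ∀ v ≤ f, Al v → ∀ t, t = nb ∨ t = nb + n → t ≤ N ∧
      o t + Cr v * (ζ₀ / Cr v) ≤ 1 ∧ ∀ l ≤ k + v, Cr v * (ζ₀ / Cr v) ≤ lv t l ∧
        Eb (k + v) + lv t l + Cr v * (ζ₀ / Cr v) ≤ 1 := by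
    intro v hv hav t ht
    rw [(hζr v).2]
    obtain ⟨a1, a2, a3⟩ := hroom t ht
    refine ⟨by rcases ht with rfl | rfl <;> omega, by linarith, fun l hl => ⟨?_, ?_⟩⟩
    · linarith [a2 l (by omega)]
    · linarith [a3 v hv hav l hl]
  obtain ⟨κ₁, hκ₁, hro1⟩ := hro f (S := S) (c := c) (C₀ := C₀) (a := a') (Eb := Eb (k + f))
    (ηm := ηm) (ζ := ζ₀ / Cr f) (κ₀ := mm / (2 * K₁ ^ 2)) (o := o) (η := η) (σ := σ) (lv := lv)
    (Dr := Dr) (N := N) (M := 2) [nb + n] hT hc hDr (hζr f).1 (by positivity) (hroC f le_rfl)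
    (fun t ht => hroomr f le_rfl hAf t (Or.inr (by simpa using ht)))
  have hro2 := fun v : ℕ => fun hv : v ≤ f => fun hav : Al v =>
    hro v (S := S) (c := c) (C₀ := C₀) (a := a') (Eb := Eb (k + v))
      (ηm := ηm) (ζ := ζ₀ / Cr v) (κ₀ := mm / (64 * K₁ ^ 2)) (o := o) (η := η) (σ := σ) (lv := lv)
      (Dr := Dr) (N := N) (M := 2) [nb] hT (hc.mono fun y hy => by
        rw [Set.mem_Iio] at hy ⊢
        omega) hDr (hζr v).1 (by positivity) (hroC v hv)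
      (fun t ht => hroomr v hv hav t (Or.inl (by simpa using ht)))
  choose! κ₂ hκ₂ hro2 using hro2
  obtain ⟨κA, hκA⟩ : ∃ κA : ℝ, κA = min (min κ₁ κT) (mm / (2 * C₅ * K₁)) := ⟨_, rfl⟩
  have hκA0 : 0 < κA := by rw [hκA]; exact lt_min (lt_min hκ₁ hκT) (by positivity)
  have hκA1 : κA ≤ κ₁ := by rw [hκA]; exact (min_le_left _ _).trans (min_le_left _ _)
  have hκA2 : κA ≤ κT := by rw [hκA]; exact (min_le_left _ _).trans (min_le_right _ _)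
  obtain ⟨κB, hκB⟩ : ∃ κB : ℕ → ℝ, κB = fun v => min (κ₂ v) (1 / (2 * C₅)) := ⟨_, rfl⟩
  have hκB0 : ∀ v ≤ f, Al v → 0 < κB v := fun v hv hav => by
    rw [hκB]
    exact lt_min (hκ₂ v hv hav) (by positivity)
  have hall1 := Bas.all (S := S) (f + 1) (Φ := fun v J F A => Al v → _) fun v hv => by
    by_cases hav : Al v
    · exact Bas.mono 0 (hends v (by omega) hav) fun J _ F A h1 _ => h1
    · exact ⟨1, one_pos, 0, fun J _ F A _ h1 => absurd h1 hav⟩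
  have hall2 := Bas.all (S := S) (f + 1) (Φ := fun v J F A => Al v → _) fun v hv => by
    by_cases hav : Al v
    · exact Bas.mono 0 (hro2 v (by omega) hav) fun J _ F A h1 _ => h1
    · exact ⟨1, one_pos, 0, fun J _ F A _ h1 => absurd h1 hav⟩
  have hall3 := Bas.all (S := S) (f + 1) (Φ := fun v J F A => Al v → _) fun v hv => by
    by_cases hav : Al v
    · exact Bas.mono 0 (bas_evU (hwin v (by omega) hav (κB v) (hκB0 v (by omega) hav))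
        (κ := mm / K₁) (by positivity)) fun J _ F A h1 _ => h1
    · exact ⟨1, one_pos, 0, fun J _ F A _ h1 => absurd h1 hav⟩
  have hV' := bas_evU hV (κ := 1 / K₁) (by positivity)
  obtain ⟨J₁, hzz⟩ := hzz
  -- the closeness
  obtain ⟨ηq, hηq⟩ : ∃ ηq : ℝ, ηq = ζ₀ / (4 * Cc * C₅) := ⟨_, rfl⟩
  have hηq0 : 0 < ηq := by rw [hηq]; positivity
  have hηq1 : C₅ * ηq * (4 * Cc) = ζ₀ := by rw [hηq]; field_simp
  obtain ⟨J₂, hJ₂⟩ := exists_nat_gt (max (((nb : ℝ) + 4) / (ζ₀ / (2 * Cn)))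
    (max ((4 * Cc + 10) / ζ₀) (max (1 / ηq)
      (Real.log (32 ^ 2 * (2 * K₁ ^ 2 / mm) + 1) / δ₀))))
  refine Pool.LBT.bas_false hne (Φ := fun _ _ _ => False) ?_ ⟨1, one_pos, 0,
    fun _ _ _ _ _ h => h⟩
  refine Bas.mono (max (max J₁ J₂) 1) (((hwin f le_rfl hAf κA hκA0).and hV').and
    (hro1.and ((hall1.and (hall2.and hall3)).and
    (show Bas S (fun J F A => 0 < Pe F.p A) from
      ⟨1, one_pos, 0, fun J _ F A h1 => hT.1 1 J F A h1⟩)))) ?_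
  rintro J hJ F A ⟨⟨b1, b3⟩, b4, ⟨b5, b7, b6⟩, hA⟩
  have hJ1 : J₁ ≤ J := (le_max_left _ _).trans ((le_max_left _ _).trans hJ)
  have hJ2 : J₂ ≤ J := (le_max_right _ _).trans ((le_max_left _ _).trans hJ)
  have hJ3 : 1 ≤ J := (le_max_right _ _).trans hJ
  have hJ0 : (0 : ℝ) < J := by exact_mod_cast hJ3
  have hJ2R : (J₂ : ℝ) ≤ J := by exact_mod_cast hJ2
  have hp := Pe_nonneg F.isLaw
  have hK0 : 0 < K₁ := hK₁
  obtain ⟨z1, z2, z4, z5, z6, z7⟩ := hzz J hJ1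
  have j1 : ((nb : ℝ) + 4) ≤ ζ₀ / (2 * Cn) * J := by
    have h1 := ((le_max_left _ _).trans_lt hJ₂).le.trans hJ2R
    rw [div_le_iff₀ (show 0 < ζ₀ / (2 * Cn) by positivity)] at h1
    linarith
  have j2 : 4 * Cc + 10 ≤ ζ₀ * J := by
    have h1 := (((le_max_left _ _).trans (le_max_right _ _)).trans_lt hJ₂).le.trans hJ2R
    rw [div_le_iff₀ hζ₀] at h1
    linarith
  have j4 : 1 ≤ ηq * J := by
    have h1 := (((le_max_left _ _).trans ((le_max_right _ _).trans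
      (le_max_right _ _))).trans_lt hJ₂).le.trans hJ2R
    rw [div_le_iff₀ hηq0] at h1
    linarith
  have j3 : Real.log (32 ^ 2 * (2 * K₁ ^ 2 / mm) + 1) < δ₀ * J := by
    have h1 := (((le_max_right _ _).trans ((le_max_right _ _).trans
      (le_max_right _ _))).trans_lt hJ₂).trans_le hJ2R
    rw [div_lt_iff₀ hδ₀] at h1
    linarith
  -- the events
  obtain ⟨B₀, g₀, G, H, hB₀, hPB₀, W⟩ := b1 (zz J) z1
  have hPB₀' : 1 / K₁ * Pe F.p A ≤ Pe F.p B₀ := by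
    rw [one_div, inv_mul_le_iff₀ hK0]
    exact hPB₀
  obtain ⟨A₁, GN, HN, κN, n1, n2, n3, n4, n5, n6, n7, n8, v, Wn, A', la, laP, mu, hvf, hav, m1,
    m2, m3, m4, m5, m6, m7⟩ := b3 B₀ hB₀ hPB₀' hκA2 W
  have hA'₀ : Sub A' B₀ := fun ω hω => n1 ω (m3 ω hω)
  have hPA'₀ : mm * Pe F.p B₀ ≤ Pe F.p A' := by
    calc mm * Pe F.p B₀ = m₀ * (cT * Pe F.p B₀) := by rw [hmm]; ring
      _ ≤ m₀ * Pe F.p A₁ := mul_le_mul_of_nonneg_left n2 hm₀.le
      _ ≤ _ := m4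
  have hPA' : mm / K₁ * Pe F.p A ≤ Pe F.p A' := by
    calc mm / K₁ * Pe F.p A = mm * (1 / K₁ * Pe F.p A) := by ring
      _ ≤ mm * Pe F.p B₀ := mul_le_mul_of_nonneg_left hPB₀' hmm0.le
      _ ≤ _ := hPA'₀
  obtain ⟨B₂, g₂, G₂, H₂, hB₂, hPB₂, W₂⟩ := b6 v (by omega) hav A'
    (fun ω hω => hB₀ ω (hA'₀ ω hω)) hPA' (zz J) z1
  have hB₂₀ : Sub B₂ B₀ := fun ω hω => hA'₀ ω (hB₂ ω hω)
  have hB₂A : Sub B₂ A := fun ω hω => hB₀ ω (hB₂₀ ω hω)
  have hPB₂₀ : mm / K₁ * Pe F.p B₀ ≤ Pe F.p B₂ := by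
    have h1 : Pe F.p A' ≤ K₁ * Pe F.p B₂ := hPB₂
    have h2 := hPA'₀.trans h1
    rw [div_mul_eq_mul_div, div_le_iff₀ hK0, mul_comm (Pe F.p B₂)]
    exact h2
  have W₁ : WinB F c (k + f) D Dr N 2 C₀ a' (Eb (k + f)) ηm o η σ lv (bb f) (1 / (2 * C₅)) (zz J)
      B₂ g₀ G H := winb_res W hB₂₀ hPB₂₀ (by positivity) (by
    have h1 : κA ≤ mm / (2 * C₅ * K₁) := by rw [hκA]; exact min_le_right _ _
    refine h1.trans (le_of_eq ?_)
    field_simp)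
  -- the two families
  have hηm0 : 0 ≤ ηm := (W.hη 0 (Nat.zero_le _)).1.trans (W.hη 0 (Nat.zero_le _)).2
  have hηmq : ηm ≤ ηq := by
    have h1 : 4 * Cc * C₅ * (C₀ * ηm) ≤ ζ₀ := hCη' _ (by nlinarith) hC5C
    have h2 : ηm ≤ C₀ * ηm := le_mul_of_one_le_left hηm0 W.C1
    rw [hηq, le_div_iff₀ (by positivity)]
    nlinarith
  obtain ⟨B₃, hB₃, hPB₃, hcl⟩ := htwo W₁ W₂ (r₂ := k + v) (by omega) le_rfl hDr hDr hDr hDr hc
    (κ := 1 / (2 * C₅)) (by positivity) le_rfl (by rw [hκB]; exact min_le_right _ _) hηmq hηmq j4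
    (n := 1) (k₁ := fun _ => nb) (k₂ := fun _ => nb)
    (fun i _ => ⟨by omega, by omega, rfl, fun _ _ => rfl⟩)
  have hPB₃' : 1 / 2 * Pe F.p B₂ ≤ Pe F.p B₃ := by
    refine le_trans (mul_le_mul_of_nonneg_right (le_of_eq ?_) (hp _)) hPB₃
    push_cast
    field_simp
    norm_num
  have hPB₂A : mm / K₁ ^ 2 * Pe F.p A ≤ Pe F.p B₂ := by
    calc mm / K₁ ^ 2 * Pe F.p A = mm / K₁ * (1 / K₁ * Pe F.p A) := by field_simp
      _ ≤ mm / K₁ * Pe F.p B₀ := mul_le_mul_of_nonneg_left hPB₀' (by positivity)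
      _ ≤ _ := hPB₂₀
  have hPB₃A : mm / (2 * K₁ ^ 2) * Pe F.p A ≤ Pe F.p B₃ := by
    have h1 : mm / (2 * K₁ ^ 2) * Pe F.p A = 1 / 2 * (mm / K₁ ^ 2 * Pe F.p A) := by field_simp
    rw [h1]
    exact (mul_le_mul_of_nonneg_left hPB₂A (by norm_num)).trans hPB₃'
  obtain ⟨B₄, hB₄, hPB₄, hout1⟩ := b4 (zz J) κA (bb f) B₀ g₀ G H B₃ W hκA1 hB₀ (fun ω hω => hB₂₀ ω (hB₃ ω hω)) hPB₃A
  have hPB₄' : Pe F.p B₃ ≤ 32 * Pe F.p B₄ := by simpa using hPB₄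
  have hPB₄A : mm / (64 * K₁ ^ 2) * Pe F.p A ≤ Pe F.p B₄ := by
    have h1 : mm / (64 * K₁ ^ 2) * Pe F.p A = mm / (2 * K₁ ^ 2) * Pe F.p A / 32 := by
      field_simp
      norm_num
    rw [h1]
    linarith
  obtain ⟨B₅, hB₅, hPB₅, hout2⟩ := b7 v (by omega) hav (zz J) (κB v) (bb v) B₂ g₂ G₂ H₂ B₄ W₂ (by
    rw [hκB]; exact min_le_left _ _) hB₂A (fun ω hω => hB₃ ω (hB₄ ω hω)) hPB₄A
  have hPB₅' : Pe F.p B₄ ≤ 32 * Pe F.p B₅ := by simpa using hPB₅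
  have hB₅₃ : Sub B₅ B₃ := fun ω hω => hB₄ ω (hB₅ ω hω)
  have hB₅₂ : Sub B₅ B₂ := fun ω hω => hB₃ ω (hB₅₃ ω hω)
  have hB₅A' : Sub B₅ A' := fun ω hω => hB₂ ω (hB₅₂ ω hω)
  have hB₅₁ : Sub B₅ A₁ := fun ω hω => m3 ω (hB₅A' ω hω)
  have hB₅₀ : Sub B₅ B₀ := fun ω hω => hB₂₀ ω (hB₅₂ ω hω)
  rw [(hζr f).2] at hout1
  rw [(hζr v).2] at hout2
  obtain ⟨hζv0, hζv⟩ := hζ v hvf hav
  obtain ⟨-, p4, p5, p6, p7, p8⟩ := hpn v hvf hav
  -- the windows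
  have hfl1 : ⌊o 0 * J⌋₊ ≤ ⌊o nb * J⌋₊ := by
    refine Nat.floor_le_floor (mul_le_mul_of_nonneg_right ?_ hJ0.le)
    have h1 : ∀ t ≤ nb, o 0 ≤ o t := by
      intro t
      induction t with
      | zero => intro _; exact le_rfl
      | succ t ih => intro ht; exact (ih (by omega)).trans (hmo t (by omega))
    exact h1 nb le_rfl
  have hWw : Wn ≤ ⌊(w : ℝ) * J⌋₊ := by
    refine Nat.le_floor (m2.trans (mul_le_mul_of_nonneg_right hφw hJ0.le))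
  have hWq : Wn ≤ ⌊o nb * J⌋₊ + zz J nb 1 := by
    have h1 := (Nat.lt_floor_add_one (o nb * (J : ℝ))).le
    have h2 : (Wn : ℝ) ≤ ((⌊o nb * J⌋₊ + zz J nb 1 : ℕ) : ℝ) := by
      push_cast
      nlinarith
    exact_mod_cast h2
  -- the charts of the slope-one places are near
  obtain ⟨Y, hY⟩ : ∃ Y : ℕ, Y = ⌊ζ₀ / Cn * J⌋₊ := ⟨_, rfl⟩
  have e2 : ζ₀ / Cn * J = 2 * (ζ₀ / (2 * Cn) * J) := by
    field_simp
  have hn0 : (0 : ℝ) ≤ nb := Nat.cast_nonneg nb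
  have hYR : ζ₀ / (2 * Cn) * J ≤ Y := by
    have h4 := (Nat.lt_floor_add_one (ζ₀ / Cn * (J : ℝ))).le
    rw [← hY, e2] at h4
    linarith
  have hYle : Cn * (Y : ℝ) ≤ ζ₀ * J := by
    have h4 : (Y : ℝ) ≤ ζ₀ / Cn * J := by
      rw [hY]
      exact Nat.floor_le (by positivity)
    calc Cn * (Y : ℝ) ≤ Cn * (ζ₀ / Cn * J) := mul_le_mul_of_nonneg_left h4 (by linarith)
      _ = ζ₀ * J := by field_simp
  have hlin : ∀ x : ℝ, 2 * Cn * x ≤ ζ₀ → x * J ≤ Y := fun x hx => by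
    refine le_trans (mul_le_mul_of_nonneg_right ?_ hJ0.le) hYR
    rw [le_div_iff₀ (by positivity)]
    linarith
  obtain ⟨κQ, hκQ0, hκQ⟩ := hnear W (fb := fun t => t) (jb := fun _ => 0) (nb := nb) (Y := Y) hc
    (Nat.le_add_right k f) (fun t ht => by omega)
    (fun t ht => ⟨by omega, z2 t (by omega), hmo t ht⟩) (by
      have := hlin (C₀ * ηm) (hCη' _ (by linarith) (by linarith))
      rw [mul_assoc] at this
      exact this) (by
      have h4 : (3 : ℝ) ≤ Y := by linarith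
      exact_mod_cast h4) (by
      have h4 : (nb : ℝ) ≤ Y := by linarith
      exact h4.trans (by exact_mod_cast Nat.lt_two_pow_self.le))
    (fun t ht l hl => by
      have h4 := hsl t ht l hl
      have h5 : 2 * Cn * |lv t l - o t - (lv nb l - o nb)| ≤ ζ₀ :=
        (mul_le_mul_of_nonneg_right (by linarith) (abs_nonneg _)).trans h4
      have h6 := hlin _ h5
      have h7 := mul_le_mul_of_nonneg_right
        (le_abs_self (lv t l - o t - (lv nb l - o nb))) hJ0.le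
      have h8 := mul_le_mul_of_nonneg_right
        (neg_le_abs (lv t l - o t - (lv nb l - o nb))) hJ0.le
      constructor
      · linarith
      · have h9 : lv nb l - o nb - (lv t l - o t) = -(lv t l - o t - (lv nb l - o nb)) := by ring
        rw [h9]
        linarith)
  -- all closeness in the first family
  obtain ⟨κT, hκT⟩ : ∃ κT : F.Ω → ℕ → ℝ, κT = fun ω l => if l < k then κQ ω l else κN l ω :=
    ⟨_, rfl⟩
  have hn1 : ∀ ω, B₅ ω → ∀ l ≤ k + v, ∀ b,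
      NBx c (G nb (ptr F J ω)) (g₀ nb) ⌊o nb * J⌋₊ (F.t ω) l b →
      |eval b (frQ G GN 0 k f (ptr F J ω) l) + κT ω l - eval b (G nb (ptr F J ω) l)| ≤
        2 ^ (⌊ζ₀ * J⌋₊ + 1) / 2 ^ g₀ nb l := by
    intro ω hω l hl b hb
    rw [hκT]
    by_cases hlk : l < k
    · simp only [if_pos hlk]
      have h4 := hκQ ω (hB₅₀ ω hω) l hlk.le b hb
      rw [hyb_lo G hlk] at h4
      have e4 : frQ G GN 0 k f (ptr F J ω) l = G 0 (ptr F J ω) l := if_pos hlk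
      rw [e4]
      refine h4.trans (div_le_div_of_nonneg_right (pow_le_pow_right₀ (by norm_num) ?_)
        (by positivity))
      exact (Nat.le_floor (by push_cast; exact hYle)).trans (Nat.le_succ _)
    · simp only [if_neg hlk]
      have h4 := n6 l (by omega) (by omega) ω (hB₅₁ ω hω) b hb
      have e4 : frQ G GN 0 k f (ptr F J ω) l = GN (ptr F J ω) l := by
        unfold frQ
        rw [if_neg hlk, if_pos (by omega)]
      rw [e4]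
      refine h4.trans (div_le_div_of_nonneg_right ?_ (by positivity))
      rw [← Real.rpow_natCast]
      refine Real.rpow_le_rpow_of_exponent_le one_le_two ?_
      push_cast
      have h5 := (Nat.lt_floor_add_one (ζ₀ * (J : ℝ))).le
      have h6 := mul_le_mul_of_nonneg_right hφζ hJ0.le
      linarith
  -- closeness in the second family
  obtain ⟨Z, hZ⟩ : ∃ Z : ℕ, Z = ⌊C₅ * (ηq * J)⌋₊ + 1 := ⟨_, rfl⟩
  have hZ1 : C₅ * (ηq * J) ≤ Z := by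
    rw [hZ]
    push_cast
    exact (Nat.lt_floor_add_one _).le
  have hZ2 : (Z : ℝ) ≤ C₅ * (ηq * J) + 1 := by
    rw [hZ]
    push_cast
    have := Nat.floor_le (show 0 ≤ C₅ * (ηq * J) by positivity)
    linarith
  have hZ3 : ηm * J ≤ Z := by
    refine le_trans ?_ hZ1
    have h1 : ηm * J ≤ ηq * J := mul_le_mul_of_nonneg_right hηmq hJ0.le
    have h2 : ηq * J ≤ C₅ * (ηq * J) := le_mul_of_one_le_left (by positivity) hC51
    linarith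
  have hg12 : ∀ l ≤ k + v, g₀ nb l ≤ g₂ nb l + Z ∧ g₂ nb l ≤ g₀ nb l + Z := by
    intro l hl
    obtain ⟨t1, t2⟩ := W.sds nb (by omega) l (by omega)
    obtain ⟨t3, t4⟩ := W₂.sds nb (by omega) l hl
    have t5 := mul_le_mul_of_nonneg_right (W.hσ nb (by omega)).2 hJ0.le
    constructor
    · have h1 : (g₀ nb l : ℝ) ≤ ((g₂ nb l + Z : ℕ) : ℝ) := by
        push_cast
        linarith
      exact_mod_cast h1
    · have h1 : (g₂ nb l : ℝ) ≤ ((g₀ nb l + Z : ℕ) : ℝ) := by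
        push_cast
        linarith
      exact_mod_cast h1
  have hZζ : Cc * ((Z : ℝ) + 1) ≤ ζ₀ * J ∧ (Z : ℝ) ≤ ζ₀ * J := by
    have h1 : C₅ * (ηq * J) * (4 * Cc) = ζ₀ * J := by rw [← hηq1]; ring
    have h3 : 0 < C₅ * (ηq * J) := by positivity
    constructor
    · nlinarith
    · nlinarith
  have hn2 : ∀ ω, B₅ ω → ∀ l ≤ k + v, ∀ b,
      NBx c (G₂ nb (ptr F J ω)) (g₂ nb) ⌊o nb * J⌋₊ (F.t ω) l b →
      |eval b (frQ G GN 0 k f (ptr F J ω) l) + κT ω l - eval b (G₂ nb (ptr F J ω) l)| ≤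
        2 ^ ⌊ζ v * J⌋₊ / 2 ^ g₂ nb l := by
    intro ω hω l hl b hb
    have hc2 := fun l' (hl' : l' ≤ k + v) => (hcl ω (hB₅₃ ω hω) 0 one_pos l' hl').1
    have hdegQ : (frQ G GN 0 k f (ptr F J ω) l).totalDegree ≤ D' := by
      unfold frQ
      split_ifs with h1 h2
      · exact ((W.ev 0 (by omega)).ball.degG _ l).trans hDD
      · exact (n3 l (by omega) h2).1 _
      · rw [MvPolynomial.totalDegree_zero]
        exact Nat.zero_le _
    have hdepQ : DepC c l (frQ G GN 0 k f (ptr F J ω) l) := by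
      unfold frQ
      split_ifs with h1 h2
      · exact (W.ev 0 (by omega)).ball.depG _ l
      · exact (n4 l (by omega) h2).1 _
      · exact fun b b' _ _ => by rw [map_zero, map_zero]
    have h1 := hconv (c := c) (G₁ := G nb (ptr F J ω)) (G₂ := G₂ nb (ptr F J ω))
      (Q := frQ G GN 0 k f (ptr F J ω) l) (g₁ := g₀ nb) (g₂ := g₂ nb) (a := ⌊o nb * J⌋₊)
      (l := l) (Y := Z) (t := F.t ω) (κ := κT ω l) (M := 2 ^ (⌊ζ₀ * J⌋₊ + 1) / 2 ^ g₀ nb l)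
      (by omega) (hc.mono fun y hy => by
        rw [Set.mem_Iio] at hy ⊢
        omega) (fun j => ((W.ev nb (by omega)).ball.degG _ j).trans hDD)
      (fun j => (W.ev nb (by omega)).ball.depG _ j) hdegQ hdepQ
      (fun j hj => (hg12 j (by omega)).1) (by positivity)
      (fun j hj b' hb' => (hc2 j (by omega) b' hb').trans (div_le_div_of_nonneg_right
        (pow_le_pow_right₀ (by norm_num) (by rw [hZ]; omega)) (by positivity)))
      (hn1 ω hω l hl) b hb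
    have h2 := hc2 l hl b hb
    have e1 : eval b (frQ G GN 0 k f (ptr F J ω) l) + κT ω l - eval b (G₂ nb (ptr F J ω) l) =
        (eval b (frQ G GN 0 k f (ptr F J ω) l) + κT ω l - eval b (G nb (ptr F J ω) l)) +
        (eval b (G nb (ptr F J ω) l) - eval b (G₂ nb (ptr F J ω) l)) := by ring
    rw [e1]
    refine (abs_add_le _ _).trans ((add_le_add h1 h2).trans ?_)
    have h3 : (2 : ℝ) ^ (⌊ζ₀ * J⌋₊ + 1) / 2 ^ g₀ nb l ≤ 2 ^ (⌊ζ₀ * J⌋₊ + 1 + Z) / 2 ^ g₂ nb l := by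
      rw [div_le_div_iff₀ (by positivity) (by positivity), ← pow_add, ← pow_add]
      refine pow_le_pow_right₀ (by norm_num) ?_
      have := (hg12 l hl).2
      omega
    have h4 : (2 : ℝ) ^ ⌊C₅ * (ηq * J)⌋₊ ≤ 2 ^ Z :=
      pow_le_pow_right₀ (by norm_num) (by rw [hZ]; omega)
    have h5 : Cc * (Z + 1) + (⌊ζ₀ * J⌋₊ + 1 + Z) + 1 ≤ ⌊ζ v * J⌋₊ := by
      have h6 := (Nat.floor_le (show 0 ≤ ζ₀ * (J : ℝ) by positivity))
      have h7 := mul_le_mul_of_nonneg_right hζv hJ0.le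
      refine Nat.le_floor ?_
      push_cast
      linarith [hZζ.1, hZζ.2]
    calc (2 : ℝ) ^ (Cc * (Z + 1)) * (2 ^ (⌊ζ₀ * J⌋₊ + 1) / 2 ^ g₀ nb l) +
        2 ^ ⌊C₅ * (ηq * J)⌋₊ / 2 ^ g₂ nb l ≤
        2 ^ (Cc * (Z + 1)) * (2 ^ (⌊ζ₀ * J⌋₊ + 1 + Z) / 2 ^ g₂ nb l) + 2 ^ Z / 2 ^ g₂ nb l :=
          add_le_add (mul_le_mul_of_nonneg_left h3 (by positivity))
            (div_le_div_of_nonneg_right h4 (by positivity))
      _ = (2 ^ (Cc * (Z + 1) + (⌊ζ₀ * J⌋₊ + 1 + Z)) + 2 ^ Z) / 2 ^ g₂ nb l := by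
          rw [pow_add 2 (Cc * (Z + 1))]
          ring
      _ ≤ 2 ^ (Cc * (Z + 1) + (⌊ζ₀ * J⌋₊ + 1 + Z) + 1) / 2 ^ g₂ nb l := by
          refine div_le_div_of_nonneg_right ?_ (by positivity)
          have h8 : (2 : ℝ) ^ Z ≤ 2 ^ (Cc * (Z + 1) + (⌊ζ₀ * J⌋₊ + 1 + Z)) :=
            pow_le_pow_right₀ (by norm_num) (by omega)
          rw [pow_succ]
          linarith
      _ ≤ _ := div_le_div_of_nonneg_right (pow_le_pow_right₀ (by norm_num) h5) (by positivity)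
  have hgq : ∀ l, k ≤ l → l ≤ k + f → ∀ ω i,
      gnq F c (g₀ nb) G (frQ G GN 0 k f) 0 (nb + n) k l ω i =
      gnh F c l (g₀ nb) (folN G (fun y => GN y l) 0 (nb + n) k l) (G (nb + n)) ω i := by
    intro l hl hl' ω i
    unfold gnq
    have e3 : (fun y => frQ G GN 0 k f y l) = fun y => GN y l := by
      funext y
      unfold frQ
      rw [if_neg (by omega), if_pos hl']
    rw [e3]
  -- the contradiction
  have hfin := b5 v (by omega) hav (zz J) (κB v) κA (bb v) (bb f) B₂ B₀ g₂ g₀ G₂ G H₂ H 1 2 Wn Dr 2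
    C₀ a' (Eb (k + f)) (zz J) W₂ W hB₂A (by norm_num) le_rfl z4 z6 z7
    (hfl1.trans m1) m1 hWw hWq B₅ GN HN κT la laP mu hB₅₂
    hB₅₀ (hout2 nb (by simp)) ((hout1 (nb + n) (by simp)).sub hB₅) n3 n4
    (fun l hl hl' ω hω => n5 l hl hl' ω (hB₅₁ ω hω)) hn2
    (fun ω hω t ht i hi => by
      rw [hgq (k + t) (by omega) (by omega)]
      exact n7 ω (hB₅₁ ω hω) (k + t) (by omega) (by omega) i hi)
    (fun ω ν hω hν hpt t ht i hi => by
      rw [hgq (k + t) (by omega) (by omega), hgq (k + t) (by omega) (by omega)]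
      exact n8 ω ν (hB₅₁ ω hω) (hB₅₁ ν hν) hpt (k + t) (by omega) (by omega) i hi)
    (fun ω hω l hl => m5 ω (hB₅A' ω hω) l hl)
    (fun ω hω l hl => (m7 ω (hB₅A' ω hω)).1 l hl) m6
    (fun ω hω i hi => by
      have h4 := (m7 ω (hB₅A' ω hω)).2 i hi
      rw [hgq (k + v) (by omega) (by omega)]
      have e4 : ∑ l ∈ range v, la (slam F Wn ω) l *
            gnq F c (g₀ nb) G (frQ G GN 0 k f) 0 (nb + n) k (k + l) ω i =
          ∑ l ∈ range v, la (slam F Wn ω) l *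
            gnh F c (k + l) (g₀ nb) (folN G (fun y => GN y (k + l)) 0 (nb + n) k (k + l))
              (G (nb + n)) ω i := by
        refine Finset.sum_congr rfl fun l hl => ?_
        rw [mem_range] at hl
        rw [hgq (k + l) (by omega) (by omega)]
      rw [e4]
      exact h4)
  have hPA : Pe F.p A ≤ 32 ^ 2 * (2 * K₁ ^ 2 / mm) * Pe F.p B₅ := by
    have h1 : Pe F.p A ≤ 2 * K₁ ^ 2 / mm * Pe F.p B₃ := by
      have h3 := mul_le_mul_of_nonneg_left hPB₃A (show 0 ≤ 2 * K₁ ^ 2 / mm by positivity)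
      have e5 : 2 * K₁ ^ 2 / mm * (mm / (2 * K₁ ^ 2) * Pe F.p A) = Pe F.p A := by
        field_simp
      rwa [e5] at h3
    calc Pe F.p A ≤ 2 * K₁ ^ 2 / mm * Pe F.p B₃ := h1
      _ ≤ 2 * K₁ ^ 2 / mm * (32 * (32 * Pe F.p B₅)) := by
          refine mul_le_mul_of_nonneg_left ?_ (by positivity)
          linarith
      _ = _ := by ring
  obtain ⟨K, hK⟩ : ∃ K : ℝ, K = 32 ^ 2 * (2 * K₁ ^ 2 / mm) := ⟨_, rfl⟩
  have hKp : 0 < K := by rw [hK]; positivity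
  rw [← hK] at hPA j3
  have hex : (K + 1) * Real.exp (-(δ₀ * J)) < 1 := by
    rw [Real.exp_neg, ← div_eq_mul_inv, div_lt_one (Real.exp_pos _)]
    rw [← Real.log_lt_iff_lt_exp (by positivity)]
    exact j3
  have hfin' : Pe F.p B₅ ≤ Real.exp (-(δ₀ * J)) * Pe F.p A := by
    refine hfin.trans (mul_le_mul_of_nonneg_right (Real.exp_le_exp.2 ?_) hA.le)
    have := mul_le_mul_of_nonneg_right (hδm v hvf hav) hJ0.le
    linarith
  have h1 : Pe F.p A ≤ K * (Real.exp (-(δ₀ * J)) * Pe F.p A) :=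
    hPA.trans (mul_le_mul_of_nonneg_left hfin' hKp.le)
  have h2 : K * Real.exp (-(δ₀ * J)) < 1 := by
    have := Real.exp_pos (-(δ₀ * (J : ℝ)))
    linarith
  have h3 : K * (Real.exp (-(δ₀ * J)) * Pe F.p A) = K * Real.exp (-(δ₀ * J)) * Pe F.p A := by ring
  rw [h3] at h1
  have h4 : K * Real.exp (-(δ₀ * J)) * Pe F.p A < 1 * Pe F.p A :=
    mul_lt_mul_of_pos_right h2 hA
  linarith

end Pool.T4E
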