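import Pool.Agent.H72.T4C.End
import Pool.Agent.H17.T4.End2
import Pool.Agent.H62.V0C.Cfb
import Pool.Agent.H92.V0F.Vsb

/-!
# Several targets of one slope over slope-one places: the end

`endT : EndTStmt k f pv`, from `v0t_end2`; the bound `CfB` on the own paths of the charts of the
first window is that of `cfb_stmt`.
-/

set_option autoImplicit false

namespace Pool.T4E

open Finset Real MvPolynomial
open Pool.Agent.H49.Ent Pool.Agent.H32.Dense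
open Pool.STK hiding pr2
open Pool.KA Pool.KSAT Pool.K2S Pool.PB Pool.S6C
open Pool.GEN Pool.CHT Pool.CHX Pool.ISO
open Pool.D2R (WinB gnh winb_lbp)
open Pool.V0T (LbT ggT)
open Pool.T4C72 (OutT EndTStmt EndTAt)

variable {m : ℕ}

/-- The conclusion of the class theorem in the form of `v0t_end2`. -/
theorem outL_of {J : ℕ} {F : Fam m J} {c : ℕ → Fin m} {k f D' nb n n₁ : ℕ}
    {pv : Fin (n₁ + 1) → ℕ} {o : ℕ → ℝ} {u φ ι x m₁ m₀ : ℝ} {zt s₁ : ℕ → ℝ} {sn : ℕ → ℝ → ℝ}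
    {A B : F.Ω → Prop} {g : ℕ → ℕ} {G : ℕ → PtT F → ℕ → MvPolynomial (Option (Fin m)) ℝ}
    {GN : PtT F → ℕ → MvPolynomial (Option (Fin m)) ℝ}
    {HN : LnT F → ℕ → MvPolynomial (Option (Fin m)) ℝ} (hB : Sub B A)
    (hP : m₁ * Pe F.p A ≤ Pe F.p B)
    (hL : LbT F c k f D' (o nb) u φ 1 sn B g (G nb) GN HN)
    (hO : OutT F c k f D' pv (o nb) φ ι x m₀ s₁ zt 0 (nb + n) g B G GN) :
    OutL F c k f D' 0 nb (nb + n) o φ ι x m₁ m₀ zt s₁ (fun v => v ∈ Set.range pv) A g G := by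
  obtain ⟨κN, hnear⟩ := hL.near
  obtain ⟨h1, h2, v, W, A', la, laP, mu, m1, m2, m3, m4, m5, m6, m7, m8, m9⟩ := hO
  exact ⟨B, GN, HN, κN, hB, hP, hL.deg, hL.dep, hL.cls, hnear, h1, h2, v, W, A', la, laP, mu, m1,
    m2, m3, m4, m5, m6, fun ω _ l _ => m7 _ l, m8, m9⟩

/-- **(ENDT)** The end for several targets over slope-one places. -/
theorem endT (k f : ℕ) {n₁ : ℕ} (pv : Fin (n₁ + 1) → ℕ) : EndTStmt k f pv := by
  intro m D D' hD hDD
  obtain ⟨C, hC, hend⟩ := v0t_end2 m D D' k f hD hDD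
  refine ⟨C, hC, ?_⟩
  intro S P θ Eb e s₁ h h₂ ζ zt c C₀ a' ηm ζ₀ ι x φ u K₁ cT κT m₀ o η σ r₀ sn lv bb Dr N nb n w a
    q₁ zz hne htm hpos hT hc hDr hN hmo hζ₀ hCη hsl hroom ho00 ho01 hob0 hob1 how hwo w3 w6 hφw
    hφζ hι hx hK₁ hcT hκT hm₀ hq₁ hpv hpf hpn hzz hwin hV
  -- the class theorem without the bound on the own paths
  have hcf := Pool.V0C62.cfb_stmt htm hpos D k (E := 1) (fun _ => o 0) (fun l => (range l).image c)
    c one_pos (fun _ _ => ⟨ho00, ho01⟩)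
  have hV' := bas_evU hV (κ := 1 / 2) (by norm_num)
  have hV2 : Bas S (fun J F A => ∀ {κ : ℝ} {g₀ : ℕ → ℕ → ℕ}
      {Gc : ℕ → PtT F → ℕ → MvPolynomial (Option (Fin m)) ℝ}
      {H : ℕ → LnT F → ℕ → MvPolynomial (Option (Fin m)) ℝ}, κ ≤ κT / 2 →
      WinB F c (k + f) D Dr N 2 C₀ a' (Eb (k + f)) ηm o η σ lv (bb f) κ (zz J) A g₀ Gc H →
      ∃ (B : F.Ω → Prop) (GN : PtT F → ℕ → MvPolynomial (Option (Fin m)) ℝ)
        (HN : LnT F → ℕ → MvPolynomial (Option (Fin m)) ℝ), Sub B A ∧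
        cT / 2 * Pe F.p A ≤ Pe F.p B ∧
        LbT F c k f D' (o nb) u φ 1 sn B (g₀ nb) (Gc nb) GN HN ∧
        OutT F c k f D' pv (o nb) φ ι x m₀ s₁ zt 0 (nb + n) (g₀ nb) B Gc GN) := by
    refine Bas.mono 0 (hcf.and hV') ?_
    rintro J - F A ⟨b2, b3⟩ κ g₀ Gc H hκ W
    have hp := Pe_nonneg F.isLaw
    obtain ⟨B₁, hB₁, hPB₁, hcfB⟩ := b2 (fun l => g₀ 0 l)
      (fun l => {p : MvPolynomial (Option (Fin m)) ℝ // p.totalDegree ≤ D ∧ DepC c l p})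
      (fun l y => ⟨Gc 0 y l, (W.ev 0 (Nat.zero_le _)).ball.degG y l,
        (W.ev 0 (Nat.zero_le _)).ball.depG y l⟩)
      (fun l s => ⟨H 0 s l, (W.ev 0 (Nat.zero_le _)).ball.degH s l,
        (W.ev 0 (Nat.zero_le _)).ball.depH s l⟩) (fun l v => v.1)
      (fun l hl => winb_lbp W (k := 0) (l := l) (Nat.zero_le _) (by omega))
    have hW₁ := W.res (B' := B₁) (κ₁ := 1 / 2) (κ₂ := 2 * max κ 0) hB₁ (by linarith)
      (by positivity) (by
        have := le_max_left κ 0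
        linarith)
    obtain ⟨B, GN, HN, hB, hPB, hL, hO⟩ := b3 B₁ hB₁ (by linarith) (by
      rcases le_total κ 0 with h1 | h1
      · rw [max_eq_right h1]
        linarith
      · rw [max_eq_left h1]
        linarith) hW₁ (fun l hl => hcfB l hl)
    refine ⟨B, GN, HN, fun ω hω => hB₁ ω (hB ω hω), ?_, hL, hO⟩
    have h1 : cT * (Pe F.p A / 2) ≤ cT * Pe F.p B₁ := mul_le_mul_of_nonneg_left hPB₁ hcT.le
    linarith
  rcases lt_or_ge φ 0 with hφ | hφ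
  · -- no window in this case
    obtain ⟨i₀, hi₀⟩ := hpf
    have hw := hwin i₀ (κT / 2) (by positivity)
    rw [hi₀] at hw
    have hV3 := bas_evU hV2 (κ := 1 / K₁) (by positivity)
    obtain ⟨J₁, hzz⟩ := hzz
    obtain ⟨J₂, hJ₂⟩ := exists_nat_gt (1 / (-(2 * φ)))
    refine Pool.LBT.bas_false hne (Φ := fun _ _ _ => False) ?_ ⟨1, one_pos, 0,
      fun _ _ _ _ _ h => h⟩
    refine Bas.mono (max J₁ J₂) (hw.and hV3) ?_
    rintro J hJ F A ⟨b1, b3⟩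
    obtain ⟨z1, -⟩ := hzz J ((le_max_left _ _).trans hJ)
    obtain ⟨B₀, g₀, G, H, hB₀, hPB₀, W⟩ := b1 (zz J) z1
    have hPB₀' : 1 / K₁ * Pe F.p A ≤ Pe F.p B₀ := by
      rw [one_div, inv_mul_le_iff₀ hK₁]
      exact hPB₀
    obtain ⟨B, GN, HN, -, -, -, -, -, v, Wn, A', la, laP, mu, -, -, m3, m4, -⟩ :=
      b3 B₀ hB₀ hPB₀' le_rfl W
    have h1 := Nat.lt_floor_add_one (o nb * (J : ℝ))
    have h2 : ((⌊o nb * J⌋₊ : ℕ) : ℝ) ≤ Wn := by exact_mod_cast m3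
    have h3 : 1 / (-(2 * φ)) < J := hJ₂.trans_le (by exact_mod_cast (le_max_right _ _).trans hJ)
    rw [div_lt_iff₀ (by linarith)] at h3
    nlinarith
  · refine hend (S := S) (P := P) (θ := θ) (Eb := Eb) (e := e) (s₁ := s₁) (h := h) (h₂ := h₂)
      (ζ := ζ) (zt := zt) (c := c) (C₀ := C₀) (a' := a') (ηm := ηm) (ζ₀ := ζ₀) (ι := ι) (x := x)
      (φ := φ) (K₁ := K₁) (cT := cT / 2) (κT := κT / 2) (m₀ := m₀) (o := o) (η := η) (σ := σ)
      (r₀ := r₀) (lv := lv) (bb := bb) (Dr := Dr) (N := N) (nb := nb) (n := n) (w := w) (a := a)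
      (q₁ := q₁) (Al := fun v => v ∈ Set.range pv) zz hne hT hc hDr hN hmo hζ₀ hCη hsl ?_ hφw hwo
      w3 w6 hφ hφζ hι.le hK₁ (by positivity) (by positivity) hm₀ ?_ ?_ hzz ?_ ?_
    · intro t ht
      obtain ⟨a1, a2, a3⟩ := hroom t ht
      refine ⟨a1, a2, ?_⟩
      rintro v - ⟨i, rfl⟩ l hl
      exact a3 i l hl
    · obtain ⟨i₀, hi₀⟩ := hpf
      exact ⟨i₀, hi₀⟩
    · rintro v - ⟨i, rfl⟩
      exact hpn i
    · rintro v - ⟨i, rfl⟩
      exact hwin i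
    · refine Bas.mono 0 hV2 ?_
      intro J _ F A b2 κ g₀ Gc H hκ W
      obtain ⟨B, GN, HN, hB, hPB, hL, hO⟩ := b2 hκ W
      exact outL_of hB hPB hL hO

end Pool.T4E
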