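import Pool.Agent.H17.T4.Vel

/-!
# A closed combination of gradients: the end at one pivot

`PivN`: the numbers of the end at the place `k + u`. `piv_end`: if on an event a combination of the
gradients of the targets `k, …, k + u` with closed coefficients, the last one equal to one, is closed,
the event is small (`ad_noY` for the place `k + u`).
-/

set_option autoImplicit false

namespace Pool.T4E

open Finset Real MvPolynomial
open Pool.Agent.H49.Ent Pool.Agent.H32.Dense Pool.STK Pool.KA Pool.KSAT Pool.K2S Pool.PB Pool.S6C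
open Pool.GEN Pool.CHT Pool.CHX Pool.ISO Pool.D2R
open Pool.END16 (cvg)
open Pool.PB.Trl (rt rt_mem t_rt)
open Pool.LBT (ThrOf)

variable {m J : ℕ}

/-- **The numbers of the end** at the place `k + u`. `kw`: the window `w`, `nv`: the window at which
the velocities are measured. -/
structure PivN (P : List (Fin m) × Fin m → ℝ → ℝ → ℝ) (θ : ℝ) (c : ℕ → Fin m) (k u : ℕ)
    (C Eb : ℝ) (o : ℕ → ℝ) (lv : ℕ → ℕ → ℝ) (kw nv : ℕ) (w a : ℚ) (q₁ s₁ h h₂ e ζ : ℝ) :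
    Prop where
  wa : w ≤ a
  a1 : a ≤ 1
  ew : e < θ * w
  h0 : 0 < h
  h20 : 0 ≤ h₂
  q0 : 0 ≤ q₁
  s0 : 0 ≤ s₁
  b1 : bet P c (k + u) a w + h ≤ 1
  hE : Eb + C * ζ + 2 * h₂ ≤ e
  g1 : bet P c (k + u) a w + h + C * ζ + 2 * h₂ ≤ lv kw (k + u) + s₁ + (a - w)
  g2 : bet P c (k + u) a w + h + C * ζ + 2 * h₂ ≤ lv nv (k + u) - (o nv - w) + (a - w)
  g3 : bet P c (k + u) a w + h + C * ζ + 2 * h₂ + q₁ ≤ lv kw (k + u) + 2 * (a - w)
  g4 : q₁ + C * ζ ≤ a - w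
  g5 : ∀ l ≤ k + u, Eb + lv kw l + 2 * (a - w) + C * ζ ≤ 1
  g6 : ∀ l ≤ k + u, Eb + lv kw l + max s₁ 0 + 2 * q₁ + C * ζ ≤ 1
  g7 : ∀ j < k + u, lv kw j ≤ lv kw (k + u) + ζ + h₂ ∨
    bet P c (k + u) a w + h ≤ lv kw (k + u) + (a - w) + ζ + h₂

/-- The frame: charts of the window `kb` below `k`, the labels `GN` for the targets
`k, …, k + f`. -/
noncomputable def frQ {F : Fam m J} (G : ℕ → PtT F → ℕ → MvPolynomial (Option (Fin m)) ℝ)
    (GN : PtT F → ℕ → MvPolynomial (Option (Fin m)) ℝ) (kb k f : ℕ) :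
    PtT F → ℕ → MvPolynomial (Option (Fin m)) ℝ := fun y l =>
  if l < k then G kb y l else if l ≤ k + f then GN y l else 0

/-- The frame from the line in a window `W`; `wb`, `w`: the two windows. -/
noncomputable def fhQ {F : Fam m J} (H : ℕ → LnT F → ℕ → MvPolynomial (Option (Fin m)) ℝ)
    (HN : LnT F → ℕ → MvPolynomial (Option (Fin m)) ℝ) (kb k f wb w W : ℕ) :
    LnT F → ℕ → MvPolynomial (Option (Fin m)) ℝ := fun s l =>
  if l < k then H kb (Pool.AVG57.upw wb W s) l else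
    if l ≤ k + f then HN (Pool.AVG57.upw w W s) l else 0

/-- The numbers of the velocities. -/
theorem vel_num {u : ℕ} {ζ₀ ζ ι zt ηm J : ℝ} (hJ : 0 ≤ J) (hη : ηm ≤ ζ₀)
    (hζJ : (u : ℝ) + 10 ≤ ζ₀ * J) (hι : 0 ≤ ι) (hzt : 0 ≤ zt) (hζ : 10 * (ι + zt + ζ₀) ≤ ζ) :
    (1 + u * (2 : ℝ) ^ (zt * J)) * (1 + (2 : ℝ) ^ (ι * J)) * (((u : ℝ) + 1) *
      2 ^ ((2 * ζ₀ + 2 * ηm) * J)) ≤ 2 ^ (ζ * J - 2) := by
  have hu0 : (0 : ℝ) ≤ u := Nat.cast_nonneg u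
  have h1 : (1 : ℝ) ≤ 2 ^ (zt * J) := Real.one_le_rpow one_le_two (by positivity)
  have h2 : (1 : ℝ) ≤ 2 ^ (ι * J) := Real.one_le_rpow one_le_two (by positivity)
  have h3 : (u : ℝ) + 1 ≤ 2 ^ (ζ₀ * J) := by
    have h4 : (u : ℝ) + 1 ≤ 2 ^ (u : ℝ) := by
      rw [Real.rpow_natCast]
      exact_mod_cast Nat.lt_two_pow_self (n := u)
    exact h4.trans (Real.rpow_le_rpow_of_exponent_le one_le_two (by linarith))
  have h5 : 1 + u * (2 : ℝ) ^ (zt * J) ≤ 2 ^ (ζ₀ * J) * 2 ^ (zt * J) := by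
    calc 1 + u * (2 : ℝ) ^ (zt * J) ≤ 2 ^ (zt * J) + u * (2 : ℝ) ^ (zt * J) := by linarith
      _ = ((u : ℝ) + 1) * 2 ^ (zt * J) := by ring
      _ ≤ _ := mul_le_mul_of_nonneg_right h3 (by positivity)
  have h6 : 1 + (2 : ℝ) ^ (ι * J) ≤ 2 ^ (ζ₀ * J) * 2 ^ (ι * J) := by
    have h7 : (2 : ℝ) ≤ 2 ^ (ζ₀ * J) := by
      calc (2 : ℝ) = 2 ^ (1 : ℝ) := (Real.rpow_one _).symm
        _ ≤ _ := Real.rpow_le_rpow_of_exponent_le one_le_two (by linarith)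
    nlinarith
  calc (1 + u * (2 : ℝ) ^ (zt * J)) * (1 + (2 : ℝ) ^ (ι * J)) * (((u : ℝ) + 1) *
      2 ^ ((2 * ζ₀ + 2 * ηm) * J)) ≤ (2 ^ (ζ₀ * J) * 2 ^ (zt * J)) * (2 ^ (ζ₀ * J) * 2 ^ (ι * J)) *
        (2 ^ (ζ₀ * J) * 2 ^ ((2 * ζ₀ + 2 * ηm) * J)) := by
        refine mul_le_mul (mul_le_mul h5 h6 (by positivity) (by positivity))
          (mul_le_mul_of_nonneg_right h3 (by positivity)) (by positivity) (by positivity)
    _ = 2 ^ (ζ₀ * J + zt * J + (ζ₀ * J + ι * J) + (ζ₀ * J + (2 * ζ₀ + 2 * ηm) * J)) := by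
        rw [← Real.rpow_add two_pos, ← Real.rpow_add two_pos, ← Real.rpow_add two_pos,
          ← Real.rpow_add two_pos, ← Real.rpow_add two_pos]
    _ ≤ 2 ^ (ζ * J - 2) := by
        refine Real.rpow_le_rpow_of_exponent_le one_le_two ?_
        have h8 := mul_le_mul_of_nonneg_right hζ hJ
        have h9 := mul_le_mul_of_nonneg_right hη hJ
        have h10 : 0 ≤ ι * J := by positivity
        have h11 : 0 ≤ zt * J := by positivity
        nlinarith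

theorem pw_floor {x J : ℝ} : (2 : ℝ) ^ (-(x * J)) ≤ 1 / 2 ^ ⌊x * J⌋₊ ∨ x * J < 0 := by
  rcases lt_or_ge (x * J) 0 with h | h
  · exact Or.inr h
  · left
    rw [Real.rpow_neg two_pos.le, ← one_div]
    refine one_div_le_one_div_of_le (by positivity) ?_
    rw [← Real.rpow_natCast]
    exact Real.rpow_le_rpow_of_exponent_le one_le_two (Nat.floor_le h)

/-- **The end at one pivot.** -/
theorem piv_end (m D D' k f u : ℕ) (hD : 1 ≤ D) (hDD : D ≤ D') (huf : u ≤ f) :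
    ∃ C : ℕ, 10 ≤ C ∧ ∀ {S : PCl m}
    {P : List (Fin m) × Fin m → ℝ → ℝ → ℝ} {θ : ℝ} {c : ℕ → Fin m}
    {C₀ a' Eb ηm ζ₀ ζ ι zt x : ℝ} {o η σ : ℕ → ℝ} {lv : ℕ → ℕ → ℝ} {Dr N M kb kw kn nv : ℕ}
    {w a : ℚ} {q₁ s₁ h h₂ e : ℝ}, ThrOf (chsys m θ) S P → TmH S →
    Set.InjOn c (Set.Iio (k + f + 1)) → kb ≤ N → kw ≤ N → kn ≤ N → nv ≤ N →
    o kw ≤ w → w ≤ o kw + ζ₀ → 0 ≤ w → w < 1 → 0 < ζ₀ → C₀ * ηm ≤ ζ₀ → 0 ≤ ι → 0 ≤ zt →
    C * (ι + zt + ζ₀) ≤ ζ → PivN P θ c k u C Eb o lv kw nv w a q₁ s₁ h h₂ e ζ → s₁ ≤ x →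
    (∀ l ≤ u, o kn - lv kn (k + l) + lv kw (k + l) + lv nv (k + u) - lv kw (k + u) ≤
      o nv + ζ₀) →
    ∃ δ : ℝ, 0 < δ ∧ Bas S (fun J F A => ∀ (z : ℕ → ℕ → ℕ) (κ : ℝ) (b : ℕ → ℕ → ℝ)
      (B : F.Ω → Prop) (g₀ : ℕ → ℕ → ℕ)
      (G : ℕ → PtT F → ℕ → MvPolynomial (Option (Fin m)) ℝ)
      (H : ℕ → LnT F → ℕ → MvPolynomial (Option (Fin m)) ℝ) (jq jT W : ℕ),
      WinB F c (k + f) D Dr N M C₀ a' Eb ηm o η σ lv b κ z B g₀ G H →
      Sub B A → jq ≤ M → jT ≤ M → (z kw jq : ℝ) ≤ q₁ * J →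
      ⌊o kw * J⌋₊ + z kw jT ≤ ⌊(a : ℝ) * J⌋₊ →
      (a : ℝ) * J ≤ ⌊o kw * J⌋₊ + z kw jT + ζ₀ * J + 2 → ⌊o kb * J⌋₊ ≤ W →
      ⌊o kw * J⌋₊ ≤ W → W ≤ ⌊(w : ℝ) * J⌋₊ → W ≤ ⌊o kw * J⌋₊ + z kw jq →
      ∀ (A' : F.Ω → Prop) (GN : PtT F → ℕ → MvPolynomial (Option (Fin m)) ℝ)
        (HN : LnT F → ℕ → MvPolynomial (Option (Fin m)) ℝ) (κQ : F.Ω → ℕ → ℝ)
        (la : LnT F → ℕ → ℝ) (laP : PtT F → ℕ → ℝ) (mu : LnT F → ℕ → Polynomial ℝ), Sub A' B →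
      ROutB F c (k + f) ⌊o kw * J⌋₊ ⌊ζ₀ * J⌋₊ (g₀ kw) A' (G kw) (H kw) →
      ROutB F c (k + f) ⌊o kn * J⌋₊ ⌊ζ₀ * J⌋₊ (g₀ kn) A' (G kn) (H kn) →
      -- the labels
      (∀ l, k ≤ l → l ≤ k + f → (∀ y, (GN y l).totalDegree ≤ D') ∧
        ∀ s, (HN s l).totalDegree ≤ D') →
      (∀ l, k ≤ l → l ≤ k + f → (∀ y, DepC c l (GN y l)) ∧ ∀ s, DepC c l (HN s l)) →
      (∀ l, k ≤ l → l ≤ k + f → ∀ ω, A' ω → GN (ptr F J ω) l = HN (slam F ⌊o kw * J⌋₊ ω) l) →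
      (∀ ω, A' ω → ∀ l ≤ k + u, ∀ b, NBx c (G kw (ptr F J ω)) (g₀ kw) ⌊o kw * J⌋₊ (F.t ω) l b →
        |eval b (frQ G GN kb k f (ptr F J ω) l) + κQ ω l - eval b (G kw (ptr F J ω) l)| ≤
          2 ^ ⌊ζ * J⌋₊ / 2 ^ g₀ kw l) →
      -- the gradients
      (∀ ω, A' ω → ∀ t ≤ u, ∀ i < k + t,
        |gnq F c (g₀ kw) G (frQ G GN kb k f) kb kn k (k + t) ω i| ≤ 2 ^ (ι * J)) →
      (∀ ω ν, A' ω → A' ν → ptr F J ω = ptr F J ν → ∀ t ≤ u, ∀ i < k,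
        |gnq F c (g₀ kw) G (frQ G GN kb k f) kb kn k (k + t) ω i -
          gnq F c (g₀ kw) G (frQ G GN kb k f) kb kn k (k + t) ν i| ≤ 2 ^ (-(x * J))) →
      -- the closed combination
      (∀ ω, A' ω → ∀ l < u, |la (slam F W ω) l| ≤ 2 ^ (zt * J)) →
      (∀ ω, A' ω → ∀ l < u, la (slam F W ω) l = laP (ptr F J ω) l) →
      (∀ s i, (mu s i).natDegree ≤ D' + 1) →
      (∀ ω, A' ω → ∀ i < k,
        |gnq F c (g₀ kw) G (frQ G GN kb k f) kb kn k (k + u) ω i +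
          ∑ l ∈ range u, la (slam F W ω) l *
            gnq F c (g₀ kw) G (frQ G GN kb k f) kb kn k (k + l) ω i -
          (mu (slam F W ω) i).eval (rt F W ω)| ≤ 2 ^ (-(s₁ * J))) →
      Pe F.p A' ≤ Real.exp (-(δ * J)) * Pe F.p A) := by
  obtain ⟨Ca, hCa, had⟩ := Pool.END16.ad_noY m (D' + 1) D D' (k + u) hD
  refine ⟨⌈Ca⌉₊ + 10, by omega, ?_⟩
  have hCC : Ca ≤ ((⌈Ca⌉₊ + 10 : ℕ) : ℝ) := by
    push_cast
    have := Nat.le_ceil Ca
    linarith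
  obtain ⟨C, hC⟩ : ∃ C : ℕ, C = ⌈Ca⌉₊ + 10 := ⟨_, rfl⟩
  have hC10 : (10 : ℝ) ≤ C := by
    rw [hC]
    push_cast
    have : (0 : ℝ) ≤ ⌈Ca⌉₊ := Nat.cast_nonneg _
    linarith
  rw [← hC] at hCC ⊢
  intro S P θ c C₀ a' Eb ηm ζ₀ ζ ι zt x o η σ lv Dr N M kb kw kn nv w a q₁ s₁ h h₂ e hP hT hc
    hkb hkw hkn hnv how1 how2 hw hw1 hζ₀ hCη hι hzt hζ hN hsx hvn
  have hζ1 : 10 * (ι + zt + ζ₀) ≤ ζ :=
    (mul_le_mul_of_nonneg_right hC10 (by linarith)).trans hζ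
  have hζ0 : 0 < ζ := by linarith
  have hζζ : ζ₀ ≤ ζ := by linarith
  have hCaζ : Ca * ζ ≤ C * ζ := mul_le_mul_of_nonneg_right hCC hζ0.le
  obtain ⟨δ, hδ, had⟩ := had (S := S) (P := P) (θ := θ) (c := c) (C₀ := C₀) (a' := a') (Eb := Eb)
    (ηm := ηm) (ζ := ζ) (o := o) (η := η) (σ := σ) (lv := lv) (r := k + f) (Dr := Dr) (N := N)
    (M := M) (k₀ := kw) (n := nv) (a := a) (w := w) (q₁ := q₁) (s₁ := s₁) (h := h) (h₂ := h₂)
    (e := e) hP hT hc (by omega) hkw hnv how1 (by linarith) hw hN.wa hN.a1 hw1 hN.ew hN.h0 hN.h20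
    hζ0 (by linarith) hN.q0 hN.b1 (by linarith [hN.hE]) (by linarith [hN.g1])
    (by linarith [hN.g2]) (by linarith [hN.g3]) (by linarith [hN.g4])
    (fun l hl => by linarith [hN.g5 l hl]) (fun l hl => by linarith [hN.g6 l hl]) hN.g7
  refine ⟨δ, hδ, ?_⟩
  obtain ⟨J₁, hJ₁⟩ := exists_nat_gt (((u : ℝ) + 10) / ζ₀)
  refine Bas.mono J₁ had ?_
  intro J hJ F A hA z κ b B g₀ G H jq jT W hWB hBA hjq hjT hzq hzT1 hzT2 hbW hwW hWw hWq A' GN HN
    κQ la laP mu hA' hR₀ hRn hdeg hdep hcls hnear hga hgb hla hlaP hmd hcl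
  have hJ0 : (0 : ℝ) ≤ J := Nat.cast_nonneg J
  have hζJ : (u : ℝ) + 10 ≤ ζ₀ * J := by
    have : ((u : ℝ) + 10) / ζ₀ < J := hJ₁.trans_le (by exact_mod_cast hJ)
    rw [div_lt_iff₀ hζ₀] at this
    linarith
  have hu0 : (0 : ℝ) ≤ u := Nat.cast_nonneg u
  have hηm0 : 0 ≤ ηm := (hWB.hη kw hkw).1.trans (hWB.hη kw hkw).2
  have hηζ : ηm ≤ ζ₀ := (le_mul_of_one_le_left hηm0 hWB.C1).trans hCη
  have hWJ : W ≤ J := by
    have h1 : ((W : ℕ) : ℝ) ≤ (J : ℕ) := by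
      have t1 : ((W : ℕ) : ℝ) ≤ (⌊(w : ℝ) * J⌋₊ : ℕ) := by exact_mod_cast hWw
      have hwR : (0 : ℝ) ≤ w := by exact_mod_cast hw
      have hw1R : (w : ℝ) < 1 := by exact_mod_cast hw1
      have t2 : (⌊(w : ℝ) * J⌋₊ : ℝ) ≤ w * J := Nat.floor_le (mul_nonneg hwR hJ0)
      nlinarith
    exact_mod_cast h1
  obtain ⟨gg, hgg⟩ : ∃ gg : F.Ω → ℕ → ℕ → ℝ, gg = fun ω t =>
      gnq F c (g₀ kw) G (frQ G GN kb k f) kb kn k (k + t) ω := ⟨_, rfl⟩
  -- the powers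
  have hpw : (2 : ℝ) ^ (ι * J) * (1 + u * 2 ^ (zt * J)) + 1 ≤ 2 ^ ⌊ζ * J⌋₊ := by
    have h1 := vel_num (u := u) (ζ₀ := ζ₀) (ζ := ζ) (ι := ι) (zt := zt) (ηm := 0) hJ0 hζ₀.le hζJ hι
      hzt hζ1
    have h2 : (2 : ℝ) ^ (ζ * J - 2) ≤ 2 ^ ⌊ζ * J⌋₊ := by
      rw [← Real.rpow_natCast]
      exact Real.rpow_le_rpow_of_exponent_le one_le_two (by
        have := (Nat.lt_floor_add_one (ζ * (J : ℝ))).le
        linarith)
    refine le_trans ?_ (h1.trans h2)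
    have h3 : (1 : ℝ) ≤ 2 ^ ((2 * ζ₀ + 2 * 0) * J) := Real.one_le_rpow one_le_two (by positivity)
    have h4 : (1 : ℝ) ≤ ((u : ℝ) + 1) * 2 ^ ((2 * ζ₀ + 2 * 0) * J) :=
      one_le_mul_of_one_le_of_one_le (by linarith) h3
    have h5 : (0 : ℝ) < 2 ^ (ι * J) := by positivity
    have h6 : (0 : ℝ) < 2 ^ (zt * J) := by positivity
    calc (2 : ℝ) ^ (ι * J) * (1 + u * 2 ^ (zt * J)) + 1 ≤
        (1 + u * (2 : ℝ) ^ (zt * J)) * (1 + (2 : ℝ) ^ (ι * J)) * 1 := by nlinarith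
      _ ≤ _ := mul_le_mul_of_nonneg_left h4 (by positivity)
  have hspw : (2 : ℝ) ^ (-(s₁ * J)) ≤ 1 / 2 ^ ⌊s₁ * J⌋₊ :=
    (pw_floor (x := s₁) (J := (J : ℝ))).resolve_right (by
      have := mul_nonneg hN.s0 hJ0
      linarith)
  have hone : (1 : ℝ) ≤ 2 ^ ⌊ζ * J⌋₊ := one_le_pow₀ one_le_two
  have hs2 : (1 : ℝ) / 2 ^ ⌊s₁ * J⌋₊ ≤ 2 ^ ⌊ζ * J⌋₊ / 2 ^ ⌊s₁ * J⌋₊ :=
    div_le_div_of_nonneg_right hone (by positivity)
  have hs1 : (2 : ℝ) ^ (-(s₁ * J)) ≤ 1 := hspw.trans (by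
    rw [div_le_one (by positivity)]
    exact one_le_pow₀ one_le_two)
  have hzp : (0 : ℝ) < 2 ^ (zt * J) := by positivity
  have hip : (0 : ℝ) < 2 ^ (ι * J) := by positivity
  have hzle : (2 : ℝ) ^ (zt * J) ≤ 2 ^ ⌊ζ * J⌋₊ := by
    rw [← Real.rpow_natCast]
    refine Real.rpow_le_rpow_of_exponent_le one_le_two ?_
    have h1 := (Nat.lt_floor_add_one (ζ * (J : ℝ))).le
    have h2 := mul_le_mul_of_nonneg_right hζ1 hJ0
    nlinarith [mul_nonneg hι hJ0, mul_nonneg hzt hJ0]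
  -- sums over the earlier targets
  have hsum : ∀ (f' : ℕ → ℝ) (X : ℝ) (ω : F.Ω), A' ω → (∀ l < u, |f' l| ≤ X) →
      |∑ l ∈ range u, la (slam F W ω) l * f' l| ≤ u * (2 ^ (zt * J) * X) := by
    intro f' X ω hω hf
    refine (Finset.abs_sum_le_sum_abs _ _).trans ?_
    refine (Finset.sum_le_sum (g := fun _ => 2 ^ (zt * J) * X) fun l hl => ?_).trans
      (le_of_eq ?_)
    · rw [mem_range] at hl
      rw [abs_mul]
      exact mul_le_mul (hla ω hω l hl) (hf l hl) (abs_nonneg _) (by positivity)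
    · rw [Finset.sum_const, card_range, nsmul_eq_mul]
  have hcls' : ∀ ω, A' ω → ∀ l ≤ k + f, frQ G GN kb k f (ptr F J ω) l =
      fhQ H HN kb k f ⌊o kb * J⌋₊ ⌊o kw * J⌋₊ W (slam F W ω) l := by
    intro ω hω l hl
    unfold frQ fhQ
    split_ifs with h1
    · rw [Pool.AVG57.upw_slam F hbW hWJ]
      exact (hWB.ev kb hkb).cls ω (hA' ω hω) l (by omega)
    · rw [Pool.AVG57.upw_slam F hwW hWJ]
      exact hcls l (by omega) hl ω hω
  have hfd : ∀ y l, (frQ G GN kb k f y l).totalDegree ≤ D' := by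
    intro y l
    unfold frQ
    split_ifs with h1 h2
    · exact ((hWB.ev kb hkb).ball.degG y l).trans hDD
    · exact (hdeg l (by omega) h2).1 y
    · rw [MvPolynomial.totalDegree_zero]
      exact Nat.zero_le _
  have hfp : ∀ y l, DepC c l (frQ G GN kb k f y l) := by
    intro y l
    unfold frQ
    split_ifs with h1 h2
    · exact (hWB.ev kb hkb).ball.depG y l
    · exact (hdep l (by omega) h2).1 y
    · exact fun b b' _ _ => by rw [map_zero, map_zero]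
  obtain ⟨τ, hτ⟩ : ∃ τ : F.Ω → ℝ, ∀ ω, ∀ (V : Option (Fin m) → ℝ)
    (ε : ℕ → ℝ) (U U' : ℝ), 0 ≤ U → 0 ≤ U' →
    (∀ l ≤ k + u, |V (some (c l)) - dd (G kn (ptr F J ω) l) (bt F ω) V| ≤ ε l) →
    (∀ t ≤ u, ∀ l < k + t, k ≤ l → |gg ω t l| ≤ U) →
    (∀ l < u, |la (slam F W ω) l| ≤ U') →
    |V (some (c (k + u))) - cvg c (k + u) (g₀ kw) (frQ G GN kb k f (ptr F J ω)) (bt F ω)
      (cmb k u (gg ω) (la (slam F W ω))) (τ ω) V| ≤
      (1 + u * U') * (1 + U) * (∑ l ∈ Ico k (k + u + 1), 2 ^ g₀ kw l * ε l) /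
        2 ^ g₀ kw (k + u) := by
    have h1 := fun ω => vel_comb (F := F) (c := c) (G := G) (Q := frQ G GN kb k f) (kb := kb)
      (kn := kn) (k := k) (u := u) (hc.mono fun y hy => by
        rw [Set.mem_Iio] at hy ⊢
        omega) (g₀ kw) (fun y l => (hWB.ev kb hkb).ball.depG y l)
      (fun y l => (hWB.ev kn hkn).ball.depG y l) hfp (fun y l hl => if_pos hl) ω
      (la (slam F W ω))
    choose τ hτ using h1
    rw [hgg]
    exact ⟨τ, hτ⟩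
  refine hA z κ b B g₀ G H jq jT W hWB hBA hjq hjT hzq hzT1 (by
    have := mul_le_mul_of_nonneg_right hζζ hJ0
    linarith) hwW hWw hWq A' (frQ G GN kb k f)
    (fhQ H HN kb k f ⌊o kb * J⌋₊ ⌊o kw * J⌋₊ W) κQ
    (fun ω => cmb k u (gg ω) (la (slam F W ω))) τ
    (fun s l => if l < k then mu s l else Polynomial.C (-la s (l - k))) hA'
    (hR₀.mono (Nat.floor_le_floor (mul_le_mul_of_nonneg_right hζζ hJ0))) ?_ hfd hfp ?_ ?_
    (fun ω hω l hl => hcls' ω hω l (by omega)) hnear ?_ ?_ ?_ ?_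
  · -- the velocities
    intro ω ν hω hν hpt
    have h1 := hτ ω (bd F ν) (fun l => 2 ^ ⌊ζ₀ * J⌋₊ * 2 ^ ⌊o kn * J⌋₊ / 2 ^ g₀ kn l)
      (2 ^ (ι * J)) (2 ^ (zt * J)) hip.le hzp.le (fun l hl =>
        ROut1.vel hRn ω ν hω hν hpt l (by omega))
      (fun t ht l hl _ => by
        rw [hgg]
        exact hga ω hω t ht l hl) (hla ω hω)
    refine h1.trans ?_
    -- the errors
    have h2 : ∀ l ∈ Ico k (k + u + 1), 2 ^ g₀ kw l *
        (2 ^ ⌊ζ₀ * J⌋₊ * 2 ^ ⌊o kn * J⌋₊ / 2 ^ g₀ kn l) / 2 ^ g₀ kw (k + u) ≤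
        (2 : ℝ) ^ ((2 * ζ₀ + 2 * ηm) * J + o nv * J - lv nv (k + u) * J) := by
      intro l hl
      rw [mem_Ico] at hl
      obtain ⟨l', rfl⟩ : ∃ l', l = k + l' := ⟨l - k, by omega⟩
      have e1 : (2 : ℝ) ^ g₀ kw (k + l') * (2 ^ ⌊ζ₀ * J⌋₊ * 2 ^ ⌊o kn * J⌋₊ / 2 ^ g₀ kn (k + l')) /
          2 ^ g₀ kw (k + u) = 2 ^ ((g₀ kw (k + l') : ℝ) + ⌊ζ₀ * J⌋₊ + ⌊o kn * J⌋₊ -
            g₀ kn (k + l') - g₀ kw (k + u)) := by
        rw [Real.rpow_sub two_pos, Real.rpow_sub two_pos, Real.rpow_add two_pos,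
          Real.rpow_add two_pos, Real.rpow_natCast, Real.rpow_natCast, Real.rpow_natCast,
          Real.rpow_natCast, Real.rpow_natCast]
        ring
      rw [e1]
      refine Real.rpow_le_rpow_of_exponent_le one_le_two ?_
      have t1 := (hWB.sds kw hkw (k + l') (by omega)).2
      have t2 := (hWB.sds kn hkn (k + l') (by omega)).1
      have t3 := (hWB.sds kw hkw (k + u) (by omega)).1
      have t4 := (hWB.hσ kw hkw).2
      have t5 := (hWB.hσ kn hkn).2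
      have t6 : (⌊ζ₀ * J⌋₊ : ℝ) ≤ ζ₀ * J := Nat.floor_le (by positivity)
      have t7 : (⌊o kn * J⌋₊ : ℝ) ≤ o kn * J :=
        Nat.floor_le (mul_nonneg (hWB.ho kn hkn).1 hJ0)
      have t8 := mul_le_mul_of_nonneg_right (hvn l' (by omega)) hJ0
      have t9 := mul_le_mul_of_nonneg_right t4 hJ0
      have t10 := mul_le_mul_of_nonneg_right t5 hJ0
      nlinarith
    have h3 : (∑ l ∈ Ico k (k + u + 1), 2 ^ g₀ kw l *
        (2 ^ ⌊ζ₀ * J⌋₊ * 2 ^ ⌊o kn * J⌋₊ / 2 ^ g₀ kn l)) / 2 ^ g₀ kw (k + u) ≤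
        ((u : ℝ) + 1) * (2 : ℝ) ^ ((2 * ζ₀ + 2 * ηm) * J + o nv * J - lv nv (k + u) * J) := by
      rw [Finset.sum_div]
      refine (Finset.sum_le_sum h2).trans (le_of_eq ?_)
      rw [Finset.sum_const, Nat.card_Ico, nsmul_eq_mul]
      congr 1
      have : k + u + 1 - k = u + 1 := by omega
      rw [this]
      push_cast
      ring
    have h4 := vel_num (u := u) (ζ₀ := ζ₀) (ζ := ζ) (ι := ι) (zt := zt) (ηm := ηm) hJ0 hηζ hζJ hι
      hzt hζ1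
    rw [mul_div_assoc]
    refine (mul_le_mul_of_nonneg_left h3 (by positivity)).trans ?_
    have e2 : (2 : ℝ) ^ ((2 * ζ₀ + 2 * ηm) * J + o nv * J - lv nv (k + u) * J) =
        2 ^ ((2 * ζ₀ + 2 * ηm) * J) * 2 ^ (o nv * J - lv nv (k + u) * J) := by
      rw [← Real.rpow_add two_pos]
      congr 1
      ring
    rw [e2]
    have h5 : (2 : ℝ) ^ (ζ * J - 2) * 2 ^ (o nv * J - lv nv (k + u) * J) ≤
        2 ^ ⌊ζ * J⌋₊ * 2 ^ ⌊o nv * J⌋₊ / 2 ^ g₀ nv (k + u) := by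
      have e3 : (2 : ℝ) ^ ⌊ζ * J⌋₊ * 2 ^ ⌊o nv * J⌋₊ / 2 ^ g₀ nv (k + u) =
          2 ^ ((⌊ζ * J⌋₊ : ℝ) + ⌊o nv * J⌋₊ - g₀ nv (k + u)) := by
        rw [Real.rpow_sub two_pos, Real.rpow_add two_pos, Real.rpow_natCast, Real.rpow_natCast,
          Real.rpow_natCast]
      rw [e3, ← Real.rpow_add two_pos]
      refine Real.rpow_le_rpow_of_exponent_le one_le_two ?_
      have t1 := (hWB.sds nv hnv (k + u) (by omega)).2
      have t2 := (Nat.lt_floor_add_one (ζ * (J : ℝ))).le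
      have t3 := (Nat.lt_floor_add_one (o nv * (J : ℝ))).le
      linarith
    refine le_trans (le_of_eq ?_) ((mul_le_mul_of_nonneg_right h4 (by positivity)).trans h5)
    ring
  · -- degrees of the closed frame
    intro s l
    unfold fhQ
    split_ifs with h1 h2
    · exact ((hWB.ev kb hkb).ball.degH _ l).trans hDD
    · exact (hdeg l (by omega) h2).2 _
    · rw [MvPolynomial.totalDegree_zero]
      exact Nat.zero_le _
  · intro s l
    unfold fhQ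
    split_ifs with h1 h2
    · exact (hWB.ev kb hkb).ball.depH _ l
    · exact (hdep l (by omega) h2).2 _
    · exact fun b b' _ _ => by rw [map_zero, map_zero]
  · -- degrees of `mu`
    intro s l
    split_ifs
    · exact hmd s l
    · rw [Polynomial.natDegree_C]
      exact Nat.zero_le _
  · -- closed
    intro ω hω j hj
    unfold cmb
    by_cases hjk : j < k
    · simp only [if_pos hjk]
      have h1 := hcl ω hω j hjk
      rw [hgg]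
      exact h1.trans (hspw.trans hs2)
    · simp only [if_neg hjk, Polynomial.eval_C, sub_self, abs_zero]
      positivity
  · -- the size
    intro ω hω j hj
    by_cases hjk : j < k
    · simp only [if_pos hjk]
      have h1 := hcl ω hω j hjk
      have h2 := hga ω hω u le_rfl j (by omega)
      have h3 := hsum (fun l => gnq F c (g₀ kw) G (frQ G GN kb k f) kb kn k (k + l) ω j)
        (2 ^ (ι * J)) ω hω (fun l hl => hga ω hω l hl.le j (by omega))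
      refine le_trans ?_ hpw
      have e1 : (mu (slam F W ω) j).eval (rt F W ω) =
          (gnq F c (g₀ kw) G (frQ G GN kb k f) kb kn k (k + u) ω j +
          ∑ l ∈ range u, la (slam F W ω) l *
            gnq F c (g₀ kw) G (frQ G GN kb k f) kb kn k (k + l) ω j) -
          (gnq F c (g₀ kw) G (frQ G GN kb k f) kb kn k (k + u) ω j +
          ∑ l ∈ range u, la (slam F W ω) l *
            gnq F c (g₀ kw) G (frQ G GN kb k f) kb kn k (k + l) ω j -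
          (mu (slam F W ω) j).eval (rt F W ω)) := by ring
      rw [e1]
      refine (abs_sub _ _).trans (le_trans (add_le_add ((abs_add_le _ _).trans
        (add_le_add h2 h3)) (h1.trans hs1)) (le_of_eq ?_))
      ring
    · simp only [if_neg hjk, Polynomial.eval_C, abs_neg]
      exact (hla ω hω (j - k) (by omega)).trans hzle
  · -- one point
    intro ω ν hω hν hpt j hj
    have hlal : ∀ l < u, la (slam F W ω) l = la (slam F W ν) l := fun l hl => by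
      rw [hlaP ω hω l hl, hlaP ν hν l hl, hpt]
    show |cmb k u (gg ω) (la (slam F W ω)) j - cmb k u (gg ν) (la (slam F W ν)) j| ≤ _
    unfold cmb
    by_cases hjk : j < k
    · rw [if_pos hjk, if_pos hjk]
      have e1 : gg ω u j + ∑ l ∈ range u, la (slam F W ω) l * gg ω l j -
          (gg ν u j + ∑ l ∈ range u, la (slam F W ν) l * gg ν l j) =
          (gg ω u j - gg ν u j) + ∑ l ∈ range u, la (slam F W ω) l * (gg ω l j - gg ν l j) := by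
        have e2 : ∑ l ∈ range u, la (slam F W ν) l * gg ν l j =
            ∑ l ∈ range u, la (slam F W ω) l * gg ν l j :=
          Finset.sum_congr rfl fun l hl => by rw [hlal l (mem_range.1 hl)]
        rw [e2]
        have e3 : ∑ l ∈ range u, la (slam F W ω) l * (gg ω l j - gg ν l j) =
            ∑ l ∈ range u, la (slam F W ω) l * gg ω l j -
            ∑ l ∈ range u, la (slam F W ω) l * gg ν l j := by
          rw [← Finset.sum_sub_distrib]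
          exact Finset.sum_congr rfl fun l _ => by ring
        rw [e3]
        ring
      rw [e1]
      have hxb : ∀ t ≤ u, |gg ω t j - gg ν t j| ≤ 2 ^ (-(x * J)) := by
        intro t ht
        rw [hgg]
        exact hgb ω ν hω hν hpt t ht j hjk
      refine (abs_add_le _ _).trans ((add_le_add (hxb u le_rfl)
        (hsum _ _ ω hω fun l hl => hxb l hl.le)).trans ?_)
      have h3 : (2 : ℝ) ^ (-(x * J)) ≤ 2 ^ (-(s₁ * J)) := by
        refine Real.rpow_le_rpow_of_exponent_le one_le_two ?_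
        have := mul_le_mul_of_nonneg_right hsx hJ0
        linarith
      have h4 : (2 : ℝ) ^ (-(x * J)) ≤ 1 / 2 ^ ⌊s₁ * J⌋₊ := h3.trans hspw
      have h5 : 1 + u * (2 : ℝ) ^ (zt * J) ≤ 2 ^ ⌊ζ * J⌋₊ := by
        refine le_trans ?_ hpw
        have h6 : (1 : ℝ) ≤ 2 ^ (ι * J) := Real.one_le_rpow one_le_two (by positivity)
        have h7 : 0 ≤ 1 + u * (2 : ℝ) ^ (zt * J) := by positivity
        nlinarith
      calc (2 : ℝ) ^ (-(x * J)) + u * (2 ^ (zt * J) * 2 ^ (-(x * J))) =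
          (1 + u * 2 ^ (zt * J)) * 2 ^ (-(x * J)) := by ring
        _ ≤ 2 ^ ⌊ζ * J⌋₊ * (1 / 2 ^ ⌊s₁ * J⌋₊) := mul_le_mul h5 h4 (by positivity)
            (by positivity)
        _ = _ := by ring
    · rw [if_neg hjk, if_neg hjk, hlal (j - k) (by omega), sub_self, abs_zero]
      positivity

end Pool.T4E
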