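import Pool.Agent.H17.T4.Piv

/-!
# A closed combination of gradients: the end at one pivot, two families of balls

`piv_end2`: `piv_end` where the gradients and the velocities are given by a family of balls for the
places up to `k + f`, and the end is run with a second family of balls for the places up to `k + u`.
-/

set_option autoImplicit false

namespace Pool.T4E

open Finset Real MvPolynomial
open Pool.Agent.H49.Ent Pool.Agent.H32.Dense Pool.STK Pool.KA Pool.KSAT Pool.K2S Pool.PB Pool.S6C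
open Pool.GEN Pool.CHT Pool.CHX Pool.ISO Pool.D2R
open Pool.END16 (cvg)
open Pool.PB.Trl (rt rt_mem t_rt)
open Pool.LBT (ThrOf)

variable {m J : ℕ}

/-- The change of the units. -/
theorem cvg_unit (c : ℕ → Fin m) (i : ℕ) (g₁ g₂ : ℕ → ℕ)
    (Q : ℕ → MvPolynomial (Option (Fin m)) ℝ) (x : Option (Fin m) → ℝ) (g : ℕ → ℝ) (τ : ℝ)
    (V : Option (Fin m) → ℝ) :
    cvg c i g₂ Q x (fun j => 2 ^ g₁ j * 2 ^ g₂ i / (2 ^ g₁ i * 2 ^ g₂ j) * g j) τ V =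
      cvg c i g₁ Q x g τ V := by
  unfold cvg
  congr 2
  rw [Finset.mul_sum, Finset.mul_sum]
  refine Finset.sum_congr rfl fun j _ => ?_
  field_simp

/-- **The end at one pivot**, two families. -/
theorem piv_end2 (m D D' k f u : ℕ) (hD : 1 ≤ D) (hDD : D ≤ D') (huf : u ≤ f) :
    ∃ C : ℕ, 10 ≤ C ∧ ∀ {S : PCl m}
    {P : List (Fin m) × Fin m → ℝ → ℝ → ℝ} {θ : ℝ} {c : ℕ → Fin m}
    {C₀ a' Eb ηm ζ₀ ζ ι zt x : ℝ} {o η σ : ℕ → ℝ} {lv : ℕ → ℕ → ℝ} {Dr N M kb kw kn nv : ℕ}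
    {w a : ℚ} {q₁ s₁ h h₂ e : ℝ}, ThrOf (chsys m θ) S P → TmH S →
    Set.InjOn c (Set.Iio (k + f + 1)) → kb ≤ N → kw ≤ N → kn ≤ N → nv ≤ N →
    o kw ≤ w → w ≤ o kw + ζ₀ → 0 ≤ w → w < 1 → 0 < ζ₀ → C₀ * ηm ≤ ζ₀ → 0 ≤ ι → 0 ≤ zt →
    C * (ι + zt + ζ₀) ≤ ζ → PivN P θ c k u C Eb o lv kw nv w a q₁ s₁ h h₂ e ζ → s₁ ≤ x →
    (∀ l ≤ u, o kn - lv kn (k + l) + lv kw (k + l) + lv nv (k + u) - lv kw (k + u) ≤
      o nv + ζ₀) →
    ∃ δ : ℝ, 0 < δ ∧ Bas S (fun J F A => ∀ (z : ℕ → ℕ → ℕ) (κ κ₁ : ℝ) (b b₁ : ℕ → ℕ → ℝ)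
      (B B₁ : F.Ω → Prop) (g₂ g₀ : ℕ → ℕ → ℕ)
      (G₂ G : ℕ → PtT F → ℕ → MvPolynomial (Option (Fin m)) ℝ)
      (H₂ H : ℕ → LnT F → ℕ → MvPolynomial (Option (Fin m)) ℝ) (jq jT W Dr₁ M₁ : ℕ)
      (C₁ a₁ Eb₁ : ℝ) (z₁ : ℕ → ℕ → ℕ),
      WinB F c (k + u) D Dr N M C₀ a' Eb ηm o η σ lv b κ z B g₂ G₂ H₂ →
      WinB F c (k + f) D Dr₁ N M₁ C₁ a₁ Eb₁ ηm o η σ lv b₁ κ₁ z₁ B₁ g₀ G H →
      Sub B A → jq ≤ M → jT ≤ M → (z kw jq : ℝ) ≤ q₁ * J →
      ⌊o kw * J⌋₊ + z kw jT ≤ ⌊(a : ℝ) * J⌋₊ →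
      (a : ℝ) * J ≤ ⌊o kw * J⌋₊ + z kw jT + ζ₀ * J + 2 → ⌊o kb * J⌋₊ ≤ W →
      ⌊o kw * J⌋₊ ≤ W → W ≤ ⌊(w : ℝ) * J⌋₊ → W ≤ ⌊o kw * J⌋₊ + z kw jq →
      ∀ (A' : F.Ω → Prop) (GN : PtT F → ℕ → MvPolynomial (Option (Fin m)) ℝ)
        (HN : LnT F → ℕ → MvPolynomial (Option (Fin m)) ℝ) (κQ : F.Ω → ℕ → ℝ)
        (la : LnT F → ℕ → ℝ) (laP : PtT F → ℕ → ℝ) (mu : LnT F → ℕ → Polynomial ℝ), Sub A' B → Sub A' B₁ →
      ROutB F c (k + u) ⌊o kw * J⌋₊ ⌊ζ₀ * J⌋₊ (g₂ kw) A' (G₂ kw) (H₂ kw) →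
      ROutB F c (k + f) ⌊o kn * J⌋₊ ⌊ζ₀ * J⌋₊ (g₀ kn) A' (G kn) (H kn) →
      -- the labels
      (∀ l, k ≤ l → l ≤ k + f → (∀ y, (GN y l).totalDegree ≤ D') ∧
        ∀ s, (HN s l).totalDegree ≤ D') →
      (∀ l, k ≤ l → l ≤ k + f → (∀ y, DepC c l (GN y l)) ∧ ∀ s, DepC c l (HN s l)) →
      (∀ l, k ≤ l → l ≤ k + f → ∀ ω, A' ω → GN (ptr F J ω) l = HN (slam F ⌊o kw * J⌋₊ ω) l) →
      (∀ ω, A' ω → ∀ l ≤ k + u, ∀ b, NBx c (G₂ kw (ptr F J ω)) (g₂ kw) ⌊o kw * J⌋₊ (F.t ω) l b →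
        |eval b (frQ G GN kb k f (ptr F J ω) l) + κQ ω l - eval b (G₂ kw (ptr F J ω) l)| ≤
          2 ^ ⌊ζ * J⌋₊ / 2 ^ g₂ kw l) →
      -- the gradients
      (∀ ω, A' ω → ∀ t ≤ u, ∀ i < k + t,
        |gnq F c (g₀ kw) G (frQ G GN kb k f) kb kn k (k + t) ω i| ≤ 2 ^ (ι * J)) →
      (∀ ω ν, A' ω → A' ν → ptr F J ω = ptr F J ν → ∀ t ≤ u, ∀ i < k,
        |gnq F c (g₀ kw) G (frQ G GN kb k f) kb kn k (k + t) ω i -
          gnq F c (g₀ kw) G (frQ G GN kb k f) kb kn k (k + t) ν i| ≤ 2 ^ (-(x * J))) →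
      -- the closed combination
      (∀ ω, A' ω → ∀ l < u, |la (slam F W ω) l| ≤ 2 ^ (zt * J)) →
      (∀ ω, A' ω → ∀ l < u, la (slam F W ω) l = laP (ptr F J ω) l) →
      (∀ s i, (mu s i).natDegree ≤ D' + 1) →
      (∀ ω, A' ω → ∀ i < k,
        |gnq F c (g₀ kw) G (frQ G GN kb k f) kb kn k (k + u) ω i +
          ∑ l ∈ range u, la (slam F W ω) l *
            gnq F c (g₀ kw) G (frQ G GN kb k f) kb kn k (k + l) ω i -
          (mu (slam F W ω) i).eval (rt F W ω)| ≤ 2 ^ (-(s₁ * J))) →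
      Pe F.p A' ≤ Real.exp (-(δ * J)) * Pe F.p A) := by
  obtain ⟨Ca, hCa, had⟩ := Pool.END16.ad_noY m (D' + 1) D D' (k + u) hD
  refine ⟨⌈Ca⌉₊ + 10, by omega, ?_⟩
  have hCC : Ca ≤ ((⌈Ca⌉₊ + 10 : ℕ) : ℝ) := by
    push_cast
    have := Nat.le_ceil Ca
    linarith
  obtain ⟨C, hC⟩ : ∃ C : ℕ, C = ⌈Ca⌉₊ + 10 := ⟨_, rfl⟩
  have hC10 : (10 : ℝ) ≤ C := by
    rw [hC]
    push_cast
    have : (0 : ℝ) ≤ ⌈Ca⌉₊ := Nat.cast_nonneg _
    linarith
  rw [← hC] at hCC ⊢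
  intro S P θ c C₀ a' Eb ηm ζ₀ ζ ι zt x o η σ lv Dr N M kb kw kn nv w a q₁ s₁ h h₂ e hP hT hc
    hkb hkw hkn hnv how1 how2 hw hw1 hζ₀ hCη hι hzt hζ hN hsx hvn
  have hζ1 : 10 * (ι + zt + ζ₀) ≤ ζ :=
    (mul_le_mul_of_nonneg_right hC10 (by linarith)).trans hζ
  have hζ0 : 0 < ζ := by linarith
  have hζζ : ζ₀ ≤ ζ := by linarith
  have hCaζ : Ca * ζ ≤ C * ζ := mul_le_mul_of_nonneg_right hCC hζ0.le
  obtain ⟨δ, hδ, had⟩ := had (S := S) (P := P) (θ := θ) (c := c) (C₀ := C₀) (a' := a') (Eb := Eb)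
    (ηm := ηm) (ζ := ζ) (o := o) (η := η) (σ := σ) (lv := lv) (r := k + u) (Dr := Dr) (N := N)
    (M := M) (k₀ := kw) (n := nv) (a := a) (w := w) (q₁ := q₁) (s₁ := s₁) (h := h) (h₂ := h₂)
    (e := e) hP hT (hc.mono fun y hy => by
      rw [Set.mem_Iio] at hy ⊢
      omega) le_rfl hkw hnv how1 (by linarith) hw hN.wa hN.a1 hw1 hN.ew hN.h0 hN.h20
    hζ0 (by linarith) hN.q0 hN.b1 (by linarith [hN.hE]) (by linarith [hN.g1])
    (by linarith [hN.g2]) (by linarith [hN.g3]) (by linarith [hN.g4])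
    (fun l hl => by linarith [hN.g5 l hl]) (fun l hl => by linarith [hN.g6 l hl]) hN.g7
  refine ⟨δ, hδ, ?_⟩
  obtain ⟨J₁, hJ₁⟩ := exists_nat_gt (((u : ℝ) + 10) / ζ₀)
  refine Bas.mono J₁ had ?_
  intro J hJ F A hA z κ κ₁ b b₁ B B₁ g₂ g₀ G₂ G H₂ H jq jT W Dr₁ M₁ C₁ a₁ Eb₁ z₁ hWB₂ hWB hBA hjq
    hjT hzq hzT1 hzT2 hbW hwW hWw hWq A' GN HN κQ la laP mu hA'₂ hA' hR₀ hRn hdeg hdep hcls hnear hga hgb hla hlaP hmd hcl
  have hJ0 : (0 : ℝ) ≤ J := Nat.cast_nonneg J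
  have hζJ : (u : ℝ) + 10 ≤ ζ₀ * J := by
    have : ((u : ℝ) + 10) / ζ₀ < J := hJ₁.trans_le (by exact_mod_cast hJ)
    rw [div_lt_iff₀ hζ₀] at this
    linarith
  have hu0 : (0 : ℝ) ≤ u := Nat.cast_nonneg u
  have hηm0 : 0 ≤ ηm := (hWB.hη kw hkw).1.trans (hWB.hη kw hkw).2
  have hηζ : ηm ≤ ζ₀ := (le_mul_of_one_le_left hηm0 hWB₂.C1).trans hCη
  have hWJ : W ≤ J := by
    have h1 : ((W : ℕ) : ℝ) ≤ (J : ℕ) := by
      have t1 : ((W : ℕ) : ℝ) ≤ (⌊(w : ℝ) * J⌋₊ : ℕ) := by exact_mod_cast hWw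
      have hwR : (0 : ℝ) ≤ w := by exact_mod_cast hw
      have hw1R : (w : ℝ) < 1 := by exact_mod_cast hw1
      have t2 : (⌊(w : ℝ) * J⌋₊ : ℝ) ≤ w * J := Nat.floor_le (mul_nonneg hwR hJ0)
      nlinarith
    exact_mod_cast h1
  obtain ⟨gg, hgg⟩ : ∃ gg : F.Ω → ℕ → ℕ → ℝ, gg = fun ω t =>
      gnq F c (g₀ kw) G (frQ G GN kb k f) kb kn k (k + t) ω := ⟨_, rfl⟩
  -- the powers
  obtain ⟨E, hE⟩ : ∃ E : ℝ, E = 2 ^ (2 * ηm * J) := ⟨_, rfl⟩
  have hE1 : 1 ≤ E := by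
    rw [hE]
    exact Real.one_le_rpow one_le_two (by positivity)
  have hpwE : E * ((2 : ℝ) ^ (ι * J) * (1 + u * 2 ^ (zt * J)) + 1) ≤ 2 ^ ⌊ζ * J⌋₊ := by
    have h1 := vel_num (u := u) (ζ₀ := ζ₀) (ζ := ζ) (ι := ι) (zt := zt) (ηm := ηm) hJ0 hηζ hζJ hι
      hzt hζ1
    have h2 : (2 : ℝ) ^ (ζ * J - 2) ≤ 2 ^ ⌊ζ * J⌋₊ := by
      rw [← Real.rpow_natCast]
      exact Real.rpow_le_rpow_of_exponent_le one_le_two (by
        have := (Nat.lt_floor_add_one (ζ * (J : ℝ))).le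
        linarith)
    refine le_trans ?_ (h1.trans h2)
    have h3 : E ≤ 2 ^ ((2 * ζ₀ + 2 * ηm) * J) := by
      rw [hE]
      refine Real.rpow_le_rpow_of_exponent_le one_le_two ?_
      nlinarith
    have h4 : E ≤ ((u : ℝ) + 1) * 2 ^ ((2 * ζ₀ + 2 * ηm) * J) :=
      h3.trans (le_mul_of_one_le_left (by positivity) (by linarith))
    have h5 : (0 : ℝ) < 2 ^ (ι * J) := by positivity
    have h6 : (0 : ℝ) < 2 ^ (zt * J) := by positivity
    calc E * ((2 : ℝ) ^ (ι * J) * (1 + u * 2 ^ (zt * J)) + 1) ≤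
        E * ((1 + u * (2 : ℝ) ^ (zt * J)) * (1 + (2 : ℝ) ^ (ι * J))) :=
          mul_le_mul_of_nonneg_left (by nlinarith) (by linarith)
      _ = (1 + u * (2 : ℝ) ^ (zt * J)) * (1 + (2 : ℝ) ^ (ι * J)) * E := by ring
      _ ≤ _ := mul_le_mul_of_nonneg_left h4 (by positivity)
  have hspw : (2 : ℝ) ^ (-(s₁ * J)) ≤ 1 / 2 ^ ⌊s₁ * J⌋₊ :=
    (pw_floor (x := s₁) (J := (J : ℝ))).resolve_right (by
      have := mul_nonneg hN.s0 hJ0
      linarith)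
  have hs1 : (2 : ℝ) ^ (-(s₁ * J)) ≤ 1 := hspw.trans (by
    rw [div_le_one (by positivity)]
    exact one_le_pow₀ one_le_two)
  have hzp : (0 : ℝ) < 2 ^ (zt * J) := by positivity
  have hip : (0 : ℝ) < 2 ^ (ι * J) := by positivity
  -- sums over the earlier targets
  have hsum : ∀ (f' : ℕ → ℝ) (X : ℝ) (ω : F.Ω), A' ω → (∀ l < u, |f' l| ≤ X) →
      |∑ l ∈ range u, la (slam F W ω) l * f' l| ≤ u * (2 ^ (zt * J) * X) := by
    intro f' X ω hω hf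
    refine (Finset.abs_sum_le_sum_abs _ _).trans ?_
    refine (Finset.sum_le_sum (g := fun _ => 2 ^ (zt * J) * X) fun l hl => ?_).trans
      (le_of_eq ?_)
    · rw [mem_range] at hl
      rw [abs_mul]
      exact mul_le_mul (hla ω hω l hl) (hf l hl) (abs_nonneg _) (by positivity)
    · rw [Finset.sum_const, card_range, nsmul_eq_mul]
  have hcls' : ∀ ω, A' ω → ∀ l ≤ k + f, frQ G GN kb k f (ptr F J ω) l =
      fhQ H HN kb k f ⌊o kb * J⌋₊ ⌊o kw * J⌋₊ W (slam F W ω) l := by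
    intro ω hω l hl
    unfold frQ fhQ
    split_ifs with h1
    · rw [Pool.AVG57.upw_slam F hbW hWJ]
      exact (hWB.ev kb hkb).cls ω (hA' ω hω) l (by omega)
    · rw [Pool.AVG57.upw_slam F hwW hWJ]
      exact hcls l (by omega) hl ω hω
  have hfd : ∀ y l, (frQ G GN kb k f y l).totalDegree ≤ D' := by
    intro y l
    unfold frQ
    split_ifs with h1 h2
    · exact ((hWB.ev kb hkb).ball.degG y l).trans hDD
    · exact (hdeg l (by omega) h2).1 y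
    · rw [MvPolynomial.totalDegree_zero]
      exact Nat.zero_le _
  have hfp : ∀ y l, DepC c l (frQ G GN kb k f y l) := by
    intro y l
    unfold frQ
    split_ifs with h1 h2
    · exact (hWB.ev kb hkb).ball.depG y l
    · exact (hdep l (by omega) h2).1 y
    · exact fun b b' _ _ => by rw [map_zero, map_zero]
  obtain ⟨τ, hτ⟩ : ∃ τ : F.Ω → ℝ, ∀ ω, ∀ (V : Option (Fin m) → ℝ)
    (ε : ℕ → ℝ) (U U' : ℝ), 0 ≤ U → 0 ≤ U' →
    (∀ l ≤ k + u, |V (some (c l)) - dd (G kn (ptr F J ω) l) (bt F ω) V| ≤ ε l) →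
    (∀ t ≤ u, ∀ l < k + t, k ≤ l → |gg ω t l| ≤ U) →
    (∀ l < u, |la (slam F W ω) l| ≤ U') →
    |V (some (c (k + u))) - cvg c (k + u) (g₀ kw) (frQ G GN kb k f (ptr F J ω)) (bt F ω)
      (cmb k u (gg ω) (la (slam F W ω))) (τ ω) V| ≤
      (1 + u * U') * (1 + U) * (∑ l ∈ Ico k (k + u + 1), 2 ^ g₀ kw l * ε l) /
        2 ^ g₀ kw (k + u) := by
    have h1 := fun ω => vel_comb (F := F) (c := c) (G := G) (Q := frQ G GN kb k f) (kb := kb)
      (kn := kn) (k := k) (u := u) (hc.mono fun y hy => by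
        rw [Set.mem_Iio] at hy ⊢
        omega) (g₀ kw) (fun y l => (hWB.ev kb hkb).ball.depG y l)
      (fun y l => (hWB.ev kn hkn).ball.depG y l) hfp (fun y l hl => if_pos hl) ω
      (la (slam F W ω))
    choose τ hτ using h1
    rw [hgg]
    exact ⟨τ, hτ⟩
  obtain ⟨cst, hcst⟩ : ∃ cst : ℕ → ℝ, cst = fun j =>
      2 ^ g₀ kw j * 2 ^ g₂ kw (k + u) / (2 ^ g₀ kw (k + u) * 2 ^ g₂ kw j) := ⟨_, rfl⟩
  have hc0 : ∀ j, 0 < cst j := fun j => by rw [hcst]; positivity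
  have hcE : ∀ j ≤ k + u, cst j ≤ E := by
    intro j hj
    have e1 : cst j = 2 ^ ((g₀ kw j : ℝ) + g₂ kw (k + u) - (g₀ kw (k + u) + g₂ kw j)) := by
      rw [hcst, Real.rpow_sub two_pos, Real.rpow_add two_pos, Real.rpow_add two_pos,
        Real.rpow_natCast, Real.rpow_natCast, Real.rpow_natCast, Real.rpow_natCast]
    rw [e1, hE]
    refine Real.rpow_le_rpow_of_exponent_le one_le_two ?_
    have t1 := (hWB.sds kw hkw j (by omega)).2
    have t2 := (hWB.sds kw hkw (k + u) (by omega)).1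
    have t3 := (hWB₂.sds kw hkw j (by omega)).1
    have t4 := (hWB₂.sds kw hkw (k + u) le_rfl).2
    have t5 := (hWB.hσ kw hkw).2
    have t6 := mul_le_mul_of_nonneg_right t5 hJ0
    nlinarith
  have hdl0 : ∀ x X : ℝ, ∀ j ≤ k + u, |x| ≤ X → |cst j * x| ≤ E * X := by
    intro x X j hj hx
    rw [abs_mul, abs_of_pos (hc0 j)]
    exact mul_le_mul (hcE j hj) hx (abs_nonneg _) (by linarith)
  obtain ⟨mu', hmu'⟩ : ∃ mu' : LnT F → ℕ → Polynomial ℝ, mu' = fun s l =>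
      if l < k then mu s l else Polynomial.C (-la s (l - k)) := ⟨_, rfl⟩
  -- the three facts in the units of the first family
  have f1 : ∀ ω, A' ω → ∀ j < k + u, |cmb k u (gg ω) (la (slam F W ω)) j -
      (mu' (slam F W ω) j).eval (rt F W ω)| ≤ 1 / 2 ^ ⌊s₁ * J⌋₊ := by
    intro ω hω j hj
    rw [hmu']
    unfold cmb
    by_cases hjk : j < k
    · simp only [if_pos hjk]
      have h1 := hcl ω hω j hjk
      rw [hgg]
      exact h1.trans hspw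
    · simp only [if_neg hjk, Polynomial.eval_C, sub_self, abs_zero]
      positivity
  have f2 : ∀ ω, A' ω → ∀ j < k + u, |(mu' (slam F W ω) j).eval (rt F W ω)| ≤
      (2 : ℝ) ^ (ι * J) * (1 + u * 2 ^ (zt * J)) + 1 := by
    intro ω hω j hj
    rw [hmu']
    by_cases hjk : j < k
    · simp only [if_pos hjk]
      have h1 := hcl ω hω j hjk
      have h2 := hga ω hω u le_rfl j (by omega)
      have h3 := hsum (fun l => gnq F c (g₀ kw) G (frQ G GN kb k f) kb kn k (k + l) ω j)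
        (2 ^ (ι * J)) ω hω (fun l hl => hga ω hω l hl.le j (by omega))
      have e1 : (mu (slam F W ω) j).eval (rt F W ω) =
          (gnq F c (g₀ kw) G (frQ G GN kb k f) kb kn k (k + u) ω j +
          ∑ l ∈ range u, la (slam F W ω) l *
            gnq F c (g₀ kw) G (frQ G GN kb k f) kb kn k (k + l) ω j) -
          (gnq F c (g₀ kw) G (frQ G GN kb k f) kb kn k (k + u) ω j +
          ∑ l ∈ range u, la (slam F W ω) l *
            gnq F c (g₀ kw) G (frQ G GN kb k f) kb kn k (k + l) ω j -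
          (mu (slam F W ω) j).eval (rt F W ω)) := by ring
      rw [e1]
      refine (abs_sub _ _).trans (le_trans (add_le_add ((abs_add_le _ _).trans
        (add_le_add h2 h3)) (h1.trans hs1)) (le_of_eq ?_))
      ring
    · simp only [if_neg hjk, Polynomial.eval_C, abs_neg]
      refine (hla ω hω (j - k) (by omega)).trans ?_
      have h4 : (1 : ℝ) ≤ u := by
        have : 1 ≤ u := by omega
        exact_mod_cast this
      have h6 : (1 : ℝ) ≤ 2 ^ (ι * J) := Real.one_le_rpow one_le_two (by positivity)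
      have h7 : (2 : ℝ) ^ (zt * J) ≤ u * 2 ^ (zt * J) := le_mul_of_one_le_left hzp.le h4
      have h8 : (0 : ℝ) ≤ u * 2 ^ (zt * J) := by positivity
      nlinarith
  have f3 : ∀ ω ν, A' ω → A' ν → ptr F J ω = ptr F J ν → ∀ j < k + u,
      |cmb k u (gg ω) (la (slam F W ω)) j - cmb k u (gg ν) (la (slam F W ν)) j| ≤
        (1 + u * 2 ^ (zt * J)) * (1 / 2 ^ ⌊s₁ * J⌋₊) := by
    intro ω ν hω hν hpt j hj
    have hlal : ∀ l < u, la (slam F W ω) l = la (slam F W ν) l := fun l hl => by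
      rw [hlaP ω hω l hl, hlaP ν hν l hl, hpt]
    unfold cmb
    by_cases hjk : j < k
    · rw [if_pos hjk, if_pos hjk]
      have e1 : gg ω u j + ∑ l ∈ range u, la (slam F W ω) l * gg ω l j -
          (gg ν u j + ∑ l ∈ range u, la (slam F W ν) l * gg ν l j) =
          (gg ω u j - gg ν u j) + ∑ l ∈ range u, la (slam F W ω) l * (gg ω l j - gg ν l j) := by
        have e2 : ∑ l ∈ range u, la (slam F W ν) l * gg ν l j =
            ∑ l ∈ range u, la (slam F W ω) l * gg ν l j :=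
          Finset.sum_congr rfl fun l hl => by rw [hlal l (mem_range.1 hl)]
        rw [e2]
        have e3 : ∑ l ∈ range u, la (slam F W ω) l * (gg ω l j - gg ν l j) =
            ∑ l ∈ range u, la (slam F W ω) l * gg ω l j -
            ∑ l ∈ range u, la (slam F W ω) l * gg ν l j := by
          rw [← Finset.sum_sub_distrib]
          exact Finset.sum_congr rfl fun l _ => by ring
        rw [e3]
        ring
      rw [e1]
      have hxb : ∀ t ≤ u, |gg ω t j - gg ν t j| ≤ 2 ^ (-(x * J)) := by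
        intro t ht
        rw [hgg]
        exact hgb ω ν hω hν hpt t ht j hjk
      refine (abs_add_le _ _).trans ((add_le_add (hxb u le_rfl)
        (hsum _ _ ω hω fun l hl => hxb l hl.le)).trans ?_)
      have h3 : (2 : ℝ) ^ (-(x * J)) ≤ 2 ^ (-(s₁ * J)) := by
        refine Real.rpow_le_rpow_of_exponent_le one_le_two ?_
        have := mul_le_mul_of_nonneg_right hsx hJ0
        linarith
      have h4 : (2 : ℝ) ^ (-(x * J)) ≤ 1 / 2 ^ ⌊s₁ * J⌋₊ := h3.trans hspw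
      calc (2 : ℝ) ^ (-(x * J)) + u * (2 ^ (zt * J) * 2 ^ (-(x * J))) =
          (1 + u * 2 ^ (zt * J)) * 2 ^ (-(x * J)) := by ring
        _ ≤ _ := mul_le_mul_of_nonneg_left h4 (by positivity)
    · rw [if_neg hjk, if_neg hjk, hlal (j - k) (by omega), sub_self, abs_zero]
      positivity
  have hZ1 : (1 : ℝ) ≤ (2 : ℝ) ^ (ι * J) * (1 + u * 2 ^ (zt * J)) + 1 := by
    have : 0 ≤ (2 : ℝ) ^ (ι * J) * (1 + u * 2 ^ (zt * J)) := by positivity
    linarith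
  have hEp : E ≤ 2 ^ ⌊ζ * J⌋₊ := (le_mul_of_one_le_right (by linarith) hZ1).trans hpwE
  refine hA z κ b B g₂ G₂ H₂ jq jT W hWB₂ hBA hjq hjT hzq hzT1 (by
    have := mul_le_mul_of_nonneg_right hζζ hJ0
    linarith) hwW hWw hWq A' (frQ G GN kb k f)
    (fhQ H HN kb k f ⌊o kb * J⌋₊ ⌊o kw * J⌋₊ W) κQ
    (fun ω j => cst j * cmb k u (gg ω) (la (slam F W ω)) j) τ
    (fun s l => Polynomial.C (cst l) * mu' s l) hA'₂
    (hR₀.mono (Nat.floor_le_floor (mul_le_mul_of_nonneg_right hζζ hJ0))) ?_ hfd hfp ?_ ?_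
    (fun ω hω l hl => hcls' ω hω l (by omega)) hnear ?_ ?_ ?_ ?_
  · -- the velocities
    intro ω ν hω hν hpt
    have h1 := hτ ω (bd F ν) (fun l => 2 ^ ⌊ζ₀ * J⌋₊ * 2 ^ ⌊o kn * J⌋₊ / 2 ^ g₀ kn l)
      (2 ^ (ι * J)) (2 ^ (zt * J)) hip.le hzp.le (fun l hl =>
        ROut1.vel hRn ω ν hω hν hpt l (by omega))
      (fun t ht l hl _ => by
        rw [hgg]
        exact hga ω hω t ht l hl) (hla ω hω)
    have e0 : cvg c (k + u) (g₂ kw) (frQ G GN kb k f (ptr F J ω)) (bt F ω)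
        (fun j => cst j * cmb k u (gg ω) (la (slam F W ω)) j) (τ ω) (bd F ν) =
        cvg c (k + u) (g₀ kw) (frQ G GN kb k f (ptr F J ω)) (bt F ω)
          (cmb k u (gg ω) (la (slam F W ω))) (τ ω) (bd F ν) := by
      rw [hcst]
      exact cvg_unit c (k + u) (g₀ kw) (g₂ kw) _ _ _ _ _
    show |bd F ν (some (c (k + u))) - cvg c (k + u) (g₂ kw) (frQ G GN kb k f (ptr F J ω)) (bt F ω)
        (fun j => cst j * cmb k u (gg ω) (la (slam F W ω)) j) (τ ω) (bd F ν)| ≤ _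
    rw [e0]
    refine h1.trans ?_
    -- the errors
    have h2 : ∀ l ∈ Ico k (k + u + 1), 2 ^ g₀ kw l *
        (2 ^ ⌊ζ₀ * J⌋₊ * 2 ^ ⌊o kn * J⌋₊ / 2 ^ g₀ kn l) / 2 ^ g₀ kw (k + u) ≤
        (2 : ℝ) ^ ((2 * ζ₀ + 2 * ηm) * J + o nv * J - lv nv (k + u) * J) := by
      intro l hl
      rw [mem_Ico] at hl
      obtain ⟨l', rfl⟩ : ∃ l', l = k + l' := ⟨l - k, by omega⟩
      have e1 : (2 : ℝ) ^ g₀ kw (k + l') * (2 ^ ⌊ζ₀ * J⌋₊ * 2 ^ ⌊o kn * J⌋₊ / 2 ^ g₀ kn (k + l')) /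
          2 ^ g₀ kw (k + u) = 2 ^ ((g₀ kw (k + l') : ℝ) + ⌊ζ₀ * J⌋₊ + ⌊o kn * J⌋₊ -
            g₀ kn (k + l') - g₀ kw (k + u)) := by
        rw [Real.rpow_sub two_pos, Real.rpow_sub two_pos, Real.rpow_add two_pos,
          Real.rpow_add two_pos, Real.rpow_natCast, Real.rpow_natCast, Real.rpow_natCast,
          Real.rpow_natCast, Real.rpow_natCast]
        ring
      rw [e1]
      refine Real.rpow_le_rpow_of_exponent_le one_le_two ?_
      have t1 := (hWB.sds kw hkw (k + l') (by omega)).2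
      have t2 := (hWB.sds kn hkn (k + l') (by omega)).1
      have t3 := (hWB.sds kw hkw (k + u) (by omega)).1
      have t4 := (hWB.hσ kw hkw).2
      have t5 := (hWB.hσ kn hkn).2
      have t6 : (⌊ζ₀ * J⌋₊ : ℝ) ≤ ζ₀ * J := Nat.floor_le (by positivity)
      have t7 : (⌊o kn * J⌋₊ : ℝ) ≤ o kn * J :=
        Nat.floor_le (mul_nonneg (hWB.ho kn hkn).1 hJ0)
      have t8 := mul_le_mul_of_nonneg_right (hvn l' (by omega)) hJ0
      have t9 := mul_le_mul_of_nonneg_right t4 hJ0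
      have t10 := mul_le_mul_of_nonneg_right t5 hJ0
      nlinarith
    have h3 : (∑ l ∈ Ico k (k + u + 1), 2 ^ g₀ kw l *
        (2 ^ ⌊ζ₀ * J⌋₊ * 2 ^ ⌊o kn * J⌋₊ / 2 ^ g₀ kn l)) / 2 ^ g₀ kw (k + u) ≤
        ((u : ℝ) + 1) * (2 : ℝ) ^ ((2 * ζ₀ + 2 * ηm) * J + o nv * J - lv nv (k + u) * J) := by
      rw [Finset.sum_div]
      refine (Finset.sum_le_sum h2).trans (le_of_eq ?_)
      rw [Finset.sum_const, Nat.card_Ico, nsmul_eq_mul]
      congr 1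
      have : k + u + 1 - k = u + 1 := by omega
      rw [this]
      push_cast
      ring
    have h4 := vel_num (u := u) (ζ₀ := ζ₀) (ζ := ζ) (ι := ι) (zt := zt) (ηm := ηm) hJ0 hηζ hζJ hι
      hzt hζ1
    rw [mul_div_assoc]
    refine (mul_le_mul_of_nonneg_left h3 (by positivity)).trans ?_
    have e2 : (2 : ℝ) ^ ((2 * ζ₀ + 2 * ηm) * J + o nv * J - lv nv (k + u) * J) =
        2 ^ ((2 * ζ₀ + 2 * ηm) * J) * 2 ^ (o nv * J - lv nv (k + u) * J) := by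
      rw [← Real.rpow_add two_pos]
      congr 1
      ring
    rw [e2]
    have h5 : (2 : ℝ) ^ (ζ * J - 2) * 2 ^ (o nv * J - lv nv (k + u) * J) ≤
        2 ^ ⌊ζ * J⌋₊ * 2 ^ ⌊o nv * J⌋₊ / 2 ^ g₂ nv (k + u) := by
      have e3 : (2 : ℝ) ^ ⌊ζ * J⌋₊ * 2 ^ ⌊o nv * J⌋₊ / 2 ^ g₂ nv (k + u) =
          2 ^ ((⌊ζ * J⌋₊ : ℝ) + ⌊o nv * J⌋₊ - g₂ nv (k + u)) := by
        rw [Real.rpow_sub two_pos, Real.rpow_add two_pos, Real.rpow_natCast, Real.rpow_natCast,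
          Real.rpow_natCast]
      rw [e3, ← Real.rpow_add two_pos]
      refine Real.rpow_le_rpow_of_exponent_le one_le_two ?_
      have t1 := (hWB₂.sds nv hnv (k + u) le_rfl).2
      have t2 := (Nat.lt_floor_add_one (ζ * (J : ℝ))).le
      have t3 := (Nat.lt_floor_add_one (o nv * (J : ℝ))).le
      linarith
    refine le_trans (le_of_eq ?_) ((mul_le_mul_of_nonneg_right h4 (by positivity)).trans h5)
    ring
  · -- degrees of the closed frame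
    intro s l
    unfold fhQ
    split_ifs with h1 h2
    · exact ((hWB.ev kb hkb).ball.degH _ l).trans hDD
    · exact (hdeg l (by omega) h2).2 _
    · rw [MvPolynomial.totalDegree_zero]
      exact Nat.zero_le _
  · intro s l
    unfold fhQ
    split_ifs with h1 h2
    · exact (hWB.ev kb hkb).ball.depH _ l
    · exact (hdep l (by omega) h2).2 _
    · exact fun b b' _ _ => by rw [map_zero, map_zero]
  · -- degrees of `mu`
    intro s l
    refine (Polynomial.natDegree_C_mul_le _ _).trans ?_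
    rw [hmu']
    simp only
    split_ifs
    · exact hmd s l
    · rw [Polynomial.natDegree_C]
      exact Nat.zero_le _
  · -- closed
    intro ω hω j hj
    rw [Polynomial.eval_mul, Polynomial.eval_C, ← mul_sub]
    refine (hdl0 _ _ j hj.le (f1 ω hω j hj)).trans ?_
    rw [mul_one_div]
    exact div_le_div_of_nonneg_right hEp (by positivity)
  · -- the size
    intro ω hω j hj
    rw [Polynomial.eval_mul, Polynomial.eval_C]
    exact (hdl0 _ _ j hj.le (f2 ω hω j hj)).trans hpwE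
  · -- one point
    intro ω ν hω hν hpt j hj
    show |cst j * cmb k u (gg ω) (la (slam F W ω)) j -
      cst j * cmb k u (gg ν) (la (slam F W ν)) j| ≤ _
    rw [← mul_sub]
    refine (hdl0 _ _ j hj.le (f3 ω ν hω hν hpt j hj)).trans ?_
    rw [← mul_assoc, mul_one_div]
    refine div_le_div_of_nonneg_right (le_trans ?_ hpwE) (by positivity)
    refine mul_le_mul_of_nonneg_left ?_ (by linarith)
    have h6 : (1 : ℝ) ≤ 2 ^ (ι * J) := Real.one_le_rpow one_le_two (by positivity)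
    have h7 : 0 ≤ 1 + u * (2 : ℝ) ^ (zt * J) := by positivity
    nlinarith

end Pool.T4E
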