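import Pool.Agent.H16.END.Adz
import Pool.Agent.H23.D2.V0g

/-!
# Followers: the velocity of a combination of targets

`gnq`: the gradient of a target over the charts `Q`, the earlier targets on their charts of the window
`kn` (frame `folN`). `vel_folN`: the velocity of one target in terms of the velocities of the places
below `k`. `vel_comb`: the velocity of a combination of the targets, in the form `cvg` of `ad_noY`.
-/

set_option autoImplicit false

namespace Pool.T4E

open Finset Real MvPolynomial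
open Pool.Agent.H49.Ent Pool.Agent.H32.Dense Pool.STK Pool.KA Pool.KSAT Pool.K2S Pool.PB Pool.S6C
open Pool.GEN Pool.CHT Pool.CHX Pool.ISO Pool.D2R
open Pool.END16 (cvg)

variable {m J : ℕ}

/-- **The frame** (the `folN` of `GfrStmt`): the charts of the window `kb` for the places below `k`,
the charts of the window `kn` for the followers `k, …, i - 1`, the label `GN` for the others. -/
def folN {F : Fam m J} (G : ℕ → PtT F → ℕ → MvPolynomial (Option (Fin m)) ℝ)
    (GN : PtT F → MvPolynomial (Option (Fin m)) ℝ) (kb kn k i : ℕ) :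
    PtT F → ℕ → MvPolynomial (Option (Fin m)) ℝ := fun y l =>
  if l < k then G kb y l else if l < i then G kn y l else GN y

/-- The gradient of the place `i` over the charts `Q`, the places `k ≤ l < i` on their charts of the
window `kn`. -/
noncomputable def gnq (F : Fam m J) (c : ℕ → Fin m) (g : ℕ → ℕ)
    (G : ℕ → PtT F → ℕ → MvPolynomial (Option (Fin m)) ℝ)
    (Q : PtT F → ℕ → MvPolynomial (Option (Fin m)) ℝ) (kb kn k i : ℕ) (ω : F.Ω) (j : ℕ) :
    ℝ := gnh F c i g (folN G (fun y => Q y i) kb kn k i) (G kn) ω j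

/-- The covector in its natural components, with the time component. -/
theorem ncp_sumT {c : ℕ → Fin m} {r : ℕ} (hc : Set.InjOn c (Set.Iio r))
    {ψ : ℕ → MvPolynomial (Option (Fin m)) ℝ} (hdep : ∀ l, DepC c l (ψ l))
    {Q : MvPolynomial (Option (Fin m)) ℝ} (hQ : DepC c r Q) (x : Option (Fin m) → ℝ) :
    ∃ τ : ℝ, ∀ V : Option (Fin m) → ℝ, dd Q x V = τ * V none +
      ∑ j ∈ range r, ncp c r ψ Q x j * (V (some (c j)) - dd (ψ j) x V) := by
  obtain ⟨T, hT0, hT1⟩ := vec_adapt hc hdep x 1 (fun _ => 0) r le_rfl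
  refine ⟨dd Q x T, fun V => ?_⟩
  obtain ⟨U, hU⟩ : ∃ U : Option (Fin m) → ℝ, U = V + (-V none) • T := ⟨_, rfl⟩
  have hU0 : U none = 0 := by
    rw [hU, Pi.add_apply, Pi.smul_apply, hT0, smul_eq_mul]
    ring
  have h1 := ncp_sum hc hdep hQ (x := x) hU0
  have e1 : ∀ R : MvPolynomial (Option (Fin m)) ℝ, dd R x U = dd R x V - V none * dd R x T := by
    intro R
    rw [hU, dd_add, dd_smul]
    ring
  have e2 : ∀ j ∈ range r, U (some (c j)) - dd (ψ j) x U = V (some (c j)) - dd (ψ j) x V := by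
    intro j hj
    have h2 := hT1 j (mem_range.1 hj)
    have e3 : U (some (c j)) = V (some (c j)) - V none * T (some (c j)) := by
      rw [hU, Pi.add_apply, Pi.smul_apply, smul_eq_mul]
      ring
    rw [e1, e3]
    have e4 : V (some (c j)) - V none * T (some (c j)) - (dd (ψ j) x V - V none * dd (ψ j) x T) =
      V (some (c j)) - dd (ψ j) x V - V none * (T (some (c j)) - dd (ψ j) x T) := by ring
    rw [e4, h2, mul_zero, sub_zero]
  rw [e1 Q] at h1
  have h3 : ∑ j ∈ range r, ncp c r ψ Q x j * (U (some (c j)) - dd (ψ j) x U) =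
      ∑ j ∈ range r, ncp c r ψ Q x j * (V (some (c j)) - dd (ψ j) x V) :=
    Finset.sum_congr rfl fun j hj => by rw [e2 j hj]
  rw [h3] at h1
  linarith

section

variable {F : Fam m J} {c : ℕ → Fin m} {G : ℕ → PtT F → ℕ → MvPolynomial (Option (Fin m)) ℝ}

theorem depC_mono {i l : ℕ} (h : i ≤ l) {P : MvPolynomial (Option (Fin m)) ℝ}
    (hP : DepC c i P) : DepC c l P := fun b b' h1 h2 => hP b b' h1 fun l' hl' => h2 l' (by omega)

theorem folN_lt {GN : PtT F → MvPolynomial (Option (Fin m)) ℝ} {kb kn k i l : ℕ} (h : l < k)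
    (y : PtT F) : folN G GN kb kn k i y l = G kb y l := if_pos h

theorem folN_mid {GN : PtT F → MvPolynomial (Option (Fin m)) ℝ} {kb kn k i l : ℕ} (h : k ≤ l)
    (h' : l < i) (y : PtT F) : folN G GN kb kn k i y l = G kn y l := by
  unfold folN
  rw [if_neg (by omega), if_pos h']

theorem folN_ge {GN : PtT F → MvPolynomial (Option (Fin m)) ℝ} {kb kn k i l : ℕ} (h : k ≤ l)
    (h' : i ≤ l) (y : PtT F) : folN G GN kb kn k i y l = GN y := by
  unfold folN
  rw [if_neg (by omega), if_neg (by omega)]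

theorem folN_dep {GN : PtT F → MvPolynomial (Option (Fin m)) ℝ} {kb kn k i : ℕ} (hki : k ≤ i)
    (hb : ∀ y l, DepC c l (G kb y l)) (hn : ∀ y l, DepC c l (G kn y l))
    (hN : ∀ y, DepC c i (GN y)) (y : PtT F) (l : ℕ) : DepC c l (folN G GN kb kn k i y l) := by
  unfold folN
  split_ifs
  · exact hb _ _
  · exact hn _ _
  · exact depC_mono (by omega) (hN _)

/-- **The velocity of one target**, in its natural unit: the earlier targets follow their charts of
the window `kn`. -/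
theorem vel_folN {Q : PtT F → ℕ → MvPolynomial (Option (Fin m)) ℝ} {kb kn k i : ℕ} (hki : k ≤ i)
    (hc : Set.InjOn c (Set.Iio i)) (g : ℕ → ℕ) (hb : ∀ y l, DepC c l (G kb y l))
    (hn : ∀ y l, DepC c l (G kn y l)) (hQd : ∀ y l, DepC c l (Q y l))
    (hQb : ∀ y, ∀ l < k, Q y l = G kb y l) (ω : F.Ω) : ∃ τ : ℝ, ∀ (V : Option (Fin m) → ℝ)
    (ε : ℕ → ℝ) (U : ℝ), (∀ l ≤ i, |V (some (c l)) - dd (G kn (ptr F J ω) l) (bt F ω) V| ≤ ε l) →
    (∀ l < i, k ≤ l → |gnq F c g G Q kb kn k i ω l| ≤ U) →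
    |2 ^ g i * (V (some (c i)) - dd (Q (ptr F J ω) i) (bt F ω) V) -
      (τ * V none + ∑ j ∈ range k, gnq F c g G Q kb kn k i ω j *
        (2 ^ g j * (V (some (c j)) - dd (Q (ptr F J ω) j) (bt F ω) V)))| ≤
      2 ^ g i * ε i + U * ∑ l ∈ Ico k i, 2 ^ g l * ε l := by
  obtain ⟨ψ, hψ⟩ : ∃ ψ, ψ = folN G (fun y => Q y i) kb kn k i (ptr F J ω) := ⟨_, rfl⟩
  have hdep : ∀ l, DepC c l (ψ l) := fun l => by
    rw [hψ]
    exact folN_dep hki hb hn (fun y => hQd y i) _ l
  have hQ : DepC c i (G kn (ptr F J ω) i - ψ i) := fun b b' h1 h2 => by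
    rw [map_sub, map_sub, hn _ i b b' h1 h2, hdep i b b' h1 h2]
  obtain ⟨τ, hτ⟩ := ncp_sumT hc hdep hQ (bt F ω)
  refine ⟨2 ^ g i * τ, fun V ε U hV hU => ?_⟩
  have e0 : Q (ptr F J ω) i = ψ i := by
    rw [hψ, folN_ge hki le_rfl]
  have h1 := hτ V
  have h2 : 2 ^ g i * dd (G kn (ptr F J ω) i - ψ i) (bt F ω) V = 2 ^ g i * τ * V none +
      ∑ j ∈ range i, gnq F c g G Q kb kn k i ω j *
        (2 ^ g j * (V (some (c j)) - dd (ψ j) (bt F ω) V)) := by
    rw [h1, mul_add, Finset.mul_sum, mul_assoc]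
    congr 1
    refine Finset.sum_congr rfl fun j _ => ?_
    unfold gnq gnh
    rw [← hψ]
    field_simp
  have h3 : ∑ j ∈ range i, gnq F c g G Q kb kn k i ω j *
        (2 ^ g j * (V (some (c j)) - dd (ψ j) (bt F ω) V)) =
      ∑ j ∈ range k, gnq F c g G Q kb kn k i ω j *
        (2 ^ g j * (V (some (c j)) - dd (Q (ptr F J ω) j) (bt F ω) V)) +
      ∑ j ∈ Ico k i, gnq F c g G Q kb kn k i ω j *
        (2 ^ g j * (V (some (c j)) - dd (G kn (ptr F J ω) j) (bt F ω) V)) := by
    rw [← Finset.sum_range_add_sum_Ico _ hki]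
    congr 1
    · refine Finset.sum_congr rfl fun j hj => ?_
      rw [hQb _ _ (mem_range.1 hj), hψ, folN_lt (mem_range.1 hj)]
    · refine Finset.sum_congr rfl fun j hj => ?_
      rw [mem_Ico] at hj
      rw [hψ, folN_mid hj.1 hj.2]
  rw [e0]
  rw [dd_sub, h3] at h2
  have e1 : 2 ^ g i * (V (some (c i)) - dd (ψ i) (bt F ω) V) -
      (2 ^ g i * τ * V none + ∑ j ∈ range k, gnq F c g G Q kb kn k i ω j *
        (2 ^ g j * (V (some (c j)) - dd (Q (ptr F J ω) j) (bt F ω) V))) =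
      2 ^ g i * (V (some (c i)) - dd (G kn (ptr F J ω) i) (bt F ω) V) +
      ∑ j ∈ Ico k i, gnq F c g G Q kb kn k i ω j *
        (2 ^ g j * (V (some (c j)) - dd (G kn (ptr F J ω) j) (bt F ω) V)) := by
    have e2 : (2 : ℝ) ^ g i * (V (some (c i)) - dd (ψ i) (bt F ω) V) =
        2 ^ g i * (V (some (c i)) - dd (G kn (ptr F J ω) i) (bt F ω) V) +
        2 ^ g i * (dd (G kn (ptr F J ω) i) (bt F ω) V - dd (ψ i) (bt F ω) V) := by ring
    rw [e2, h2]
    ring
  rw [e1]
  refine (abs_add_le _ _).trans (add_le_add ?_ ?_)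
  · rw [abs_mul, abs_of_pos (show (0 : ℝ) < 2 ^ g i by positivity)]
    exact mul_le_mul_of_nonneg_left (hV i le_rfl) (by positivity)
  · rw [Finset.mul_sum]
    refine (Finset.abs_sum_le_sum_abs _ _).trans (Finset.sum_le_sum fun j hj => ?_)
    rw [mem_Ico] at hj
    rw [abs_mul, abs_mul, abs_of_pos (show (0 : ℝ) < 2 ^ g j by positivity)]
    have h4 := hU j hj.2 hj.1
    exact mul_le_mul h4 (mul_le_mul_of_nonneg_left (hV j hj.2.le) (by positivity))
      (by positivity) ((abs_nonneg _).trans h4)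

/-- **The numbers of a combination** of the gradients `gg 0, …, gg u` of the targets with the
coefficients `lam 0, …, lam (u - 1), 1`. -/
noncomputable def cmb (k u : ℕ) (gg : ℕ → ℕ → ℝ) (lam : ℕ → ℝ) (j : ℕ) : ℝ :=
  if j < k then gg u j + ∑ l ∈ range u, lam l * gg l j else -lam (j - k)

/-- **The velocity of a combination**, in the form `cvg`. -/
theorem vel_comb {Q : PtT F → ℕ → MvPolynomial (Option (Fin m)) ℝ} {kb kn k u : ℕ}
    (hc : Set.InjOn c (Set.Iio (k + u))) (g : ℕ → ℕ) (hb : ∀ y l, DepC c l (G kb y l))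
    (hn : ∀ y l, DepC c l (G kn y l)) (hQd : ∀ y l, DepC c l (Q y l))
    (hQb : ∀ y, ∀ l < k, Q y l = G kb y l) (ω : F.Ω) (lam : ℕ → ℝ) :
    ∃ τ : ℝ, ∀ (V : Option (Fin m) → ℝ)
    (ε : ℕ → ℝ) (U U' : ℝ), 0 ≤ U → 0 ≤ U' →
    (∀ l ≤ k + u, |V (some (c l)) - dd (G kn (ptr F J ω) l) (bt F ω) V| ≤ ε l) →
    (∀ t ≤ u, ∀ l < k + t, k ≤ l → |gnq F c g G Q kb kn k (k + t) ω l| ≤ U) →
    (∀ l < u, |lam l| ≤ U') →
    |V (some (c (k + u))) - cvg c (k + u) g (Q (ptr F J ω)) (bt F ω)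
      (cmb k u (fun t => gnq F c g G Q kb kn k (k + t) ω) lam) τ V| ≤
      (1 + u * U') * (1 + U) * (∑ l ∈ Ico k (k + u + 1), 2 ^ g l * ε l) / 2 ^ g (k + u) := by
  have hv : ∀ t, ∃ τ : ℝ, t ≤ u → ∀ (V : Option (Fin m) → ℝ)
    (ε : ℕ → ℝ) (U : ℝ),
    (∀ l ≤ k + t, |V (some (c l)) - dd (G kn (ptr F J ω) l) (bt F ω) V| ≤ ε l) →
    (∀ l < k + t, k ≤ l → |gnq F c g G Q kb kn k (k + t) ω l| ≤ U) →
    |2 ^ g (k + t) * (V (some (c (k + t))) - dd (Q (ptr F J ω) (k + t)) (bt F ω) V) -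
      (τ * V none + ∑ j ∈ range k, gnq F c g G Q kb kn k (k + t) ω j *
        (2 ^ g j * (V (some (c j)) - dd (Q (ptr F J ω) j) (bt F ω) V)))| ≤
      2 ^ g (k + t) * ε (k + t) + U * ∑ l ∈ Ico k (k + t), 2 ^ g l * ε l := by
    intro t
    by_cases ht : t ≤ u
    · obtain ⟨τ, h1⟩ := vel_folN (F := F) (c := c) (G := G) (Q := Q) (kb := kb) (kn := kn) (k := k)
        (i := k + t) (Nat.le_add_right k t) (hc.mono fun y hy => by
          rw [Set.mem_Iio] at hy ⊢
          omega) g hb hn hQd hQb ω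
      exact ⟨τ, fun _ => h1⟩
    · exact ⟨0, fun h => absurd h ht⟩
  choose τ hτ using hv
  refine ⟨(τ u + ∑ l ∈ range u, lam l * τ l) / 2 ^ g (k + u), ?_⟩
  intro V ε U U' hU hU' hV hgU hlam
  obtain ⟨X, hX⟩ : ∃ X : ℕ → ℝ, X = fun j =>
    2 ^ g j * (V (some (c j)) - dd (Q (ptr F J ω) j) (bt F ω) V) := ⟨_, rfl⟩
  obtain ⟨gg, hgg⟩ : ∃ gg : ℕ → ℕ → ℝ, gg = fun t => gnq F c g G Q kb kn k (k + t) ω :=
    ⟨_, rfl⟩
  have hε : ∀ l ≤ k + u, 0 ≤ ε l := fun l hl => (abs_nonneg _).trans (hV l hl)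
  obtain ⟨E, hE⟩ : ∃ E : ℝ, E = ∑ l ∈ Ico k (k + u + 1), 2 ^ g l * ε l := ⟨_, rfl⟩
  have hmem : ∀ l ∈ Ico k (k + u + 1), 0 ≤ 2 ^ g l * ε l := fun l hl => by
    rw [mem_Ico] at hl
    exact mul_nonneg (by positivity) (hε l (by omega))
  have hE0 : 0 ≤ E := by
    rw [hE]
    exact Finset.sum_nonneg hmem
  -- one target
  have h1 : ∀ t ≤ u, |X (k + t) - (τ t * V none + ∑ j ∈ range k, gg t j * X j)| ≤
      (1 + U) * E := by
    intro t ht
    have h2 := hτ t ht V ε U (fun l hl => hV l (by omega)) (fun l hl hl' => hgU t ht l hl hl')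
    rw [hX, hgg]
    refine h2.trans ?_
    have h3 : 2 ^ g (k + t) * ε (k + t) ≤ E := by
      rw [hE]
      exact Finset.single_le_sum (f := fun l => 2 ^ g l * ε l) hmem
        (mem_Ico.2 ⟨by omega, by omega⟩)
    have h4 : ∑ l ∈ Ico k (k + t), 2 ^ g l * ε l ≤ E := by
      rw [hE]
      refine Finset.sum_le_sum_of_subset_of_nonneg (fun l hl => ?_) fun l hl _ => hmem l hl
      rw [mem_Ico] at hl ⊢
      omega
    have h5 := mul_le_mul_of_nonneg_left h4 hU
    linarith
  -- the combination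
  have h2 : |X (k + u) - ((τ u + ∑ l ∈ range u, lam l * τ l) * V none +
      ∑ j ∈ range (k + u), cmb k u gg lam j * X j)| ≤ (1 + u * U') * ((1 + U) * E) := by
    have e1 : ∑ j ∈ range (k + u), cmb k u gg lam j * X j =
        ∑ j ∈ range k, (gg u j + ∑ l ∈ range u, lam l * gg l j) * X j -
        ∑ l ∈ range u, lam l * X (k + l) := by
      rw [Finset.sum_range_add, sub_eq_add_neg, ← Finset.sum_neg_distrib]
      congr 1
      · refine Finset.sum_congr rfl fun j hj => ?_
        unfold cmb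
        rw [if_pos (mem_range.1 hj)]
      · refine Finset.sum_congr rfl fun l _ => ?_
        unfold cmb
        rw [if_neg (by omega), Nat.add_sub_cancel_left]
        ring
    have e2 : ∑ j ∈ range k, (gg u j + ∑ l ∈ range u, lam l * gg l j) * X j =
        ∑ j ∈ range k, gg u j * X j + ∑ l ∈ range u, lam l * ∑ j ∈ range k, gg l j * X j := by
      have e3 : ∀ j ∈ range k, (gg u j + ∑ l ∈ range u, lam l * gg l j) * X j =
          gg u j * X j + ∑ l ∈ range u, lam l * (gg l j * X j) := by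
        intro j _
        rw [add_mul, Finset.sum_mul]
        congr 1
        exact Finset.sum_congr rfl fun l _ => by ring
      rw [Finset.sum_congr rfl e3, Finset.sum_add_distrib, Finset.sum_comm]
      congr 1
      exact Finset.sum_congr rfl fun l _ => by rw [Finset.mul_sum]
    have e4 : X (k + u) - ((τ u + ∑ l ∈ range u, lam l * τ l) * V none +
        ∑ j ∈ range (k + u), cmb k u gg lam j * X j) =
        (X (k + u) - (τ u * V none + ∑ j ∈ range k, gg u j * X j)) +
        ∑ l ∈ range u, lam l * (X (k + l) - (τ l * V none + ∑ j ∈ range k, gg l j * X j)) := by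
      rw [e1, e2]
      have e5 : ∑ l ∈ range u, lam l * (X (k + l) - (τ l * V none +
          ∑ j ∈ range k, gg l j * X j)) = ∑ l ∈ range u, lam l * X (k + l) -
          ((∑ l ∈ range u, lam l * τ l) * V none +
            ∑ l ∈ range u, lam l * ∑ j ∈ range k, gg l j * X j) := by
        rw [Finset.sum_mul, ← Finset.sum_add_distrib, ← Finset.sum_sub_distrib]
        exact Finset.sum_congr rfl fun l _ => by ring
      rw [e5]
      ring
    rw [e4]
    refine (abs_add_le _ _).trans ?_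
    have h3 : |∑ l ∈ range u, lam l * (X (k + l) - (τ l * V none +
        ∑ j ∈ range k, gg l j * X j))| ≤ u * (U' * ((1 + U) * E)) := by
      refine (Finset.abs_sum_le_sum_abs _ _).trans ?_
      refine (Finset.sum_le_sum (g := fun _ => U' * ((1 + U) * E)) fun l hl => ?_).trans
        (le_of_eq ?_)
      · rw [mem_range] at hl
        rw [abs_mul]
        exact mul_le_mul (hlam l hl) (h1 l hl.le) (abs_nonneg _) hU'
      · rw [Finset.sum_const, card_range, nsmul_eq_mul]
    refine (add_le_add (h1 u le_rfl) h3).trans (le_of_eq ?_)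
    ring
  -- the form `cvg`
  have hp : (0 : ℝ) < 2 ^ g (k + u) := by positivity
  have e6 : V (some (c (k + u))) - cvg c (k + u) g (Q (ptr F J ω)) (bt F ω)
      (cmb k u (fun t => gnq F c g G Q kb kn k (k + t) ω) lam)
      ((τ u + ∑ l ∈ range u, lam l * τ l) / 2 ^ g (k + u)) V =
      (X (k + u) - ((τ u + ∑ l ∈ range u, lam l * τ l) * V none +
      ∑ j ∈ range (k + u), cmb k u gg lam j * X j)) / 2 ^ g (k + u) := by
    unfold cvg
    rw [← hgg]
    have e7 : ∑ j ∈ range (k + u), 2 ^ g j * (cmb k u gg lam j * (V (some (c j)) -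
        dd (Q (ptr F J ω) j) (bt F ω) V)) =
        ∑ j ∈ range (k + u), cmb k u gg lam j * X j := by
      refine Finset.sum_congr rfl fun j _ => ?_
      rw [hX]
      ring
    rw [e7]
    have e8 : X (k + u) = 2 ^ g (k + u) * (V (some (c (k + u))) -
      dd (Q (ptr F J ω) (k + u)) (bt F ω) V) := by rw [hX]
    rw [e8]
    field_simp
    ring
  rw [e6, abs_div, abs_of_pos hp, ← hE]
  refine div_le_div_of_nonneg_right (h2.trans (le_of_eq ?_)) hp.le
  ring

end

end Pool.T4E
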